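import Pool.Agent.Helper807.BS.Core

set_option autoImplicit false

namespace Pool.Agent.Helper807.BS

open MeasureTheory ProbabilityTheory Set Filter
open scoped NNReal ENNReal Topology

universe u

variable {Ω : Type u} [mΩ : MeasurableSpace Ω]

/-! ## Working interface: a two-dimensional Brownian motion with respect to a filtration -/

/-- `W` is a two-dimensional Brownian motion with respect to the filtration `F` with all paths
continuous, (only what is used of it). -/
structure CBM (P : Measure Ω) (F : ℝ → MeasurableSpace Ω) (W : Fin 2 → ℝ → Ω → ℝ) : Prop where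
  mono : ∀ s t : ℝ, s ≤ t → F s ≤ F t
  le : ∀ t, F t ≤ mΩ
  adapted : ∀ i t, 0 ≤ t → Measurable[F t, borel ℝ] (W i t)
  cont : ∀ i ω, Continuous (fun t => W i t ω)
  gauss : ∀ i (s t : ℝ), 0 ≤ s → s ≤ t →
    HasLaw (fun ω => W i t ω - W i s ω) (gaussianReal 0 (t - s).toNNReal) P
  indep : ∀ i (s t : ℝ), 0 ≤ s → s ≤ t →
    Indep (F s) (MeasurableSpace.comap (fun ω => W i t ω - W i s ω) (borel ℝ)) P
  null : ∀ A : Set Ω, MeasurableSet[mΩ] A → P A = 0 → MeasurableSet[F 0] A

/-- The point of `[a, c]` nearest to `t` (for `a ≤ c`). -/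
noncomputable def clamp (a c t : ℝ) : ℝ := max a (min t c)

end Pool.Agent.Helper807.BS
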