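import Pool.Agent.Helper807.BS.Defs

set_option autoImplicit false

namespace Pool.Agent.Helper807.BS

open MeasureTheory ProbabilityTheory Set Filter
open scoped NNReal ENNReal Topology

universe u

variable {Ω : Type u} [mΩ : MeasurableSpace Ω]

/-- the interpolation function of a stage: `l = 0` is the linear case -/
noncomputable def Gf (l y v p : ℝ) : ℝ :=
  if l = 0 then (1 - p) * v + p * y
  else Real.log ((1 - p) * Real.exp (l * v) + p * Real.exp (l * y)) / l

/-- its derivative -/
noncomputable def Gd (l y v p : ℝ) : ℝ :=
  if l = 0 then y - v
  else (Real.exp (l * y) - Real.exp (l * v)) /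
    (l * ((1 - p) * Real.exp (l * v) + p * Real.exp (l * y)))

end Pool.Agent.Helper807.BS
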