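import Pool.Agent.Helper807.BS.Defs

set_option autoImplicit false

namespace Pool.Agent.Helper807.BS

open MeasureTheory ProbabilityTheory Set Filter
open scoped NNReal ENNReal Topology

universe u

variable {Ω : Type u} [mΩ : MeasurableSpace Ω]

/-- standard normal density -/
noncomputable def phi (x : ℝ) : ℝ := Real.exp (-x ^ 2 / 2) / √(2 * Real.pi)

/-- standard normal distribution function -/
noncomputable def Phi (x : ℝ) : ℝ := 1 / 2 + ∫ s in (0 : ℝ)..x, phi s

end Pool.Agent.Helper807.BS
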