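import Pool.Agent.Helper807.BS.Defs
import Pool.Agent.Helper807.BS.DPhi
import Pool.Agent.Helper807.BS.DG

set_option autoImplicit false

namespace Pool.Agent.Helper807.BS

open MeasureTheory ProbabilityTheory Set Filter
open scoped NNReal ENNReal Topology

universe u

variable {Ω : Type u} [mΩ : MeasurableSpace Ω]

/-- the value function of a stage ending at time `b` -/
noncomputable def stu (l y v b t x : ℝ) : ℝ := Gf l y v (Phi (x / √(b - t)))

/-- its `x`-derivative -/
noncomputable def stx (l y v b t x : ℝ) : ℝ :=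
  Gd l y v (Phi (x / √(b - t))) * phi (x / √(b - t)) / √(b - t)

/-- its `t`-derivative -/
noncomputable def stt (l y v b t x : ℝ) : ℝ :=
  Gd l y v (Phi (x / √(b - t))) * (x / √(b - t) * phi (x / √(b - t))) / (2 * (b - t))

/-- its second `x`-derivative -/
noncomputable def stxx (l y v b t x : ℝ) : ℝ :=
  (-l * (Gd l y v (Phi (x / √(b - t)))) ^ 2 * (phi (x / √(b - t))) ^ 2 -
    Gd l y v (Phi (x / √(b - t))) * (x / √(b - t) * phi (x / √(b - t)))) / (b - t)

end Pool.Agent.Helper807.BS
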