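import Pool.Agent.Helper807.BS.Defs
import Pool.Agent.Helper807.BS.DSt

set_option autoImplicit false

namespace Pool.Agent.Helper807.BS

open MeasureTheory ProbabilityTheory Set Filter
open scoped NNReal ENNReal Topology

universe u

variable {Ω : Type u} [mΩ : MeasurableSpace Ω]

/-- the value process of the stage `[a, b]` along the path `w` -/
noncomputable def ust (l y0 y v a b : ℝ) (w : ℝ → ℝ) (t : ℝ) : ℝ :=
  if t ≤ a then y0 else if t < b then stu l y v b t (w t - w a)
  else if 0 < w b - w a then y else v

/-- the control process of the stage `[a, b]` along the path `w` -/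
noncomputable def zst (l y v a b : ℝ) (w : ℝ → ℝ) (t : ℝ) : ℝ :=
  if a < t ∧ t < b then stx l y v b t (w t - w a) else 0

end Pool.Agent.Helper807.BS
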