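import Pool.Agent.Helper807.BS.Defs
import Pool.Agent.Helper807.BS.DG

set_option autoImplicit false

namespace Pool.Agent.Helper807.BS

open MeasureTheory ProbabilityTheory Set Filter
open scoped NNReal ENNReal Topology

universe u

variable {Ω : Type u} [mΩ : MeasurableSpace Ω]

theorem Gq_pos (l y v p : ℝ) (hp : p ∈ Icc (0 : ℝ) 1) :
    0 < (1 - p) * Real.exp (l * v) + p * Real.exp (l * y) := by
  obtain ⟨h0, h1⟩ := hp
  have e1 := Real.exp_pos (l * v)
  have e2 := Real.exp_pos (l * y)
  rcases eq_or_lt_of_le h0 with h | h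
  · rw [← h]; simp only [sub_zero, one_mul, zero_mul, add_zero]; exact e1
  · have a1 : 0 ≤ (1 - p) * Real.exp (l * v) := mul_nonneg (by linarith) e1.le
    have a2 : 0 < p * Real.exp (l * y) := mul_pos h e2
    linarith

theorem hasDerivAt_Gq (l y v p : ℝ) :
    HasDerivAt (fun p => (1 - p) * Real.exp (l * v) + p * Real.exp (l * y))
      (Real.exp (l * y) - Real.exp (l * v)) p := by
  have h1 : HasDerivAt (fun p : ℝ => (1 - p) * Real.exp (l * v)) ((0 - 1) * Real.exp (l * v)) p :=
    ((hasDerivAt_const p (1:ℝ)).sub (hasDerivAt_id p)).mul_const _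
  have h2 : HasDerivAt (fun p : ℝ => p * Real.exp (l * y)) (1 * Real.exp (l * y)) p :=
    (hasDerivAt_id p).mul_const _
  exact (h1.add h2).congr_deriv (by ring)

theorem hasDerivAt_Gf (l y v p : ℝ) (hp : p ∈ Icc (0 : ℝ) 1) :
    HasDerivAt (Gf l y v) (Gd l y v p) p := by
  by_cases hl : l = 0
  · have e1 : Gf l y v = fun p => (1 - p) * v + p * y := by
      funext p; simp [Gf, hl]
    have e2 : Gd l y v p = y - v := by simp [Gd, hl]
    rw [e1, e2]
    have h1 : HasDerivAt (fun p : ℝ => (1 - p) * v) ((0 - 1) * v) p :=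
      ((hasDerivAt_const p (1:ℝ)).sub (hasDerivAt_id p)).mul_const _
    have h2 : HasDerivAt (fun p : ℝ => p * y) (1 * y) p :=
      (hasDerivAt_id p).mul_const _
    exact (h1.add h2).congr_deriv (by ring)
  · have e1 : Gf l y v = fun p => Real.log ((1 - p) * Real.exp (l * v) + p * Real.exp (l * y)) / l := by
      funext p; simp [Gf, hl]
    have e2 : Gd l y v p = (Real.exp (l * y) - Real.exp (l * v)) /
      (l * ((1 - p) * Real.exp (l * v) + p * Real.exp (l * y))) := by simp [Gd, hl]
    rw [e1, e2]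
    have hq := Gq_pos l y v p hp
    have h := ((hasDerivAt_Gq l y v p).log hq.ne').div_const l
    refine h.congr_deriv ?_
    have hq' := hq.ne'
    field_simp

theorem hasDerivAt_Gd (l y v p : ℝ) (hp : p ∈ Icc (0 : ℝ) 1) :
    HasDerivAt (Gd l y v) (-l * (Gd l y v p) ^ 2) p := by
  by_cases hl : l = 0
  · have e1 : Gd l y v = fun _ => y - v := by
      funext p; simp [Gd, hl]
    rw [e1, hl]
    simpa using hasDerivAt_const p (y - v)
  · have e1 : Gd l y v = fun p => (Real.exp (l * y) - Real.exp (l * v)) /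
      (l * ((1 - p) * Real.exp (l * v) + p * Real.exp (l * y))) := by
      funext p; simp [Gd, hl]
    have hq := Gq_pos l y v p hp
    have hne : l * ((1 - p) * Real.exp (l * v) + p * Real.exp (l * y)) ≠ 0 :=
      mul_ne_zero hl hq.ne'
    have h := (hasDerivAt_const p (Real.exp (l * y) - Real.exp (l * v))).div
      ((hasDerivAt_Gq l y v p).const_mul l) hne
    rw [e1]
    refine h.congr_deriv ?_
    have hq' := hq.ne'
    simp only []
    field_simp
    try ring

theorem Gf_zero (l y v : ℝ) : Gf l y v 0 = v := by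
  by_cases hl : l = 0
  · simp [Gf, hl]
  · simp [Gf, hl]

theorem Gf_one (l y v : ℝ) : Gf l y v 1 = y := by
  by_cases hl : l = 0
  · simp [Gf, hl]
  · simp [Gf, hl]

theorem abs_Gf_le (l y v p : ℝ) (hp : p ∈ Icc (0 : ℝ) 1) : |Gf l y v p| ≤ max |y| |v| := by
  have hy : -(max |y| |v|) ≤ y ∧ y ≤ max |y| |v| := by
    constructor
    · linarith [neg_abs_le y, le_max_left |y| |v|]
    · exact (le_abs_self y).trans (le_max_left _ _)
  have hv : -(max |y| |v|) ≤ v ∧ v ≤ max |y| |v| := by
    constructor
    · linarith [neg_abs_le v, le_max_right |y| |v|]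
    · exact (le_abs_self v).trans (le_max_right _ _)
  set m := max |y| |v| with hm
  obtain ⟨h0, h1⟩ := hp
  rw [abs_le]
  by_cases hl : l = 0
  · have e1 : Gf l y v p = (1 - p) * v + p * y := by simp [Gf, hl]
    rw [e1]
    constructor
    · nlinarith [hy.1, hv.1]
    · nlinarith [hy.2, hv.2]
  · have e1 : Gf l y v p = Real.log ((1 - p) * Real.exp (l * v) + p * Real.exp (l * y)) / l := by
      simp [Gf, hl]
    have hq := Gq_pos l y v p ⟨h0, h1⟩
    rw [e1]
    rcases lt_or_gt_of_ne hl with hneg | hpos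
    · have ub : (1 - p) * Real.exp (l * v) + p * Real.exp (l * y) ≤ Real.exp (l * (-m)) := by
        have a1 : Real.exp (l * v) ≤ Real.exp (l * (-m)) := Real.exp_le_exp.mpr (by nlinarith [hv.1])
        have a2 : Real.exp (l * y) ≤ Real.exp (l * (-m)) := Real.exp_le_exp.mpr (by nlinarith [hy.1])
        nlinarith
      have lb : Real.exp (l * m) ≤ (1 - p) * Real.exp (l * v) + p * Real.exp (l * y) := by
        have a1 : Real.exp (l * m) ≤ Real.exp (l * v) := Real.exp_le_exp.mpr (by nlinarith [hv.2])
        have a2 : Real.exp (l * m) ≤ Real.exp (l * y) := Real.exp_le_exp.mpr (by nlinarith [hy.2])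
        nlinarith
      have u1 := Real.log_le_log hq ub
      rw [Real.log_exp] at u1
      have l1 := Real.log_le_log (Real.exp_pos _) lb
      rw [Real.log_exp] at l1
      constructor
      · rw [le_div_iff_of_neg hneg]; linarith
      · rw [div_le_iff_of_neg hneg]; linarith
    · have ub : (1 - p) * Real.exp (l * v) + p * Real.exp (l * y) ≤ Real.exp (l * m) := by
        have a1 : Real.exp (l * v) ≤ Real.exp (l * m) := Real.exp_le_exp.mpr (by nlinarith [hv.2])
        have a2 : Real.exp (l * y) ≤ Real.exp (l * m) := Real.exp_le_exp.mpr (by nlinarith [hy.2])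
        nlinarith
      have lb : Real.exp (l * (-m)) ≤ (1 - p) * Real.exp (l * v) + p * Real.exp (l * y) := by
        have a1 : Real.exp (l * (-m)) ≤ Real.exp (l * v) := Real.exp_le_exp.mpr (by nlinarith [hv.1])
        have a2 : Real.exp (l * (-m)) ≤ Real.exp (l * y) := Real.exp_le_exp.mpr (by nlinarith [hy.1])
        nlinarith
      have u1 := Real.log_le_log hq ub
      rw [Real.log_exp] at u1
      have l1 := Real.log_le_log (Real.exp_pos _) lb
      rw [Real.log_exp] at l1
      constructor
      · rw [le_div_iff₀ hpos]; linarith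
      · rw [div_le_iff₀ hpos]; linarith

theorem abs_Gd_le (l y v : ℝ) : ∃ C : ℝ, 0 < C ∧ ∀ p ∈ Icc (0 : ℝ) 1, |Gd l y v p| ≤ C := by
  have hcont : ContinuousOn (fun p => Gd l y v p) (Icc (0:ℝ) 1) := by
    intro p hp
    exact (hasDerivAt_Gd l y v p hp).continuousAt.continuousWithinAt
  obtain ⟨C, hC⟩ := isCompact_Icc.exists_bound_of_continuousOn hcont
  refine ⟨|C| + 1, by positivity, ?_⟩
  intro p hp
  have := hC p hp
  rw [Real.norm_eq_abs] at this
  linarith [le_abs_self C]

end Pool.Agent.Helper807.BS
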