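import Pool.Agent.Helper807.BS.Defs
import Pool.Agent.Helper807.BS.DPhi

set_option autoImplicit false

namespace Pool.Agent.Helper807.BS

open MeasureTheory ProbabilityTheory Set Filter
open scoped NNReal ENNReal Topology

universe u

variable {Ω : Type u} [mΩ : MeasurableSpace Ω]

theorem phi_cont_10106 : Continuous phi := by
  unfold phi
  exact (Real.continuous_exp.comp (((continuous_id.pow 2).neg).div_const 2)).div_const _

theorem sqrt_10106 : (5 / 2 : ℝ) ≤ √(2 * Real.pi) := by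
  apply Real.le_sqrt_of_sq_le
  have := Real.pi_gt_d2
  norm_num
  linarith

theorem exp_10106 (x : ℝ) : Real.exp (-x ^ 2 / 2) * (1 + x ^ 2 / 2) ≤ 1 := by
  have h1 : Real.exp (-x ^ 2 / 2) * Real.exp (x ^ 2 / 2) = 1 := by
    rw [← Real.exp_add]
    have : -x ^ 2 / 2 + x ^ 2 / 2 = 0 := by ring
    rw [this, Real.exp_zero]
  have h2 : 1 + x ^ 2 / 2 ≤ Real.exp (x ^ 2 / 2) := by
    have := Real.add_one_le_exp (x ^ 2 / 2)
    linarith
  calc Real.exp (-x ^ 2 / 2) * (1 + x ^ 2 / 2) ≤ Real.exp (-x ^ 2 / 2) * Real.exp (x ^ 2 / 2) :=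
        mul_le_mul_of_nonneg_left h2 (Real.exp_pos _).le
    _ = 1 := h1

theorem hasDerivAt_Phi (x : ℝ) : HasDerivAt Phi (phi x) x := by
  unfold Phi
  exact ((phi_cont_10106.integral_hasStrictDerivAt 0 x).hasDerivAt).const_add (1 / 2)

theorem hasDerivAt_phi (x : ℝ) : HasDerivAt phi (-x * phi x) x := by
  have h1 : HasDerivAt (fun x : ℝ => -x ^ 2 / 2) (-x) x := by
    have h := ((hasDerivAt_pow 2 x).neg).div_const 2
    refine h.congr_deriv ?_
    push_cast
    ring
  have h2 := (h1.exp).div_const (√(2 * Real.pi))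
  unfold phi
  refine h2.congr_deriv ?_
  ring

theorem phi_pos (x : ℝ) : 0 < phi x := by
  unfold phi
  have := sqrt_10106
  exact div_pos (Real.exp_pos _) (by linarith)

theorem Phi_zero : Phi 0 = 1 / 2 := by
  unfold Phi
  simp

theorem phi_bounds (x : ℝ) : phi x ≤ 1 ∧ |x| * phi x ≤ 1 ∧ x ^ 2 * phi x ≤ 1 := by
  have hc := sqrt_10106
  have hE := Real.exp_pos (-x ^ 2 / 2)
  have h := exp_10106 x
  have hx2 : 0 ≤ x ^ 2 := sq_nonneg x
  have hcpos : 0 < √(2 * Real.pi) := by linarith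
  have hEx : 0 ≤ Real.exp (-x ^ 2 / 2) * (x ^ 2 / 2) := by positivity
  have e1 : Real.exp (-x ^ 2 / 2) ≤ 1 := by nlinarith
  have e2 : Real.exp (-x ^ 2 / 2) * (x ^ 2 / 2) ≤ 1 := by nlinarith
  unfold phi
  refine ⟨?_, ?_, ?_⟩
  · rw [div_le_one hcpos]; linarith
  · rw [← mul_div_assoc, div_le_one hcpos]
    have h3 : |x| ≤ 1 + x ^ 2 / 2 := by
      rw [← sq_abs]
      nlinarith [sq_nonneg (|x| - 1), abs_nonneg x]
    calc |x| * Real.exp (-x ^ 2 / 2) ≤ (1 + x ^ 2 / 2) * Real.exp (-x ^ 2 / 2) :=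
          mul_le_mul_of_nonneg_right h3 hE.le
      _ ≤ 1 := by rw [mul_comm]; exact h
      _ ≤ _ := by linarith
  · rw [← mul_div_assoc, div_le_one hcpos]
    nlinarith

theorem tendsto_mul_phi_top : Tendsto (fun x => x * phi x) atTop (𝓝 0) := by
  refine squeeze_zero' (g := fun x : ℝ => x⁻¹) ?_ ?_ tendsto_inv_atTop_zero
  · filter_upwards [eventually_gt_atTop 0] with x hx
    exact mul_nonneg hx.le (phi_pos x).le
  · filter_upwards [eventually_gt_atTop 0] with x hx
    have h1 := (phi_bounds x).2.2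
    rw [le_inv_comm₀ (mul_pos hx (phi_pos x)) hx, le_inv_comm₀ hx (mul_pos hx (phi_pos x))]
    rw [← one_div, le_div_iff₀ hx]
    calc x * phi x * x = x ^ 2 * phi x := by ring
      _ ≤ 1 := h1

theorem tendsto_mul_phi_bot : Tendsto (fun x => x * phi x) atBot (𝓝 0) := by
  have h1 : Tendsto (fun x : ℝ => -((-x) * phi (-x))) atBot (𝓝 (-0)) :=
    (tendsto_mul_phi_top.comp tendsto_neg_atBot_atTop).neg
  rw [neg_zero] at h1
  refine h1.congr fun x => ?_
  have : phi (-x) = phi x := by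
    unfold phi
    rw [neg_sq]
  rw [this]
  ring

end Pool.Agent.Helper807.BS
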