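import Pool.Agent.Helper807.BS.Defs
import Pool.Agent.Helper807.BS.DPhi

set_option autoImplicit false

namespace Pool.Agent.Helper807.BS

open MeasureTheory ProbabilityTheory Set Filter
open scoped NNReal ENNReal Topology

universe u

variable {Ω : Type u} [mΩ : MeasurableSpace Ω]

theorem phi_eq_357 (x : ℝ) : phi x = Real.exp (-(1 / 2) * x ^ 2) / √(2 * Real.pi) := by
  unfold phi
  congr 2
  ring

theorem phi_pos_357 (x : ℝ) : 0 < phi x := by
  unfold phi
  positivity

theorem phi_cont_357 : Continuous phi := by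
  unfold phi
  fun_prop

theorem phi_integrable_357 : Integrable phi := by
  have h : phi = fun x => Real.exp (-(1 / 2) * x ^ 2) / √(2 * Real.pi) := funext phi_eq_357
  rw [h]
  exact (integrable_exp_neg_mul_sq (by norm_num)).div_const _

theorem phi_half_357 : ∫ x in Ioi (0 : ℝ), phi x = 1 / 2 := by
  have h : phi = fun x => Real.exp (-(1 / 2) * x ^ 2) / √(2 * Real.pi) := funext phi_eq_357
  rw [h, MeasureTheory.integral_div, integral_gaussian_Ioi]
  have h1 : Real.pi / (1 / 2) = 2 * Real.pi := by ring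
  rw [h1]
  have h2 : √(2 * Real.pi) ≠ 0 := by positivity
  field_simp

theorem phi_even_357 (x : ℝ) : phi (-x) = phi x := by
  unfold phi
  simp

theorem Phi_neg_357 (x : ℝ) : Phi (-x) = 1 - Phi x := by
  unfold Phi
  have h : ∫ s in (0 : ℝ)..(-x), phi s = -∫ s in (0 : ℝ)..x, phi s := by
    have h1 := intervalIntegral.integral_comp_neg (a := (0 : ℝ)) (b := x) (fun s => phi s)
    simp only [phi_even_357, neg_zero] at h1
    rw [h1, intervalIntegral.integral_symm]
  rw [h]
  ring

theorem Phi_strictMono_357 : StrictMono Phi := by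
  intro a b hab
  unfold Phi
  have h1 : (∫ s in (0 : ℝ)..a, phi s) + ∫ s in a..b, phi s = ∫ s in (0 : ℝ)..b, phi s :=
    intervalIntegral.integral_add_adjacent_intervals
      (phi_cont_357.intervalIntegrable _ _) (phi_cont_357.intervalIntegrable _ _)
  have h2 : 0 < ∫ s in a..b, phi s :=
    intervalIntegral.intervalIntegral_pos_of_pos (phi_cont_357.intervalIntegrable _ _)
      phi_pos_357 hab
  linarith

theorem tendsto_Phi_top : Tendsto Phi atTop (𝓝 1) := by
  have h1 := intervalIntegral_tendsto_integral_Ioi (0 : ℝ)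
    (phi_integrable_357.integrableOn) tendsto_id
  rw [phi_half_357] at h1
  have h2 := h1.const_add (1 / 2 : ℝ)
  have h3 : (1 / 2 + 1 / 2 : ℝ) = 1 := by norm_num
  rw [h3] at h2
  exact h2

theorem tendsto_Phi_bot : Tendsto Phi atBot (𝓝 0) := by
  have h1 : Tendsto (fun x : ℝ => 1 - Phi (-x)) atBot (𝓝 (1 - 1)) :=
    (tendsto_Phi_top.comp tendsto_neg_atBot_atTop).const_sub 1
  rw [sub_self] at h1
  have h2 : (fun x : ℝ => 1 - Phi (-x)) = Phi := by
    funext x
    rw [Phi_neg_357]
    ring
  rwa [h2] at h1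

theorem Phi_mem (x : ℝ) : Phi x ∈ Ioo (0 : ℝ) 1 := by
  constructor
  · have h1 : 0 ≤ Phi (x - 1) :=
      Phi_strictMono_357.monotone.le_of_tendsto tendsto_Phi_bot (x - 1)
    have h2 := Phi_strictMono_357 (show x - 1 < x by linarith)
    linarith
  · have h1 : Phi (x + 1) ≤ 1 :=
      Phi_strictMono_357.monotone.ge_of_tendsto tendsto_Phi_top (x + 1)
    have h2 := Phi_strictMono_357 (show x < x + 1 by linarith)
    linarith

end Pool.Agent.Helper807.BS
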