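import Pool.Agent.Helper807.BS.Defs

set_option autoImplicit false

namespace Pool.Agent.Helper807.BS

open MeasureTheory ProbabilityTheory Set Filter
open scoped NNReal ENNReal Topology

universe u

variable {Ω : Type u} [mΩ : MeasurableSpace Ω]

theorem indep_sup_10092 (P : Measure Ω) [IsProbabilityMeasure P] {G1 G2 D : MeasurableSpace Ω}
    (h1 : G1 ≤ mΩ) (h2 : G2 ≤ mΩ) (hD : D ≤ mΩ) (hDG : Indep D G1 P)
    (hall : Indep (D ⊔ G1) G2 P) : Indep (G1 ⊔ G2) D P := by
  set p : Set (Set Ω) := {A | ∃ A1 A2, MeasurableSet[G1] A1 ∧ MeasurableSet[G2] A2 ∧ A = A1 ∩ A2}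
    with hp
  have hgen : G1 ⊔ G2 = MeasurableSpace.generateFrom p := by
    apply le_antisymm
    · refine sup_le (fun A hA => ?_) (fun A hA => ?_)
      · exact MeasurableSpace.measurableSet_generateFrom
          ⟨A, Set.univ, hA, MeasurableSet.univ, by simp⟩
      · exact MeasurableSpace.measurableSet_generateFrom
          ⟨Set.univ, A, MeasurableSet.univ, hA, by simp⟩
    · refine MeasurableSpace.generateFrom_le ?_
      rintro A ⟨A1, A2, hA1, hA2, rfl⟩
      exact MeasurableSet.inter ((le_sup_left : G1 ≤ G1 ⊔ G2) _ hA1)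
        ((le_sup_right : G2 ≤ G1 ⊔ G2) _ hA2)
  have hpi : IsPiSystem p := by
    rintro A ⟨A1, A2, hA1, hA2, rfl⟩ A' ⟨A1', A2', hA1', hA2', rfl⟩ -
    exact ⟨A1 ∩ A1', A2 ∩ A2', hA1.inter hA1', hA2.inter hA2', by
      ext x; simp only [Set.mem_inter_iff]; tauto⟩
  refine IndepSets.indep (sup_le h1 h2) hD hpi (@MeasurableSpace.isPiSystem_measurableSet Ω D) hgen
    (@MeasurableSpace.generateFrom_measurableSet Ω D).symm ?_
  rw [IndepSets_iff]
  rintro A E ⟨A1, A2, hA1, hA2, rfl⟩ hE
  have e1 := (Indep_iff _ _ _).1 hall (E ∩ A1) A2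
    (MeasurableSet.inter ((le_sup_left : D ≤ D ⊔ G1) _ hE) ((le_sup_right : G1 ≤ D ⊔ G1) _ hA1)) hA2
  have e2 := (Indep_iff _ _ _).1 hDG E A1 hE hA1
  have e3 := (Indep_iff _ _ _).1 hall A1 A2 ((le_sup_right : G1 ≤ D ⊔ G1) _ hA1) hA2
  have e4 : A1 ∩ A2 ∩ E = E ∩ A1 ∩ A2 := by
    ext x; simp only [Set.mem_inter_iff]; tauto
  rw [e4, e1, e2, e3]
  ring

theorem indep_null_10092 (P : Measure Ω) [IsProbabilityMeasure P] {G D F : MeasurableSpace Ω}
    (hGD : Indep G D P)
    (hF : ∀ A, MeasurableSet[F] A → ∃ A0, MeasurableSet[G] A0 ∧ A =ᵐ[P] A0) : Indep F D P := by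
  rw [Indep_iff]
  intro A E hA hE
  obtain ⟨A0, hA0, hAA⟩ := hF A hA
  have e1 : (A ∩ E : Set Ω) =ᵐ[P] (A0 ∩ E : Set Ω) := hAA.inter (Filter.EventuallyEq.refl _ _)
  rw [measure_congr e1, measure_congr hAA]
  exact (Indep_iff _ _ _).1 hGD A0 E hA0 hE

/-- the increment of one coordinate after time `s` is independent of the completed past -/
theorem indep_increment (P : Measure Ω) [IsProbabilityMeasure P] (B : Fin 2 → ℝ≥0 → Ω → ℝ)
    (hB : IsBM2 B P) (i : Fin 2) (s t : ℝ≥0) (hst : s ≤ t) :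
    Indep (Fil B P s) (MeasurableSpace.comap (fun ω => B i t ω - B i s ω) (borel ℝ)) P := by
  classical
  have hj : ∃ j : Fin 2, j ≠ i ∧ (∀ k : Fin 2, k = i ∨ k = j) ∧
      IndepFun (fun ω (t : ℝ≥0) => B i t ω) (fun ω (t : ℝ≥0) => B j t ω) P := by
    fin_cases i
    · exact ⟨1, by decide, by decide, hB.indep⟩
    · exact ⟨0, by decide, by decide, hB.indep.symm⟩
  obtain ⟨j, hji, hk, hind⟩ := hj
  have hX := (hB.bm i).toIsPreBrownianReal
  set f : Ω → ℝ≥0 → ℝ := fun ω t => B i t ω with hf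
  set f' : Ω → ℝ≥0 → ℝ := fun ω t => B j t ω with hf'
  have mf : Measurable f := measurable_pi_lambda _ fun t => hB.meas i t
  have mf' : Measurable f' := measurable_pi_lambda _ fun t => hB.meas j t
  set fs : Ω → Set.Iic s → ℝ := fun ω r => B i r ω with hfs
  have mfs : Measurable fs := measurable_pi_lambda _ fun t => hB.meas i t
  set sh : Ω → ℝ≥0 → ℝ := fun ω r => B i (s + r) ω - B i s ω with hsh
  have hD1 : (fun ω => B i t ω - B i s ω) = (fun g : ℝ≥0 → ℝ => g (t - s)) ∘ sh := by
    funext ω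
    simp only [hsh, Function.comp, add_tsub_cancel_of_le hst]
  have hD2 : (fun ω => B i t ω - B i s ω) = (fun g : ℝ≥0 → ℝ => g t - g s) ∘ f := rfl
  have hfs2 : fs = (fun (g : ℝ≥0 → ℝ) (r : Set.Iic s) => g r) ∘ f := rfl
  have i1 : IndepFun (fun ω => B i t ω - B i s ω) fs P := by
    rw [hD1]
    exact (hX.indepFun_shift s).comp (φ := fun g : ℝ≥0 → ℝ => g (t - s)) (ψ := id)
      (measurable_pi_apply _) measurable_id
  have hDm : Measurable (fun ω => B i t ω - B i s ω) := (hB.meas i t).sub (hB.meas i s)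
  have hDle : MeasurableSpace.comap (fun ω => B i t ω - B i s ω) (borel ℝ) ≤ mΩ := by
    have := hDm.comap_le
    rwa [BorelSpace.measurable_eq (α := ℝ)] at this
  have hDf : MeasurableSpace.comap (fun ω => B i t ω - B i s ω) (borel ℝ) ≤
      MeasurableSpace.comap f inferInstance := by
    rw [hD2, ← MeasurableSpace.comap_comp, ← BorelSpace.measurable_eq (α := ℝ)]
    refine MeasurableSpace.comap_mono ?_
    exact Measurable.comap_le (by fun_prop)
  have hGf : MeasurableSpace.comap fs inferInstance ≤ MeasurableSpace.comap f inferInstance := by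
    rw [hfs2, ← MeasurableSpace.comap_comp]
    refine MeasurableSpace.comap_mono ?_
    exact Measurable.comap_le (measurable_pi_lambda _ fun r => measurable_pi_apply _)
  have i2 : Indep (MeasurableSpace.comap (fun ω => B i t ω - B i s ω) (borel ℝ))
      (MeasurableSpace.comap fs inferInstance) P := by
    have := (IndepFun_iff_Indep _ _ _).1 i1
    rwa [BorelSpace.measurable_eq (α := ℝ)] at this
  have i3 : Indep (MeasurableSpace.comap (fun ω => B i t ω - B i s ω) (borel ℝ) ⊔
      MeasurableSpace.comap fs inferInstance) (MeasurableSpace.comap f' inferInstance) P :=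
    indep_of_indep_of_le_left ((IndepFun_iff_Indep _ _ _).1 hind) (sup_le hDf hGf)
  refine indep_null_10092 P (indep_sup_10092 P mfs.comap_le mf'.comap_le hDle i2 i3) ?_
  have hle : Fil B P s ≤ eventuallyMeasurableSpace (MeasurableSpace.comap fs inferInstance ⊔
      MeasurableSpace.comap f' inferInstance) (ae P) := by
    refine MeasurableSpace.generateFrom_le ?_
    rintro A (⟨k, r, C, hr, hC, rfl⟩ | ⟨hA, hA0⟩)
    · refine le_eventuallyMeasurableSpace _ ?_
      rcases hk k with rfl | rfl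
      · refine (le_sup_left : _ ≤ MeasurableSpace.comap fs inferInstance ⊔
          MeasurableSpace.comap f' inferInstance) _ ?_
        have hr' : r ≤ s := by exact_mod_cast hr
        have hm : Measurable (fun g : Set.Iic s → ℝ => g ⟨r, hr'⟩) := measurable_pi_apply _
        exact ⟨_, hm hC, rfl⟩
      · refine (le_sup_right : _ ≤ MeasurableSpace.comap fs inferInstance ⊔
          MeasurableSpace.comap f' inferInstance) _ ?_
        have hm : Measurable (fun g : ℝ≥0 → ℝ => g r) := measurable_pi_apply _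
        exact ⟨_, hm hC, rfl⟩
    · refine ⟨∅, @MeasurableSet.empty _ (MeasurableSpace.comap fs inferInstance ⊔
          MeasurableSpace.comap f' inferInstance), ?_⟩
      exact ae_eq_empty.2 hA0
  intro A hA
  exact hle A hA

end Pool.Agent.Helper807.BS
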