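import Pool.Agent.Helper807.BS.Defs
import Pool.Agent.Helper807.BS.LIndep

set_option autoImplicit false

namespace Pool.Agent.Helper807.BS

open MeasureTheory ProbabilityTheory Set Filter
open scoped NNReal ENNReal Topology

universe u

variable {Ω : Type u} [mΩ : MeasurableSpace Ω]

theorem exists_cbm (P : Measure Ω) [IsProbabilityMeasure P] (B : Fin 2 → ℝ≥0 → Ω → ℝ)
    (hB : IsBM2 B P) :
    ∃ W : Fin 2 → ℝ → Ω → ℝ, CBM P (Fil B P) W ∧
      ∀ i (t : ℝ), ∀ᵐ ω ∂P, W i t ω = bt B i t ω := by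
  classical
  have hc : ∀ᵐ ω ∂P, ∀ i, Continuous (fun t => B i t ω) := ae_all_iff.2 fun i => (hB.bm i).cont
  obtain ⟨N, hN1, hN2, hN3⟩ := exists_measurable_superset_of_null (ae_iff.1 hc)
  let W : Fin 2 → ℝ → Ω → ℝ := fun i t ω => if ω ∈ N then 0 else B i t.toNNReal ω
  have hWae : ∀ i t, ∀ᵐ ω ∂P, W i t ω = bt B i t ω := by
    intro i t
    have : ∀ᵐ ω ∂P, ω ∉ N := measure_eq_zero_iff_ae_notMem.1 hN3
    filter_upwards [this] with ω hω
    simp only [W, bt, if_neg hω]
  have hincr : ∀ i s t, (fun ω => W i t ω - W i s ω) =ᵐ[P]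
      (fun ω => B i t.toNNReal ω - B i s.toNNReal ω) := by
    intro i s t
    filter_upwards [hWae i s, hWae i t] with ω h1 h2
    rw [h1, h2]; rfl
  have hle : ∀ t, Fil B P t ≤ mΩ := by
    intro t
    apply MeasurableSpace.generateFrom_le
    rintro A (⟨i, s, C, -, hC, rfl⟩ | ⟨hA, -⟩)
    · exact hB.meas i s hC
    · exact hA
  refine ⟨W, ⟨?_, hle, ?_, ?_, ?_, ?_, ?_⟩, hWae⟩
  · intro s t hst
    apply MeasurableSpace.generateFrom_mono
    rintro A (⟨i, r, C, hr, hC, rfl⟩ | hA)
    · exact Or.inl ⟨i, r, C, hr.trans hst, hC, rfl⟩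
    · exact Or.inr hA
  · intro i t ht
    apply Measurable.ite
    · exact MeasurableSpace.measurableSet_generateFrom (Or.inr ⟨hN2, hN3⟩)
    · exact measurable_const
    · intro C hC
      exact MeasurableSpace.measurableSet_generateFrom
        (Or.inl ⟨i, t.toNNReal, C, (Real.coe_toNNReal t ht).le, hC, rfl⟩)
  · intro i ω
    by_cases hω : ω ∈ N
    · simp only [W, if_pos hω]
      exact continuous_const
    · have h1 : ∀ i, Continuous (fun t => B i t ω) := by
        by_contra hcon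
        exact hω (hN1 hcon)
      simp only [W, if_neg hω]
      exact (h1 i).comp continuous_real_toNNReal
  · intro i s t hs hst
    have h1 := (hB.bm i).toIsPreBrownianReal.hasLaw_sub t.toNNReal s.toNNReal
    have h2 : nndist ((t.toNNReal : ℝ≥0) : ℝ) ((s.toNNReal : ℝ≥0) : ℝ) = (t - s).toNNReal := by
      apply NNReal.coe_injective
      rw [coe_nndist, Real.dist_eq, Real.coe_toNNReal _ (hs.trans hst), Real.coe_toNNReal _ hs,
        Real.coe_toNNReal _ (sub_nonneg.2 hst), abs_of_nonneg (sub_nonneg.2 hst)]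
    have h3 : HasLaw (B i t.toNNReal - B i s.toNNReal) (gaussianReal 0 (t - s).toNNReal) P := by
      rw [← h2]; exact h1
    exact h3.congr (hincr i s t)
  · intro i s t hs hst
    have h1 := indep_increment P B hB i s.toNNReal t.toNNReal (Real.toNNReal_le_toNNReal hst)
    rw [Real.coe_toNNReal s hs] at h1
    rw [Indep_iff] at h1 ⊢
    rintro t1 _ ht1 ⟨C, hC, rfl⟩
    have h2 := h1 t1 ((fun ω => B i t.toNNReal ω - B i s.toNNReal ω) ⁻¹' C) ht1 ⟨C, hC, rfl⟩
    have h3 : ((fun ω => W i t ω - W i s ω) ⁻¹' C : Set Ω) =ᵐ[P]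
        ((fun ω => B i t.toNNReal ω - B i s.toNNReal ω) ⁻¹' C : Set Ω) := by
      have h4 := hincr i s t
      filter_upwards [h4] with ω hω
      apply propext
      show (W i t ω - W i s ω) ∈ C ↔ (B i t.toNNReal ω - B i s.toNNReal ω) ∈ C
      have : W i t ω - W i s ω = B i t.toNNReal ω - B i s.toNNReal ω := hω
      rw [this]
    rw [measure_congr h3, ← h2]
    exact measure_congr ((ae_eq_refl t1).inter h3)
  · intro A hA hA0
    exact MeasurableSpace.measurableSet_generateFrom (Or.inr ⟨hA, hA0⟩)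

end Pool.Agent.Helper807.BS
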