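import Pool.Agent.Helper807.BS.Defs

set_option autoImplicit false

namespace Pool.Agent.Helper807.BS

open MeasureTheory ProbabilityTheory Set Filter
open scoped NNReal ENNReal Topology

universe u

variable {Ω : Type u} [mΩ : MeasurableSpace Ω]

/-- the grid -/
noncomputable def tt (T : ℝ) (n : ℕ) : ℝ := T * (1 - (1 / 2) ^ n)

/-- all the increments of the first `n` stages are positive -/
def Al0 (T : ℝ) (W : Fin 2 → ℝ → Ω → ℝ) (idx : ℕ → Fin 2) (n : ℕ) : Set Ω :=
  {ω | ∀ m < n, 0 < W (idx m) (tt T (m + 1)) ω - W (idx m) (tt T m) ω}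

/-- alive at the beginning of stage `n` (the null set of eternal survival is removed) -/
def Al (T : ℝ) (W : Fin 2 → ℝ → Ω → ℝ) (idx : ℕ → Fin 2) (n : ℕ) : Set Ω :=
  Al0 T W idx n \ ⋂ k, Al0 T W idx k

end Pool.Agent.Helper807.BS
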