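import Pool.Agent.Helper807.BS.Defs
import Pool.Agent.Helper807.BS.DPath
import Pool.Agent.Helper807.BS.DAl

set_option autoImplicit false

namespace Pool.Agent.Helper807.BS

open MeasureTheory ProbabilityTheory Set Filter
open scoped NNReal ENNReal Topology

universe u

variable {Ω : Type u} [mΩ : MeasurableSpace Ω]

/-- the contribution of stage `n` to `Y` -/
noncomputable def Yn (T : ℝ) (W : Fin 2 → ℝ → Ω → ℝ) (idx : ℕ → Fin 2) (lam : Fin 2 → ℝ)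
    (v y : ℕ → ℝ) (n : ℕ) (t : ℝ) (ω : Ω) : ℝ :=
  (Al T W idx n).indicator (fun ω => ust (lam (idx n)) (y n) (y (n + 1)) (v n) (tt T n)
    (tt T (n + 1)) (fun s => W (idx n) s ω) t - y n) ω

/-- the contribution of stage `n` to `Z` -/
noncomputable def Zn (T : ℝ) (W : Fin 2 → ℝ → Ω → ℝ) (idx : ℕ → Fin 2) (lam : Fin 2 → ℝ)
    (v y : ℕ → ℝ) (n : ℕ) (i : Fin 2) (t : ℝ) (ω : Ω) : ℝ :=
  if i = idx n then (Al T W idx n).indicator (fun ω => zst (lam (idx n)) (y (n + 1)) (v n)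
    (tt T n) (tt T (n + 1)) (fun s => W (idx n) s ω) t) ω else 0

/-- the contribution of stage `n` to the Ito integral -/
noncomputable def Mn (T : ℝ) (W : Fin 2 → ℝ → Ω → ℝ) (idx : ℕ → Fin 2) (lam : Fin 2 → ℝ)
    (v y : ℕ → ℝ) (n : ℕ) (t : ℝ) (ω : Ω) : ℝ :=
  (Al T W idx n).indicator (fun ω => ust (lam (idx n)) (y n) (y (n + 1)) (v n) (tt T n)
    (tt T (n + 1)) (fun s => W (idx n) s ω) t - y n +
    ∫ s in tt T n..clamp (tt T n) (tt T (n + 1)) t, lam (idx n) / 2 *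
      (zst (lam (idx n)) (y (n + 1)) (v n) (tt T n) (tt T (n + 1))
        (fun s => W (idx n) s ω) s) ^ 2) ω

/-- the process `Y` -/
noncomputable def Yp (T : ℝ) (W : Fin 2 → ℝ → Ω → ℝ) (idx : ℕ → Fin 2) (lam : Fin 2 → ℝ)
    (v y : ℕ → ℝ) (t : ℝ) (ω : Ω) : ℝ := y 0 + ∑' n, Yn T W idx lam v y n t ω

/-- the process `Z` -/
noncomputable def Zp (T : ℝ) (W : Fin 2 → ℝ → Ω → ℝ) (idx : ℕ → Fin 2) (lam : Fin 2 → ℝ)
    (v y : ℕ → ℝ) (i : Fin 2) (t : ℝ) (ω : Ω) : ℝ := ∑' n, Zn T W idx lam v y n i t ω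

/-- the Ito integral process -/
noncomputable def Mp (T : ℝ) (W : Fin 2 → ℝ → Ω → ℝ) (idx : ℕ → Fin 2) (lam : Fin 2 → ℝ)
    (v y : ℕ → ℝ) (t : ℝ) (ω : Ω) : ℝ := ∑' n, Mn T W idx lam v y n t ω

/-- the terminal value -/
noncomputable def xi (T : ℝ) (W : Fin 2 → ℝ → Ω → ℝ) (idx : ℕ → Fin 2) (v : ℕ → ℝ)
    (ω : Ω) : ℝ :=
  ∑' n, (Al T W idx n \ Al T W idx (n + 1)).indicator (fun _ => v n) ω

end Pool.Agent.Helper807.BS
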