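import Pool.Agent.Helper807.BS.Defs

set_option autoImplicit false

namespace Pool.Agent.Helper807.BS

open MeasureTheory ProbabilityTheory Set Filter
open scoped NNReal ENNReal Topology

universe u

variable {Ω : Type u} [mΩ : MeasurableSpace Ω]

theorem sval_append10112 (H H' : List (Blk Ω)) (i : Fin 2) (t : ℝ) (ω : Ω) :
    sval (H ++ H') i t ω = sval H i t ω + sval H' i t ω := by
  simp only [sval, List.map_append, List.sum_append]

theorem sint_append10112 (W : Fin 2 → ℝ → Ω → ℝ) (H H' : List (Blk Ω)) (t : ℝ) (ω : Ω) :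
    sint W (H ++ H') t ω = sint W H t ω + sint W H' t ω := by
  simp only [sint, List.map_append, List.sum_append]

theorem measurable_sval (H : List (Blk Ω)) (i : Fin 2) (ω : Ω) :
    Measurable (fun s => sval H i s ω) := by
  induction H with
  | nil => simp [sval]
  | cons b H ih =>
    have e : (fun s => sval (b :: H) i s ω) = fun s =>
        (if b.j = i ∧ b.s < s ∧ s ≤ b.r then b.h ω else 0) + sval H i s ω := by
      funext s
      simp only [sval, List.map_cons, List.sum_cons]
    rw [e]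
    refine Measurable.add ?_ ih
    refine Measurable.ite ?_ measurable_const measurable_const
    by_cases hb : b.j = i
    · have : {s : ℝ | b.j = i ∧ b.s < s ∧ s ≤ b.r} = Ioc b.s b.r := by
        ext s
        simp [hb]
      rw [this]
      exact measurableSet_Ioc
    · have : {s : ℝ | b.j = i ∧ b.s < s ∧ s ≤ b.r} = ∅ := by
        ext s
        simp [hb]
      rw [this]
      exact MeasurableSet.empty

theorem isIto_zero (T : ℝ) (P : Measure Ω) (F : ℝ → MeasurableSpace Ω)
    (W : Fin 2 → ℝ → Ω → ℝ) :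
    IsIto T P F W (fun _ _ _ => 0) (fun _ _ => 0) := by
  refine ⟨fun _ => [], fun n b hb => absurd hb List.not_mem_nil, fun ε hε => ?_, fun ε hε => ?_⟩
  · have e : {ω : Ω | ENNReal.ofReal ε ≤
        ∫⁻ s in Icc (0 : ℝ) T, ENNReal.ofReal (∑ i, (sval ([] : List (Blk Ω)) i s ω - 0) ^ 2)} =
        ∅ := by
      ext ω
      simp [sval, hε]
    have e' : P {ω : Ω | ENNReal.ofReal ε ≤
        ∫⁻ s in Icc (0 : ℝ) T, ENNReal.ofReal (∑ i, (sval ([] : List (Blk Ω)) i s ω - 0) ^ 2)} =
        0 := by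
      rw [e, measure_empty]
    show Tendsto (fun _ : ℕ => P {ω : Ω | ENNReal.ofReal ε ≤
        ∫⁻ s in Icc (0 : ℝ) T, ENNReal.ofReal (∑ i, (sval ([] : List (Blk Ω)) i s ω - 0) ^ 2)})
      atTop (𝓝 0)
    rw [e']
    exact tendsto_const_nhds
  · have e : ∀ t, {ω : Ω | ε ≤ |sint W ([] : List (Blk Ω)) t ω - 0|} = ∅ := by
      intro t
      ext ω
      simp [sint, hε]
    have e' : (⨆ t ∈ Icc (0 : ℝ) T,
        P {ω | ε ≤ |sint W ([] : List (Blk Ω)) t ω - 0|}) = 0 := by
      simp only [e, measure_empty, iSup_const, ENNReal.iSup_zero]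
    show Tendsto (fun _ : ℕ => ⨆ t ∈ Icc (0 : ℝ) T,
        P {ω | ε ≤ |sint W ([] : List (Blk Ω)) t ω - 0|}) atTop (𝓝 0)
    rw [e']
    exact tendsto_const_nhds

theorem isIto_add (T : ℝ) (P : Measure Ω) (F : ℝ → MeasurableSpace Ω)
    (W : Fin 2 → ℝ → Ω → ℝ) (Z Z' : Fin 2 → ℝ → Ω → ℝ) (M M' : ℝ → Ω → ℝ)
    (mZ : ∀ i ω, Measurable (fun s => Z i s ω))
    (h : IsIto T P F W Z M) (h' : IsIto T P F W Z' M') :
    IsIto T P F W (fun i t ω => Z i t ω + Z' i t ω) (fun t ω => M t ω + M' t ω) := by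
  obtain ⟨H, hs, h1, h2⟩ := h
  obtain ⟨H', hs', h1', h2'⟩ := h'
  refine ⟨fun n => H n ++ H' n, fun n b hb => ?_, fun ε hε => ?_, fun ε hε => ?_⟩
  · rcases List.mem_append.1 hb with hb | hb
    · exact hs n b hb
    · exact hs' n b hb
  · have t1 := (h1 (ε / 4) (by positivity)).add (h1' (ε / 4) (by positivity))
    rw [add_zero] at t1
    refine tendsto_of_tendsto_of_tendsto_of_le_of_le tendsto_const_nhds t1
      (fun _ => zero_le) (fun n => ?_)
    refine (measure_mono ?_).trans (measure_union_le _ _)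
    intro ω hω
    simp only [mem_setOf_eq, mem_union] at hω ⊢
    by_contra hcon
    push Not at hcon
    obtain ⟨c1, c2⟩ := hcon
    have hm : Measurable fun s => ENNReal.ofReal (∑ i, (sval (H n) i s ω - Z i s ω) ^ 2) := by
      apply Measurable.ennreal_ofReal
      refine Finset.measurable_sum _ fun i _ => ?_
      exact ((measurable_sval (H n) i ω).sub (mZ i ω)).pow_const 2
    have hle : ∫⁻ s in Icc (0 : ℝ) T, ENNReal.ofReal
        (∑ i, (sval (H n ++ H' n) i s ω - (Z i s ω + Z' i s ω)) ^ 2) ≤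
        2 * (∫⁻ s in Icc (0 : ℝ) T, ENNReal.ofReal (∑ i, (sval (H n) i s ω - Z i s ω) ^ 2)) +
        2 * (∫⁻ s in Icc (0 : ℝ) T, ENNReal.ofReal (∑ i, (sval (H' n) i s ω - Z' i s ω) ^ 2)) := by
      rw [← lintegral_const_mul' _ _ (by norm_num), ← lintegral_const_mul' _ _ (by norm_num),
        ← lintegral_add_left (hm.const_mul 2)]
      apply lintegral_mono
      intro s
      dsimp only
      have e2 : (2 : ℝ≥0∞) = ENNReal.ofReal 2 := by norm_num
      rw [e2, ← ENNReal.ofReal_mul (by norm_num), ← ENNReal.ofReal_mul (by norm_num),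
        ← ENNReal.ofReal_add (by positivity) (by positivity)]
      apply ENNReal.ofReal_le_ofReal
      rw [Finset.mul_sum, Finset.mul_sum, ← Finset.sum_add_distrib]
      apply Finset.sum_le_sum
      intro i _
      rw [sval_append10112]
      nlinarith [sq_nonneg ((sval (H n) i s ω - Z i s ω) - (sval (H' n) i s ω - Z' i s ω))]
    have d1 : ∀ x : ℝ≥0∞, x < ENNReal.ofReal (ε / 4) → 2 * x < ENNReal.ofReal (ε / 2) := by
      intro x hx
      have e3 : ENNReal.ofReal (ε / 2) = 2 * ENNReal.ofReal (ε / 4) := by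
        have e2 : (2 : ℝ≥0∞) = ENNReal.ofReal 2 := by norm_num
        rw [e2, ← ENNReal.ofReal_mul (by norm_num)]
        congr 1
        ring
      rw [e3]
      exact (ENNReal.mul_lt_mul_iff_right (by norm_num) (by norm_num)).2 hx
    have d2 := ENNReal.add_lt_add (d1 _ c1) (d1 _ c2)
    rw [← ENNReal.ofReal_add (by positivity) (by positivity), add_halves] at d2
    exact absurd (hω.trans hle) (not_le.2 d2)
  · have t1 := (h2 (ε / 2) (by positivity)).add (h2' (ε / 2) (by positivity))
    rw [add_zero] at t1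
    refine tendsto_of_tendsto_of_tendsto_of_le_of_le tendsto_const_nhds t1
      (fun _ => zero_le) (fun n => ?_)
    refine iSup₂_le fun t ht => ?_
    have hsub : {ω | ε ≤ |sint W (H n ++ H' n) t ω - (M t ω + M' t ω)|} ⊆
        {ω | ε / 2 ≤ |sint W (H n) t ω - M t ω|} ∪ {ω | ε / 2 ≤ |sint W (H' n) t ω - M' t ω|} := by
      intro ω hω
      simp only [mem_setOf_eq, mem_union] at hω ⊢
      by_contra hcon
      push Not at hcon
      obtain ⟨c1, c2⟩ := hcon
      rw [sint_append10112] at hω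
      have e : sint W (H n) t ω + sint W (H' n) t ω - (M t ω + M' t ω) =
        (sint W (H n) t ω - M t ω) + (sint W (H' n) t ω - M' t ω) := by ring
      rw [e] at hω
      have := abs_add_le (sint W (H n) t ω - M t ω) (sint W (H' n) t ω - M' t ω)
      linarith
    refine (measure_mono hsub).trans ((measure_union_le _ _).trans ?_)
    exact add_le_add
      (le_iSup₂ (f := fun t (_ : t ∈ Icc (0 : ℝ) T) => P {ω | ε / 2 ≤ |sint W (H n) t ω - M t ω|})
        t ht)
      (le_iSup₂ (f := fun t (_ : t ∈ Icc (0 : ℝ) T) => P {ω | ε / 2 ≤ |sint W (H' n) t ω - M' t ω|})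
        t ht)

end Pool.Agent.Helper807.BS
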