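import Pool.Agent.Helper807.BS.Defs
import Pool.Agent.Helper807.BS.DAl

set_option autoImplicit false

namespace Pool.Agent.Helper807.BS

open MeasureTheory ProbabilityTheory Set Filter
open scoped NNReal ENNReal Topology

universe u

variable {Ω : Type u} [mΩ : MeasurableSpace Ω]

theorem Al0_anti (T : ℝ) (W : Fin 2 → ℝ → Ω → ℝ) (idx : ℕ → Fin 2) :
    Antitone (Al0 T W idx) := by
  intro a b hab ω hω m hm
  exact hω m (lt_of_lt_of_le hm hab)

theorem Al_anti (T : ℝ) (W : Fin 2 → ℝ → Ω → ℝ) (idx : ℕ → Fin 2) :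
    Antitone (Al T W idx) := by
  intro a b hab
  exact diff_subset_diff_left (Al0_anti T W idx hab)

theorem exists_not_mem_Al (T : ℝ) (W : Fin 2 → ℝ → Ω → ℝ) (idx : ℕ → Fin 2) (ω : Ω) :
    ∃ k, ω ∉ Al T W idx k := by
  by_contra h
  push Not at h
  exact (h 0).2 (mem_iInter.2 fun k => (h k).1)

theorem Al_succ_iff (T : ℝ) (W : Fin 2 → ℝ → Ω → ℝ) (idx : ℕ → Fin 2) (n : ℕ) (ω : Ω) :
    ω ∈ Al T W idx (n + 1) ↔ ω ∈ Al T W idx n ∧
      0 < W (idx n) (tt T (n + 1)) ω - W (idx n) (tt T n) ω := by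
  constructor
  · rintro ⟨h1, h2⟩
    exact ⟨⟨Al0_anti T W idx (Nat.le_succ n) h1, h2⟩, h1 n (Nat.lt_succ_self n)⟩
  · rintro ⟨⟨h1, h2⟩, h3⟩
    refine ⟨fun m hm => ?_, h2⟩
    rcases Nat.lt_succ_iff_lt_or_eq.1 hm with h | h
    · exact h1 m h
    · subst h; exact h3

end Pool.Agent.Helper807.BS
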