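import Pool.Agent.Helper807.BS.Defs
import Pool.Agent.Helper807.BS.DAl

set_option autoImplicit false

namespace Pool.Agent.Helper807.BS

open MeasureTheory ProbabilityTheory Set Filter
open scoped NNReal ENNReal Topology

universe u

variable {Ω : Type u} [mΩ : MeasurableSpace Ω]

theorem tt_zero (T : ℝ) : tt T 0 = 0 := by
  unfold tt
  rw [pow_zero, sub_self, mul_zero]

theorem tt_lt_succ (T : ℝ) (hT : 0 < T) (n : ℕ) : tt T n < tt T (n + 1) := by
  unfold tt
  apply mul_lt_mul_of_pos_left _ hT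
  have h1 : (0 : ℝ) < (1 / 2) ^ n := by positivity
  rw [pow_succ]
  linarith

theorem tt_mono (T : ℝ) (hT : 0 < T) : Monotone (tt T) := by
  exact monotone_nat_of_le_succ fun n => (tt_lt_succ T hT n).le

theorem tt_nonneg (T : ℝ) (hT : 0 < T) (n : ℕ) : 0 ≤ tt T n := by
  rw [← tt_zero T]
  exact tt_mono T hT (Nat.zero_le n)

theorem tt_lt (T : ℝ) (hT : 0 < T) (n : ℕ) : tt T n < T := by
  unfold tt
  have h1 : (0 : ℝ) < (1 / 2) ^ n := by positivity
  have h2 : T * (1 - (1 / 2) ^ n) < T * 1 := mul_lt_mul_of_pos_left (by linarith) hT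
  rwa [mul_one] at h2

end Pool.Agent.Helper807.BS
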