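import Pool.Agent.Helper807.BS.Defs
import Pool.Agent.Helper807.BS.DAl
import Pool.Agent.Helper807.BS.LTt

set_option autoImplicit false

namespace Pool.Agent.Helper807.BS

open MeasureTheory ProbabilityTheory Set Filter
open scoped NNReal ENNReal Topology

universe u

variable {Ω : Type u} [mΩ : MeasurableSpace Ω]

theorem al_gauss (v : ℝ≥0) (hv : v ≠ 0) : gaussianReal 0 v (Ioi 0) = 1 / 2 := by
  have hna := noAtoms_gaussianReal (μ := 0) hv
  have h0 : gaussianReal 0 v {(0 : ℝ)} = 0 := measure_singleton 0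
  have hneg : gaussianReal 0 v (Iio 0) = gaussianReal 0 v (Ioi 0) := by
    have h := gaussianReal_map_neg (μ := 0) (v := v)
    rw [neg_zero] at h
    conv_lhs => rw [← h]
    rw [Measure.map_apply measurable_neg measurableSet_Iio]
    congr 1
    ext x
    simp
  have huniv : gaussianReal 0 v univ = 1 := measure_univ
  have hsplit : (univ : Set ℝ) = Iio 0 ∪ ({0} ∪ Ioi 0) := by
    ext x
    simp only [mem_univ, mem_union, mem_Iio, mem_singleton_iff, mem_Ioi, true_iff]
    rcases lt_trichotomy x 0 with h | h | h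
    · exact Or.inl h
    · exact Or.inr (Or.inl h)
    · exact Or.inr (Or.inr h)
  rw [hsplit, measure_union, measure_union, h0, zero_add, hneg] at huniv
  · rw [← two_mul] at huniv
    rw [ENNReal.eq_div_iff (by norm_num) (by norm_num)]
    exact huniv
  · simp
  · exact measurableSet_Ioi
  · rw [Set.disjoint_left]
    intro x hx hx'
    simp only [mem_Iio, mem_union, mem_singleton_iff, mem_Ioi] at hx hx'
    rcases hx' with h | h
    · linarith
    · linarith
  · exact (measurableSet_singleton 0).union measurableSet_Ioi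

theorem al_meas (P : Measure Ω) [IsProbabilityMeasure P] (F : ℝ → MeasurableSpace Ω)
    (W : Fin 2 → ℝ → Ω → ℝ) (hW : CBM P F W) (i : Fin 2) (a b : ℝ) (ha : 0 ≤ a)
    (hab : a ≤ b) : Measurable[F b, borel ℝ] (fun ω => W i b ω - W i a ω) := by
  have h1 : Measurable[F b, borel ℝ] (W i b) := hW.adapted i b (ha.trans hab)
  have h2 : Measurable[F b, borel ℝ] (W i a) := (hW.adapted i a ha).mono (hW.mono a b hab) le_rfl
  exact @Measurable.sub ℝ Ω (borel ℝ) _ (F b) _ _ (inferInstanceAs (MeasurableSub₂ ℝ)) h1 h2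

theorem P_Al0 (P : Measure Ω) [IsProbabilityMeasure P] (F : ℝ → MeasurableSpace Ω)
    (W : Fin 2 → ℝ → Ω → ℝ) (hW : CBM P F W) (T : ℝ) (hT : 0 < T) (idx : ℕ → Fin 2) (n : ℕ) :
    MeasurableSet[F (tt T n)] (Al0 T W idx n) ∧ P (Al0 T W idx n) = (1 / 2) ^ n := by
  induction n with
  | zero =>
    have : Al0 T W idx 0 = univ := by
      ext ω; simp [Al0]
    rw [this]
    exact ⟨@MeasurableSet.univ Ω (F (tt T 0)), by simp⟩
  | succ n ih =>
    obtain ⟨ihm, ihP⟩ := ih
    have hlt := tt_lt_succ T hT n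
    have hnn := tt_nonneg T hT n
    have hset : Al0 T W idx (n + 1) = Al0 T W idx n ∩
        (fun ω => W (idx n) (tt T (n + 1)) ω - W (idx n) (tt T n) ω) ⁻¹' (Ioi 0) := by
      ext ω
      simp only [Al0, mem_setOf_eq, mem_inter_iff, mem_preimage, mem_Ioi]
      constructor
      · intro h
        exact ⟨fun m hm => h m (by omega), h n (by omega)⟩
      · rintro ⟨h1, h2⟩ m hm
        rcases Nat.lt_succ_iff_lt_or_eq.1 hm with h | h
        · exact h1 m h
        · rw [h]; exact h2
    have hIoi : MeasurableSet[borel ℝ] (Ioi (0 : ℝ)) := by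
      rw [← BorelSpace.measurable_eq (α := ℝ)]
      exact measurableSet_Ioi
    rw [hset]
    constructor
    · refine @MeasurableSet.inter Ω (F (tt T (n + 1))) _ _ (hW.mono _ _ hlt.le _ ihm) ?_
      exact (al_meas P F W hW (idx n) _ _ hnn hlt.le) hIoi
    · have hind := hW.indep (idx n) (tt T n) (tt T (n + 1)) hnn hlt.le
      rw [Indep_iff] at hind
      rw [hind _ _ ihm ⟨Ioi 0, hIoi, rfl⟩, ihP, pow_succ]
      congr 1
      have hlaw := hW.gauss (idx n) (tt T n) (tt T (n + 1)) hnn hlt.le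
      have hv : (tt T (n + 1) - tt T n).toNNReal ≠ 0 := by
        rw [Ne, Real.toNNReal_eq_zero, not_le]
        linarith
      rw [← al_gauss _ hv, ← hlaw.map_eq, Measure.map_apply_of_aemeasurable hlaw.aemeasurable
        measurableSet_Ioi]

theorem increment_ne_zero (P : Measure Ω) [IsProbabilityMeasure P] (F : ℝ → MeasurableSpace Ω)
    (W : Fin 2 → ℝ → Ω → ℝ) (hW : CBM P F W) (i : Fin 2) (a b : ℝ) (ha : 0 ≤ a)
    (hab : a < b) : ∀ᵐ ω ∂P, W i b ω - W i a ω ≠ 0 := by
  have hlaw := hW.gauss i a b ha hab.le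
  have hv : (b - a).toNNReal ≠ 0 := by
    rw [Ne, Real.toNNReal_eq_zero, not_le]
    linarith
  have hna := noAtoms_gaussianReal (μ := 0) hv
  rw [ae_iff]
  have h : P ((fun ω => W i b ω - W i a ω) ⁻¹' {0}) = 0 := by
    rw [← Measure.map_apply_of_aemeasurable hlaw.aemeasurable (measurableSet_singleton 0),
      hlaw.map_eq]
    exact measure_singleton 0
  convert h using 2
  ext ω
  simp

end Pool.Agent.Helper807.BS
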