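import Pool.Agent.Helper807.BS.Defs
import Pool.Agent.Helper807.BS.DAl
import Pool.Agent.Helper807.BS.LTt
import Pool.Agent.Helper807.BS.LAl2

set_option autoImplicit false

namespace Pool.Agent.Helper807.BS

open MeasureTheory ProbabilityTheory Set Filter
open scoped NNReal ENNReal Topology

universe u

variable {Ω : Type u} [mΩ : MeasurableSpace Ω]

theorem Al_facts (P : Measure Ω) [IsProbabilityMeasure P] (F : ℝ → MeasurableSpace Ω)
    (W : Fin 2 → ℝ → Ω → ℝ) (hW : CBM P F W) (T : ℝ) (hT : 0 < T) (idx : ℕ → Fin 2) :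
    (∀ n, MeasurableSet[F (tt T n)] (Al T W idx n)) ∧
    (∀ n, P (Al T W idx n) ≤ (1 / 2) ^ n) ∧ (∀ᵐ ω ∂P, ω ∈ Al T W idx 0) := by
  have hm : MeasurableSet (⋂ k, Al0 T W idx k) :=
    MeasurableSet.iInter fun k => hW.le _ _ (P_Al0 P F W hW T hT idx k).1
  have h0 : P (⋂ k, Al0 T W idx k) = 0 := by
    have h1 : ∀ k : ℕ, P (⋂ k, Al0 T W idx k) ≤ (1 / 2 : ℝ≥0∞) ^ k := by
      intro k
      rw [← (P_Al0 P F W hW T hT idx k).2]
      exact measure_mono (iInter_subset _ k)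
    have h2 : Tendsto (fun k : ℕ => (1 / 2 : ℝ≥0∞) ^ k) atTop (𝓝 0) := by
      apply ENNReal.tendsto_pow_atTop_nhds_zero_of_lt_one
      rw [one_div]
      exact ENNReal.one_half_lt_one
    have h3 := ge_of_tendsto' h2 h1
    exact le_antisymm h3 bot_le
  have h4 : MeasurableSet[F 0] (⋂ k, Al0 T W idx k) := hW.null _ hm h0
  refine ⟨fun n => ?_, fun n => ?_, ?_⟩
  · have h5 : MeasurableSet[F (tt T n)] (⋂ k, Al0 T W idx k) :=
      hW.mono 0 (tt T n) (tt_nonneg T hT n) _ h4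
    exact MeasurableSet.diff (P_Al0 P F W hW T hT idx n).1 h5
  · rw [← (P_Al0 P F W hW T hT idx n).2]
    exact measure_mono sdiff_subset
  · have h6 : ∀ᵐ ω ∂P, ω ∉ ⋂ k, Al0 T W idx k := measure_eq_zero_iff_ae_notMem.1 h0
    filter_upwards [h6] with ω hω
    refine ⟨?_, hω⟩
    intro m hm
    exact absurd hm (Nat.not_lt_zero m)

end Pool.Agent.Helper807.BS
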