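import Pool.Agent.Helper807.BS.Defs
import Pool.Agent.Helper807.BS.DProc
import Pool.Agent.Helper807.BS.LAl1
import Pool.Agent.Helper807.BS.LTt

set_option autoImplicit false

namespace Pool.Agent.Helper807.BS

open MeasureTheory ProbabilityTheory Set Filter
open scoped NNReal ENNReal Topology

universe u

variable {Ω : Type u} [mΩ : MeasurableSpace Ω]

theorem Yn_dead (T : ℝ) (W : Fin 2 → ℝ → Ω → ℝ) (idx : ℕ → Fin 2) (lam : Fin 2 → ℝ)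
    (v y : ℕ → ℝ) (k : ℕ) (ω : Ω) (hk : ω ∉ Al T W idx k) (t : ℝ) (n : ℕ) (hn : k ≤ n) :
    Yn T W idx lam v y n t ω = 0 := by
  unfold Yn
  exact Set.indicator_of_notMem (fun h => hk (Al_anti T W idx hn h)) _

theorem Zn_dead (T : ℝ) (W : Fin 2 → ℝ → Ω → ℝ) (idx : ℕ → Fin 2) (lam : Fin 2 → ℝ)
    (v y : ℕ → ℝ) (k : ℕ) (ω : Ω) (hk : ω ∉ Al T W idx k) (i : Fin 2) (t : ℝ) (n : ℕ)
    (hn : k ≤ n) :
    Zn T W idx lam v y n i t ω = 0 := by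
  unfold Zn
  split_ifs
  · exact Set.indicator_of_notMem (fun h => hk (Al_anti T W idx hn h)) _
  · rfl

theorem Mn_dead (T : ℝ) (W : Fin 2 → ℝ → Ω → ℝ) (idx : ℕ → Fin 2) (lam : Fin 2 → ℝ)
    (v y : ℕ → ℝ) (k : ℕ) (ω : Ω) (hk : ω ∉ Al T W idx k) (t : ℝ) (n : ℕ) (hn : k ≤ n) :
    Mn T W idx lam v y n t ω = 0 := by
  unfold Mn
  exact Set.indicator_of_notMem (fun h => hk (Al_anti T W idx hn h)) _

theorem Yp_eq (T : ℝ) (W : Fin 2 → ℝ → Ω → ℝ) (idx : ℕ → Fin 2) (lam : Fin 2 → ℝ)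
    (v y : ℕ → ℝ) (k : ℕ) (ω : Ω) (hk : ω ∉ Al T W idx k) (t : ℝ) :
    Yp T W idx lam v y t ω = y 0 + ∑ n ∈ Finset.range k, Yn T W idx lam v y n t ω := by
  unfold Yp
  rw [tsum_eq_sum (s := Finset.range k)]
  intro n hn
  exact Yn_dead T W idx lam v y k ω hk t n (by simpa using hn)

theorem Zp_eq (T : ℝ) (W : Fin 2 → ℝ → Ω → ℝ) (idx : ℕ → Fin 2) (lam : Fin 2 → ℝ)
    (v y : ℕ → ℝ) (k : ℕ) (ω : Ω) (hk : ω ∉ Al T W idx k) (i : Fin 2) (t : ℝ) :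
    Zp T W idx lam v y i t ω = ∑ n ∈ Finset.range k, Zn T W idx lam v y n i t ω := by
  unfold Zp
  rw [tsum_eq_sum (s := Finset.range k)]
  intro n hn
  exact Zn_dead T W idx lam v y k ω hk i t n (by simpa using hn)

theorem Mp_eq (T : ℝ) (W : Fin 2 → ℝ → Ω → ℝ) (idx : ℕ → Fin 2) (lam : Fin 2 → ℝ)
    (v y : ℕ → ℝ) (k : ℕ) (ω : Ω) (hk : ω ∉ Al T W idx k) (t : ℝ) :
    Mp T W idx lam v y t ω = ∑ n ∈ Finset.range k, Mn T W idx lam v y n t ω := by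
  unfold Mp
  rw [tsum_eq_sum (s := Finset.range k)]
  intro n hn
  exact Mn_dead T W idx lam v y k ω hk t n (by simpa using hn)

theorem Yp_zero (T : ℝ) (hT : 0 < T) (W : Fin 2 → ℝ → Ω → ℝ) (idx : ℕ → Fin 2)
    (lam : Fin 2 → ℝ) (v y : ℕ → ℝ) (ω : Ω) : Yp T W idx lam v y 0 ω = y 0 := by
  unfold Yp
  have h : ∀ n, Yn T W idx lam v y n 0 ω = 0 := by
    intro n
    have hu : ∀ ω : Ω, ust (lam (idx n)) (y n) (y (n + 1)) (v n) (tt T n)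
        (tt T (n + 1)) (fun s => W (idx n) s ω) 0 - y n = 0 := by
      intro ω
      unfold ust
      rw [if_pos (tt_nonneg T hT n), sub_self]
    unfold Yn
    by_cases hm : ω ∈ Al T W idx n
    · rw [Set.indicator_of_mem hm]
      exact hu ω
    · rw [Set.indicator_of_notMem hm]
  simp only [h, tsum_zero, add_zero]

end Pool.Agent.Helper807.BS
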