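import Pool.Agent.Helper807.BS.Defs
import Pool.Agent.Helper807.BS.DSt
import Pool.Agent.Helper807.BS.LPhi1
import Pool.Agent.Helper807.BS.LPhi2
import Pool.Agent.Helper807.BS.LG1

set_option autoImplicit false

namespace Pool.Agent.Helper807.BS

open MeasureTheory ProbabilityTheory Set Filter
open scoped NNReal ENNReal Topology

universe u

variable {Ω : Type u} [mΩ : MeasurableSpace Ω]

theorem st_bounds (l y v b c : ℝ) (hc : c < b) :
    ∃ K : ℝ, ∀ t, t ≤ c → ∀ x, |stt l y v b t x| ≤ K ∧ |stx l y v b t x| ≤ K ∧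
      |stxx l y v b t x| ≤ K := by
  obtain ⟨C, hC, hG⟩ := abs_Gd_le l y v
  have hm : 0 < b - c := by linarith
  have hsm : 0 < √(b - c) := Real.sqrt_pos.2 hm
  refine ⟨C / (2 * (b - c)) + C / √(b - c) + (|l| * C ^ 2 + C) / (b - c), fun t ht x => ?_⟩
  have hbt : b - c ≤ b - t := by linarith
  have hbt0 : 0 < b - t := by linarith
  have hsq : √(b - c) ≤ √(b - t) := Real.sqrt_le_sqrt hbt
  have hsq0 : 0 < √(b - t) := Real.sqrt_pos.2 hbt0
  have k1 : 0 ≤ C / (2 * (b - c)) := by positivity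
  have k2 : 0 ≤ C / √(b - c) := by positivity
  have k3 : 0 ≤ (|l| * C ^ 2 + C) / (b - c) := by positivity
  unfold stt stx stxx
  generalize hz : x / √(b - t) = z
  have hPhi := Phi_mem z
  have hGz := hG (Phi z) ⟨hPhi.1.le, hPhi.2.le⟩
  generalize Gd l y v (Phi z) = g at hGz
  have hφ := phi_pos z
  obtain ⟨b1, b2, b3⟩ := phi_bounds z
  generalize phi z = f at hφ b1 b2 b3
  have e2 : |z * f| ≤ 1 := by rw [abs_mul, abs_of_pos hφ]; exact b2
  have e3 : |g * (z * f)| ≤ C := by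
    rw [abs_mul]
    calc |g| * |z * f| ≤ C * 1 := mul_le_mul hGz e2 (abs_nonneg _) hC.le
      _ = C := mul_one C
  have e4 : |g * f| ≤ C := by
    rw [abs_mul, abs_of_pos hφ]
    calc |g| * f ≤ C * 1 := mul_le_mul hGz b1 hφ.le hC.le
      _ = C := mul_one C
  have e5 : |-l * g ^ 2 * f ^ 2| ≤ |l| * C ^ 2 := by
    have h1 : -l * g ^ 2 * f ^ 2 = -l * (g * f) ^ 2 := by ring
    rw [h1, abs_mul, abs_neg, abs_pow]
    exact mul_le_mul_of_nonneg_left (pow_le_pow_left₀ (abs_nonneg _) e4 2) (abs_nonneg _)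
  refine ⟨?_, ?_, ?_⟩
  · have h1 : |g * (z * f) / (2 * (b - t))| ≤ C / (2 * (b - c)) := by
      rw [abs_div, abs_of_pos (by linarith : 0 < 2 * (b - t))]
      exact div_le_div₀ hC.le e3 (by linarith) (by linarith)
    linarith
  · have h1 : |g * f / √(b - t)| ≤ C / √(b - c) := by
      rw [abs_div, abs_of_pos hsq0]
      exact div_le_div₀ hC.le e4 hsm hsq
    linarith
  · have h1 : |(-l * g ^ 2 * f ^ 2 - g * (z * f)) / (b - t)| ≤ (|l| * C ^ 2 + C) / (b - c) := by
      rw [abs_div, abs_of_pos hbt0]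
      refine div_le_div₀ (by positivity) ?_ hm hbt
      exact (abs_sub _ _).trans (add_le_add e5 e3)
    linarith

theorem abs_stu_le (l y v b t x : ℝ) : |stu l y v b t x| ≤ max |y| |v| := by
  have h := Phi_mem (x / √(b - t))
  exact abs_Gf_le l y v _ ⟨h.1.le, h.2.le⟩

theorem stu_start (l y v b a : ℝ) : stu l y v b a 0 = Gf l y v (1 / 2) := by
  unfold stu
  rw [zero_div, Phi_zero]

end Pool.Agent.Helper807.BS
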