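import Pool.Agent.Helper807.BS.Defs
import Pool.Agent.Helper807.BS.DProc
import Pool.Agent.Helper807.BS.LAl1
import Pool.Agent.Helper807.BS.LTt
import Pool.Agent.Helper807.BS.LSt3
import Pool.Agent.Helper807.BS.LFin

set_option autoImplicit false

namespace Pool.Agent.Helper807.BS

open MeasureTheory ProbabilityTheory Set Filter
open scoped NNReal ENNReal Topology

universe u

variable {Ω : Type u} [mΩ : MeasurableSpace Ω]

theorem Yp_bound_aux (T : ℝ) (hT : 0 < T) (W : Fin 2 → ℝ → Ω → ℝ) (idx : ℕ → Fin 2)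
    (lam : Fin 2 → ℝ) (v y : ℕ → ℝ) (m : ℝ) (hm : 0 ≤ m) (t : ℝ) (ω : Ω) (j : ℕ) :
    (ω ∈ Al T W idx j → tt T j ≤ t →
      y 0 + ∑ n ∈ Finset.range j, Yn T W idx lam v y n t ω = y j) ∧
    Real.exp (m * |y 0 + ∑ n ∈ Finset.range j, Yn T W idx lam v y n t ω|) ≤
      Real.exp (m * |y 0|) + ∑ n ∈ Finset.range j, (Al T W idx n).indicator
        (fun _ => Real.exp (m * max (max |y n| |y (n + 1)|) |v n|)) ω := by
  induction j with
  | zero => simp
  | succ j ih =>
    obtain ⟨ih1, ih2⟩ := ih
    rw [Finset.sum_range_succ, Finset.sum_range_succ, ← add_assoc, ← add_assoc]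
    obtain ⟨S, hS⟩ : ∃ S, S = y 0 + ∑ n ∈ Finset.range j, Yn T W idx lam v y n t ω := ⟨_, rfl⟩
    obtain ⟨R, hR⟩ : ∃ R, R = Real.exp (m * |y 0|) + ∑ n ∈ Finset.range j,
      (Al T W idx n).indicator
        (fun _ => Real.exp (m * max (max |y n| |y (n + 1)|) |v n|)) ω := ⟨_, rfl⟩
    rw [← hS] at ih1 ih2 ⊢
    rw [← hR] at ih2 ⊢
    have hR0 : 0 ≤ R := le_trans (Real.exp_pos _).le ih2
    by_cases hA : ω ∈ Al T W idx j
    · have hY : Yn T W idx lam v y j t ω = ust (lam (idx j)) (y j) (y (j + 1)) (v j) (tt T j)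
          (tt T (j + 1)) (fun s => W (idx j) s ω) t - y j := by
        unfold Yn
        rw [Set.indicator_of_mem hA]
      rw [hY, Set.indicator_of_mem hA]
      by_cases ht : t ≤ tt T j
      · have hu : ust (lam (idx j)) (y j) (y (j + 1)) (v j) (tt T j)
          (tt T (j + 1)) (fun s => W (idx j) s ω) t = y j := by
          unfold ust
          rw [if_pos ht]
        rw [hu, sub_self, add_zero]
        refine ⟨fun _ h2 => ?_, ?_⟩
        · have := tt_lt_succ T hT j
          linarith
        · have := Real.exp_pos (m * max (max |y j| |y (j + 1)|) |v j|)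
          linarith
      · push Not at ht
        rw [ih1 hA ht.le, add_sub_cancel]
        have hK1 : |y (j + 1)| ≤ max (max |y j| |y (j + 1)|) |v j| :=
          (le_max_right _ _).trans (le_max_left _ _)
        have hK2 : |v j| ≤ max (max |y j| |y (j + 1)|) |v j| := le_max_right _ _
        refine ⟨fun h1 h2 => ?_, ?_⟩
        · obtain ⟨-, h3⟩ := (Al_succ_iff T W idx j ω).mp h1
          unfold ust
          rw [if_neg (not_le.mpr ht), if_neg (not_lt.mpr h2), if_pos h3]
        · have hle : |ust (lam (idx j)) (y j) (y (j + 1)) (v j) (tt T j)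
            (tt T (j + 1)) (fun s => W (idx j) s ω) t| ≤
              max (max |y j| |y (j + 1)|) |v j| := by
            unfold ust
            rw [if_neg (not_le.mpr ht)]
            split_ifs
            · exact (abs_stu_le _ _ _ _ _ _).trans (max_le hK1 hK2)
            · exact hK1
            · exact hK2
          have h4 := Real.exp_le_exp.mpr (mul_le_mul_of_nonneg_left hle hm)
          linarith
    · have hY : Yn T W idx lam v y j t ω = 0 := by
        unfold Yn
        rw [Set.indicator_of_notMem hA]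
      rw [hY, Set.indicator_of_notMem hA, add_zero, add_zero]
      refine ⟨fun h1 _ => ?_, ih2⟩
      exact absurd ((Al_succ_iff T W idx j ω).mp h1).1 hA

/-- bound for `Y`: pathwise domination -/
theorem Yp_bound (T : ℝ) (hT : 0 < T) (W : Fin 2 → ℝ → Ω → ℝ) (idx : ℕ → Fin 2)
    (lam : Fin 2 → ℝ) (v y : ℕ → ℝ) (m : ℝ) (hm : 0 ≤ m) (t : ℝ) (ω : Ω) :
    Real.exp (m * |Yp T W idx lam v y t ω|) ≤ Real.exp (m * |y 0|) +
      ∑' n, (Al T W idx n).indicator
        (fun _ => Real.exp (m * max (max |y n| |y (n + 1)|) |v n|)) ω := by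
  obtain ⟨k, hk⟩ := exists_not_mem_Al T W idx ω
  rw [Yp_eq T W idx lam v y k ω hk t]
  have hts : ∑' n, (Al T W idx n).indicator
        (fun _ => Real.exp (m * max (max |y n| |y (n + 1)|) |v n|)) ω =
      ∑ n ∈ Finset.range k, (Al T W idx n).indicator
        (fun _ => Real.exp (m * max (max |y n| |y (n + 1)|) |v n|)) ω := by
    apply tsum_eq_sum
    intro n hn
    apply Set.indicator_of_notMem
    intro hmem
    apply hk
    apply Al_anti T W idx _ hmem
    simpa using hn
  rw [hts]
  exact (Yp_bound_aux T hT W idx lam v y m hm t ω k).2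

end Pool.Agent.Helper807.BS
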