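import Pool.Agent.Helper807.BS.Defs
import Pool.Agent.Helper807.BS.LCbmex
import Pool.Agent.Helper807.BS.LAl2
import Pool.Agent.Helper807.BS.LTt

set_option autoImplicit false

namespace Pool.Agent.Helper807.BS

open MeasureTheory ProbabilityTheory Set Filter
open scoped NNReal ENNReal Topology

universe u

variable {Ω : Type u} [mΩ : MeasurableSpace Ω]

/-- a Brownian motion may be replaced by a fixed continuous path on a null set -/
theorem cbm_modify (P : Measure Ω) [IsProbabilityMeasure P] (F : ℝ → MeasurableSpace Ω)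
    (W : Fin 2 → ℝ → Ω → ℝ) (hW : CBM P F W) (N : Set Ω) (hN : MeasurableSet[mΩ] N) (hP : P N = 0)
    (w : ℝ → ℝ) (hw : Continuous w) (W' : Fin 2 → ℝ → Ω → ℝ)
    (h1 : ∀ i t ω, ω ∈ N → W' i t ω = w t) (h2 : ∀ i t ω, ω ∉ N → W' i t ω = W i t ω) :
    CBM P F W' ∧ ∀ i (t : ℝ), ∀ᵐ ω ∂P, W' i t ω = W i t ω := by
  classical
  have hae : ∀ i t, ∀ᵐ ω ∂P, W' i t ω = W i t ω := by
    intro i t
    filter_upwards [measure_eq_zero_iff_ae_notMem.1 hP] with ω hω using h2 i t ω hω
  have hincr : ∀ i s t, (fun ω => W' i t ω - W' i s ω) =ᵐ[P] (fun ω => W i t ω - W i s ω) := by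
    intro i s t
    filter_upwards [hae i s, hae i t] with ω e1 e2
    rw [e1, e2]
  have heq : ∀ i t, W' i t = fun ω => if ω ∈ N then w t else W i t ω := by
    intro i t
    funext ω
    by_cases hω : ω ∈ N
    · rw [if_pos hω, h1 i t ω hω]
    · rw [if_neg hω, h2 i t ω hω]
  refine ⟨⟨hW.mono, hW.le, ?_, ?_, ?_, ?_, hW.null⟩, hae⟩
  · intro i t ht
    rw [heq]
    refine Measurable.ite ?_ measurable_const (hW.adapted i t ht)
    exact hW.mono 0 t ht N (hW.null N hN hP)
  · intro i ω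
    by_cases hω : ω ∈ N
    · have : (fun t => W' i t ω) = w := by funext t; exact h1 i t ω hω
      rw [this]; exact hw
    · have : (fun t => W' i t ω) = fun t => W i t ω := by funext t; exact h2 i t ω hω
      rw [this]; exact hW.cont i ω
  · intro i s t hs hst
    exact (hW.gauss i s t hs hst).congr (hincr i s t)
  · intro i s t hs hst
    have h1 := hW.indep i s t hs hst
    rw [Indep_iff] at h1 ⊢
    rintro t1 _ ht1 ⟨C, hC, rfl⟩
    have h2 := h1 t1 ((fun ω => W i t ω - W i s ω) ⁻¹' C) ht1 ⟨C, hC, rfl⟩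
    have h3 : ((fun ω => W' i t ω - W' i s ω) ⁻¹' C : Set Ω) =ᵐ[P]
        ((fun ω => W i t ω - W i s ω) ⁻¹' C : Set Ω) := by
      filter_upwards [hincr i s t] with ω hω
      apply propext
      show (W' i t ω - W' i s ω) ∈ C ↔ (W i t ω - W i s ω) ∈ C
      have : W' i t ω - W' i s ω = W i t ω - W i s ω := hω
      rw [this]
    rw [measure_congr h3, ← h2]
    exact measure_congr ((ae_eq_refl t1).inter h3)

/-- a version of the Brownian motion all of whose stage increments are nonzero -/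
theorem exists_cbm_good (P : Measure Ω) [IsProbabilityMeasure P] (B : Fin 2 → ℝ≥0 → Ω → ℝ)
    (hB : IsBM2 B P) (T : ℝ) (hT : 0 < T) (idx : ℕ → Fin 2) :
    ∃ W : Fin 2 → ℝ → Ω → ℝ, CBM P (Fil B P) W ∧
      (∀ i (t : ℝ), ∀ᵐ ω ∂P, W i t ω = bt B i t ω) ∧
      ∀ ω n, W (idx n) (tt T (n + 1)) ω - W (idx n) (tt T n) ω ≠ 0 := by
  classical
  obtain ⟨W, hW, hWB⟩ := exists_cbm P B hB
  let N : Set Ω := {ω | ∃ n, W (idx n) (tt T (n + 1)) ω - W (idx n) (tt T n) ω = 0}
  have hm : ∀ i t, 0 ≤ t → Measurable (W i t) := fun i t ht =>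
    (hW.adapted i t ht).mono (hW.le t) le_rfl
  have hN : MeasurableSet[mΩ] N := by
    have : N = ⋃ n, {ω | W (idx n) (tt T (n + 1)) ω - W (idx n) (tt T n) ω = 0} := by
      ext ω; simp [N]
    rw [this]
    refine MeasurableSet.iUnion fun n => ?_
    exact ((hm (idx n) _ (tt_nonneg T hT (n + 1))).sub (hm (idx n) _ (tt_nonneg T hT n)))
      (measurableSet_singleton 0)
  have hP : P N = 0 := by
    have hne : ∀ᵐ ω ∂P, ∀ n, W (idx n) (tt T (n + 1)) ω - W (idx n) (tt T n) ω ≠ 0 :=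
      ae_all_iff.2 fun n => increment_ne_zero P _ W hW (idx n) _ _ (tt_nonneg T hT n)
        (tt_lt_succ T hT n)
    rw [measure_eq_zero_iff_ae_notMem]
    filter_upwards [hne] with ω hω
    rintro ⟨n, hn⟩
    exact hω n hn
  obtain ⟨h1, h2⟩ := cbm_modify P (Fil B P) W hW N hN hP (fun t => -t) continuous_neg
    (fun i t ω => if ω ∈ N then -t else W i t ω) (fun i t ω h => if_pos h)
    (fun i t ω h => if_neg h)
  refine ⟨_, h1, ?_, ?_⟩
  · intro i t
    filter_upwards [h2 i t, hWB i t] with ω e1 e2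
    rw [e1, e2]
  · intro ω n
    by_cases hω : ω ∈ N
    · simp only [if_pos hω]
      have := tt_lt_succ T hT n
      intro h
      linarith
    · simp only [if_neg hω]
      exact fun h => hω ⟨n, h⟩

end Pool.Agent.Helper807.BS
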