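import Pool.Agent.Helper807.BS.Defs

set_option autoImplicit false

namespace Pool.Agent.Helper807.BS

open MeasureTheory ProbabilityTheory Set Filter
open scoped NNReal ENNReal Topology

universe u

variable {Ω : Type u} [mΩ : MeasurableSpace Ω]

theorem stop_measurable (F : ℝ → MeasurableSpace Ω) (hmono : ∀ s t, s ≤ t → F s ≤ F t)
    (T : ℝ) (hT : 0 ≤ T) (τ : Ω → ℝ) (hτ : IsStop T F τ) : Measurable[F T, borel ℝ] τ := by
  have h0 : ∀ x : ℝ, MeasurableSet[F T] (τ ⁻¹' Iic x) := by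
    intro x
    rcases lt_or_ge x 0 with hx | hx
    · have h1 : τ ⁻¹' Iic x = ∅ := by
        ext ω
        simp only [mem_preimage, mem_Iic, mem_empty_iff_false, iff_false, not_le]
        exact lt_of_lt_of_le hx (hτ.1 ω).1
      rw [h1]
      exact @MeasurableSet.empty Ω (F T)
    rcases le_or_gt x T with hxT | hxT
    · exact hmono x T hxT _ (hτ.2 x ⟨hx, hxT⟩)
    · have h1 : τ ⁻¹' Iic x = univ := by
        ext ω
        simp only [mem_preimage, mem_Iic, mem_univ, iff_true]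
        exact (hτ.1 ω).2.trans hxT.le
      rw [h1]
      exact @MeasurableSet.univ Ω (F T)
  have h2 : @Measurable Ω ℝ (F T) inferInstance τ :=
    @measurable_of_Iic ℝ Ω _ _ _ (F T) _ _ _ τ h0
  have h3 : (inferInstance : MeasurableSpace ℝ) = borel ℝ := BorelSpace.measurable_eq
  rw [← h3]
  exact h2

theorem sample_measurable (F : ℝ → MeasurableSpace Ω) (hF : ∀ t, F t ≤ mΩ)
    (hmono : ∀ s t, s ≤ t → F s ≤ F t)
    (T : ℝ) (hT : 0 ≤ T) (X : ℝ → Ω → ℝ) (hX : Prog T F X) (τ : Ω → ℝ) (hτ : IsStop T F τ) :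
    Measurable[mΩ, borel ℝ] (fun ω => X (τ ω) ω) := by
  have h1 := stop_measurable F hmono T hT τ hτ
  have h3 : (inferInstance : MeasurableSpace ℝ) = borel ℝ := BorelSpace.measurable_eq
  rw [← h3] at h1
  have h2 : @Measurable Ω (Icc (0 : ℝ) T) (F T) inferInstance (fun ω => ⟨τ ω, hτ.1 ω⟩) :=
    @Measurable.subtype_mk Ω ℝ (F T) _ _ τ h1 _
  have h4 : @Measurable Ω (Icc (0 : ℝ) T × Ω) (F T)
      ((inferInstance : MeasurableSpace (Icc (0 : ℝ) T)).prod (F T))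
      (fun ω => (⟨τ ω, hτ.1 ω⟩, ω)) :=
    @Measurable.prodMk Ω (F T) (Icc (0 : ℝ) T) Ω inferInstance (F T) _ _ h2
      (@measurable_id Ω (F T))
  have h5 := hX T ⟨hT, le_rfl⟩
  have h6 := @Measurable.comp _ _ _ (F T) _ (borel ℝ) _ _ h5 h4
  exact fun s hs => hF T _ (h6 hs)

theorem classD_of_dominated (P : Measure Ω) [IsProbabilityMeasure P]
    (F : ℝ → MeasurableSpace Ω) (hF : ∀ t, F t ≤ mΩ) (hmono : ∀ s t, s ≤ t → F s ≤ F t)
    (T : ℝ) (hT : 0 ≤ T) (X : ℝ → Ω → ℝ) (hX : Prog T F X) (S : Ω → ℝ) (hS : Integrable S P)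
    (hXS : ∀ t ∈ Icc (0 : ℝ) T, ∀ ω, |X t ω| ≤ S ω) : ClassD T P F X := by
  have hmem : MemLp S 1 P := memLp_one_iff_integrable.2 hS
  have hS0 : ∀ ω, 0 ≤ S ω := fun ω => (abs_nonneg _).trans (hXS 0 ⟨le_rfl, hT⟩ ω)
  have hle : ∀ (τ : {τ : Ω → ℝ // IsStop T F τ}) (ω : Ω), ‖X (τ.1 ω) ω‖ ≤ ‖S ω‖ := by
    intro τ ω
    rw [Real.norm_eq_abs, Real.norm_of_nonneg (hS0 ω)]
    exact hXS _ (τ.2.1 ω) ω
  have h3 : (inferInstance : MeasurableSpace ℝ) = borel ℝ := BorelSpace.measurable_eq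
  refine ⟨fun τ => ?_, ?_, ?_⟩
  · have h1 := sample_measurable F hF hmono T hT X hX τ.1 τ.2
    rw [← h3] at h1
    exact h1.aestronglyMeasurable
  · intro ε hε
    obtain ⟨δ, hδ, h⟩ := hmem.eLpNorm_indicator_le le_rfl ENNReal.one_ne_top hε
    refine ⟨δ, hδ, fun τ s hs hPs => (eLpNorm_mono fun ω => ?_).trans (h s hs hPs)⟩
    by_cases hω : ω ∈ s
    · rw [indicator_of_mem hω, indicator_of_mem hω]
      exact hle τ ω
    · rw [indicator_of_notMem hω, indicator_of_notMem hω]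
  · refine ⟨(eLpNorm S 1 P).toNNReal, fun τ => ?_⟩
    rw [ENNReal.coe_toNNReal hmem.eLpNorm_lt_top.ne]
    exact eLpNorm_mono (hle τ)

end Pool.Agent.Helper807.BS
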