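import Pool.Agent.Helper807.BS.Defs

set_option autoImplicit false

namespace Pool.Agent.Helper807.BS

open MeasureTheory ProbabilityTheory Set Filter
open scoped NNReal ENNReal Topology

universe u

variable {Ω : Type u} [mΩ : MeasurableSpace Ω]

theorem isIto_congr_sint (P : Measure Ω) (W W' : Fin 2 → ℝ → Ω → ℝ)
    (hWW : ∀ i (t : ℝ), 0 ≤ t → ∀ᵐ ω ∂P, W i t ω = W' i t ω) (t : ℝ) (ht : 0 ≤ t)
    (L : List (Blk Ω)) (hL : ∀ b ∈ L, 0 ≤ b.s ∧ b.s ≤ b.r) :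
    ∀ᵐ ω ∂P, sint W L t ω = sint W' L t ω := by
  induction L with
  | nil => exact Filter.Eventually.of_forall (fun ω => rfl)
  | cons b L ih =>
    have ih' := ih (fun c hc => hL c (List.mem_cons_of_mem _ hc))
    obtain ⟨hb1, hb2⟩ := hL b List.mem_cons_self
    filter_upwards [ih', hWW b.j (min b.r t) (le_min (hb1.trans hb2) ht),
      hWW b.j (min b.s t) (le_min hb1 ht)] with ω h1 h2 h3
    unfold sint at h1 ⊢
    rw [List.map_cons, List.map_cons, List.sum_cons, List.sum_cons, h1, h2, h3]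

theorem isIto_congr (T : ℝ) (P : Measure Ω) (F : ℝ → MeasurableSpace Ω)
    (W : Fin 2 → ℝ → Ω → ℝ) (Z Z' : Fin 2 → ℝ → Ω → ℝ) (M M' : ℝ → Ω → ℝ)
    (h : IsIto T P F W Z M)
    (hZ : ∀ᵐ ω ∂P, ∀ i, ∀ s ∈ Icc (0 : ℝ) T, Z i s ω = Z' i s ω)
    (hM : ∀ t ∈ Icc (0 : ℝ) T, ∀ᵐ ω ∂P, M t ω = M' t ω) :
    IsIto T P F W Z' M' := by
  obtain ⟨H, hS, h1, h2⟩ := h
  refine ⟨H, hS, ?_, ?_⟩
  · intro ε hε
    refine (h1 ε hε).congr (fun n => measure_congr ?_)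
    filter_upwards [hZ] with ω hω
    have he : (∫⁻ s in Icc (0 : ℝ) T, ENNReal.ofReal (∑ i, (sval (H n) i s ω - Z i s ω) ^ 2)) =
        ∫⁻ s in Icc (0 : ℝ) T, ENNReal.ofReal (∑ i, (sval (H n) i s ω - Z' i s ω) ^ 2) := by
      apply setLIntegral_congr_fun measurableSet_Icc
      intro s hs
      show ENNReal.ofReal (∑ i, (sval (H n) i s ω - Z i s ω) ^ 2) =
        ENNReal.ofReal (∑ i, (sval (H n) i s ω - Z' i s ω) ^ 2)
      congr 1
      apply Finset.sum_congr rfl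
      intro i _
      rw [hω i s hs]
    show (ENNReal.ofReal ε ≤
        ∫⁻ s in Icc (0 : ℝ) T, ENNReal.ofReal (∑ i, (sval (H n) i s ω - Z i s ω) ^ 2)) =
      (ENNReal.ofReal ε ≤
        ∫⁻ s in Icc (0 : ℝ) T, ENNReal.ofReal (∑ i, (sval (H n) i s ω - Z' i s ω) ^ 2))
    rw [he]
  · intro ε hε
    refine (h2 ε hε).congr (fun n => ?_)
    refine iSup_congr (fun t => iSup_congr (fun ht => measure_congr ?_))
    filter_upwards [hM t ht] with ω hω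
    show (ε ≤ |sint W (H n) t ω - M t ω|) = (ε ≤ |sint W (H n) t ω - M' t ω|)
    rw [hω]

theorem isIto_congr_W (T : ℝ) (P : Measure Ω) (F : ℝ → MeasurableSpace Ω)
    (W W' : Fin 2 → ℝ → Ω → ℝ) (Z : Fin 2 → ℝ → Ω → ℝ) (M : ℝ → Ω → ℝ)
    (hT : 0 ≤ T) (hWW : ∀ i (t : ℝ), 0 ≤ t → ∀ᵐ ω ∂P, W i t ω = W' i t ω)
    (h : IsIto T P F W Z M) : IsIto T P F W' Z M := by
  obtain ⟨H, hS, h1, h2⟩ := h
  refine ⟨H, hS, h1, ?_⟩
  intro ε hε
  refine (h2 ε hε).congr (fun n => ?_)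
  refine iSup_congr (fun t => iSup_congr (fun ht => measure_congr ?_))
  filter_upwards [isIto_congr_sint P W W' hWW t ht.1 (H n)
    (fun b hb => ⟨(hS n b hb).1, (hS n b hb).2.1⟩)] with ω hω
  show (ε ≤ |sint W (H n) t ω - M t ω|) = (ε ≤ |sint W' (H n) t ω - M t ω|)
  rw [hω]

end Pool.Agent.Helper807.BS
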