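import Pool.Agent.Helper807.BS.Defs

set_option autoImplicit false

namespace Pool.Agent.Helper807.BS

open MeasureTheory ProbabilityTheory Set Filter
open scoped NNReal ENNReal Topology

universe u

variable {Ω : Type u} [mΩ : MeasurableSpace Ω]

theorem measurable_sval_10098 (H : List (Blk Ω)) (i : Fin 2) (ω : Ω) :
    Measurable (fun t : ℝ => sval H i t ω) := by
  induction H with
  | nil => simpa [sval] using (measurable_const : Measurable (fun _ : ℝ => (0:ℝ)))
  | cons b H ih =>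
    have h : (fun t : ℝ => sval (b :: H) i t ω) =
        fun t : ℝ => (if b.j = i ∧ b.s < t ∧ t ≤ b.r then b.h ω else 0) + sval H i t ω := by
      funext t
      simp [sval]
    rw [h]
    refine Measurable.add ?_ ih
    by_cases hj : b.j = i
    · have hset : MeasurableSet {t : ℝ | b.j = i ∧ b.s < t ∧ t ≤ b.r} := by
        have : {t : ℝ | b.j = i ∧ b.s < t ∧ t ≤ b.r} = Ioc b.s b.r := by
          ext t; simp [hj]
        rw [this]; exact measurableSet_Ioc
      exact Measurable.ite hset measurable_const measurable_const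
    · simpa [hj] using (measurable_const : Measurable (fun _ : ℝ => (0:ℝ)))

theorem tendsto_inv_10098 :
    Tendsto (fun k : ℕ => ENNReal.ofReal (1 / ((k:ℝ) + 1))) atTop (𝓝 0) := by
  have := ENNReal.tendsto_ofReal (tendsto_one_div_add_atTop_nhds_zero_nat (𝕜 := ℝ))
  simpa using this

theorem ev_inv_10098 {ε : ℝ} (hε : 0 < ε) : ∀ᶠ k : ℕ in atTop, 1 / ((k:ℝ) + 1) ≤ ε := by
  have := (tendsto_one_div_add_atTop_nhds_zero_nat (𝕜 := ℝ)).eventually (ge_mem_nhds hε)
  exact this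

theorem isIto_diag (T : ℝ) (P : Measure Ω) (F : ℝ → MeasurableSpace Ω)
    (W : Fin 2 → ℝ → Ω → ℝ) (Zk : ℕ → Fin 2 → ℝ → Ω → ℝ) (Mk : ℕ → ℝ → Ω → ℝ)
    (Z : Fin 2 → ℝ → Ω → ℝ) (M : ℝ → Ω → ℝ)
    (mZ : ∀ k i ω, Measurable (fun s => Zk k i s ω))
    (hk : ∀ k, IsIto T P F W (Zk k) (Mk k))
    (h1 : ∀ ε : ℝ, 0 < ε → Tendsto (fun k => P {ω | ENNReal.ofReal ε ≤
        ∫⁻ s in Icc (0 : ℝ) T, ENNReal.ofReal (∑ i, (Zk k i s ω - Z i s ω) ^ 2)})
      atTop (𝓝 0))
    (h2 : ∀ ε : ℝ, 0 < ε → Tendsto (fun k => ⨆ t ∈ Icc (0 : ℝ) T,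
        P {ω | ε ≤ |Mk k t ω - M t ω|}) atTop (𝓝 0)) :
    IsIto T P F W Z M := by
  have hsel : ∀ k : ℕ, ∃ H : List (Blk Ω), IsSimple T F H ∧
      P {ω | ENNReal.ofReal (1 / ((k:ℝ) + 1)) ≤
        ∫⁻ s in Icc (0 : ℝ) T, ENNReal.ofReal (∑ i, (sval H i s ω - Zk k i s ω) ^ 2)} ≤
          ENNReal.ofReal (1 / ((k:ℝ) + 1)) ∧
      (⨆ t ∈ Icc (0 : ℝ) T, P {ω | 1 / ((k:ℝ) + 1) ≤ |sint W H t ω - Mk k t ω|}) ≤
          ENNReal.ofReal (1 / ((k:ℝ) + 1)) := by
    intro k
    obtain ⟨H, hs, ha, hb⟩ := hk k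
    have hpos : (0:ℝ) < 1 / ((k:ℝ) + 1) := by positivity
    have hpos' : (0:ℝ≥0∞) < ENNReal.ofReal (1 / ((k:ℝ) + 1)) := ENNReal.ofReal_pos.mpr hpos
    have h3 := (ENNReal.tendsto_nhds_zero.mp (ha _ hpos)) _ hpos'
    have h4 := (ENNReal.tendsto_nhds_zero.mp (hb _ hpos)) _ hpos'
    obtain ⟨n, hn1, hn2⟩ := (h3.and h4).exists
    exact ⟨H n, hs n, hn1, hn2⟩
  choose H hs ha hb using hsel
  refine ⟨H, hs, ?_, ?_⟩
  · intro ε hε
    have hε4 : 0 < ε / 4 := by positivity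
    have hlim : Tendsto (fun k : ℕ => ENNReal.ofReal (1 / ((k:ℝ) + 1)) +
        P {ω | ENNReal.ofReal (ε / 4) ≤
        ∫⁻ s in Icc (0 : ℝ) T, ENNReal.ofReal (∑ i, (Zk k i s ω - Z i s ω) ^ 2)})
        atTop (𝓝 0) := by
      simpa using tendsto_inv_10098.add (h1 _ hε4)
    refine tendsto_of_tendsto_of_tendsto_of_le_of_le' tendsto_const_nhds hlim
      (Eventually.of_forall fun _ => zero_le) ?_
    filter_upwards [ev_inv_10098 hε4] with k hk4
    have hsub : {ω | ENNReal.ofReal ε ≤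
        ∫⁻ s in Icc (0 : ℝ) T, ENNReal.ofReal (∑ i, (sval (H k) i s ω - Z i s ω) ^ 2)} ⊆
        {ω | ENNReal.ofReal (1 / ((k:ℝ) + 1)) ≤
        ∫⁻ s in Icc (0 : ℝ) T, ENNReal.ofReal (∑ i, (sval (H k) i s ω - Zk k i s ω) ^ 2)} ∪
        {ω | ENNReal.ofReal (ε / 4) ≤
        ∫⁻ s in Icc (0 : ℝ) T, ENNReal.ofReal (∑ i, (Zk k i s ω - Z i s ω) ^ 2)} := by
      intro ω hω
      by_contra hcon
      rw [Set.mem_union, not_or] at hcon
      obtain ⟨hc1, hc2⟩ := hcon
      simp only [Set.mem_setOf_eq, not_le] at hc1 hc2 hω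
      have hc1' := hc1.trans_le (ENNReal.ofReal_le_ofReal hk4)
      have hle : ∫⁻ s in Icc (0 : ℝ) T,
            ENNReal.ofReal (∑ i, (sval (H k) i s ω - Z i s ω) ^ 2) ≤
          2 * (∫⁻ s in Icc (0 : ℝ) T,
            ENNReal.ofReal (∑ i, (sval (H k) i s ω - Zk k i s ω) ^ 2)) +
          2 * (∫⁻ s in Icc (0 : ℝ) T,
            ENNReal.ofReal (∑ i, (Zk k i s ω - Z i s ω) ^ 2)) := by
        rw [← lintegral_const_mul' _ _ (by norm_num), ← lintegral_const_mul' _ _ (by norm_num),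
          ← lintegral_add_left]
        · apply lintegral_mono
          intro s
          show ENNReal.ofReal (∑ i, (sval (H k) i s ω - Z i s ω) ^ 2) ≤
            2 * ENNReal.ofReal (∑ i, (sval (H k) i s ω - Zk k i s ω) ^ 2) +
            2 * ENNReal.ofReal (∑ i, (Zk k i s ω - Z i s ω) ^ 2)
          have h2 : (2 : ℝ≥0∞) = ENNReal.ofReal 2 := by norm_num
          rw [h2, ← ENNReal.ofReal_mul (by norm_num), ← ENNReal.ofReal_mul (by norm_num),
            ← ENNReal.ofReal_add (by positivity) (by positivity)]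
          apply ENNReal.ofReal_le_ofReal
          rw [Fin.sum_univ_two, Fin.sum_univ_two, Fin.sum_univ_two]
          nlinarith [sq_nonneg ((sval (H k) 0 s ω - Zk k 0 s ω) - (Zk k 0 s ω - Z 0 s ω)),
            sq_nonneg ((sval (H k) 1 s ω - Zk k 1 s ω) - (Zk k 1 s ω - Z 1 s ω))]
        · apply Measurable.const_mul
          apply Measurable.ennreal_ofReal
          apply Finset.measurable_sum
          intro i _
          exact ((measurable_sval_10098 (H k) i ω).sub (mZ k i ω)).pow_const 2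
      have hlt : 2 * (∫⁻ s in Icc (0 : ℝ) T,
            ENNReal.ofReal (∑ i, (sval (H k) i s ω - Zk k i s ω) ^ 2)) +
          2 * (∫⁻ s in Icc (0 : ℝ) T,
            ENNReal.ofReal (∑ i, (Zk k i s ω - Z i s ω) ^ 2)) < ENNReal.ofReal ε := by
        have h5 : 2 * (∫⁻ s in Icc (0 : ℝ) T,
            ENNReal.ofReal (∑ i, (sval (H k) i s ω - Zk k i s ω) ^ 2)) <
            2 * ENNReal.ofReal (ε / 4) :=
          (ENNReal.mul_lt_mul_iff_right (by norm_num) (by norm_num)).mpr hc1'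
        have h6 : 2 * (∫⁻ s in Icc (0 : ℝ) T,
            ENNReal.ofReal (∑ i, (Zk k i s ω - Z i s ω) ^ 2)) <
            2 * ENNReal.ofReal (ε / 4) :=
          (ENNReal.mul_lt_mul_iff_right (by norm_num) (by norm_num)).mpr hc2
        have h7 := ENNReal.add_lt_add h5 h6
        have h8 : 2 * ENNReal.ofReal (ε / 4) + 2 * ENNReal.ofReal (ε / 4) =
            ENNReal.ofReal ε := by
          have h2 : (2 : ℝ≥0∞) = ENNReal.ofReal 2 := by norm_num
          rw [h2, ← ENNReal.ofReal_mul (by norm_num),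
            ← ENNReal.ofReal_add (by positivity) (by positivity)]
          congr 1
          ring
        rwa [h8] at h7
      exact absurd (hω.trans hle) (not_le.mpr hlt)
    exact (measure_mono hsub).trans ((measure_union_le _ _).trans (by gcongr; exact ha k))
  · intro ε hε
    have hε2 : 0 < ε / 2 := by positivity
    have hlim : Tendsto (fun k : ℕ => ENNReal.ofReal (1 / ((k:ℝ) + 1)) +
        ⨆ t ∈ Icc (0 : ℝ) T, P {ω | ε / 2 ≤ |Mk k t ω - M t ω|})
        atTop (𝓝 0) := by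
      simpa using tendsto_inv_10098.add (h2 _ hε2)
    refine tendsto_of_tendsto_of_tendsto_of_le_of_le' tendsto_const_nhds hlim
      (Eventually.of_forall fun _ => zero_le) ?_
    filter_upwards [ev_inv_10098 hε2] with k hk2
    apply iSup₂_le
    intro t ht
    have hsub : {ω | ε ≤ |sint W (H k) t ω - M t ω|} ⊆
        {ω | 1 / ((k:ℝ) + 1) ≤ |sint W (H k) t ω - Mk k t ω|} ∪
        {ω | ε / 2 ≤ |Mk k t ω - M t ω|} := by
      intro ω hω
      by_contra hcon
      rw [Set.mem_union, not_or] at hcon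
      obtain ⟨hc1, hc2⟩ := hcon
      simp only [Set.mem_setOf_eq, not_le] at hc1 hc2 hω
      have h3 : |sint W (H k) t ω - M t ω| ≤
          |sint W (H k) t ω - Mk k t ω| + |Mk k t ω - M t ω| := abs_sub_le _ _ _
      linarith
    refine (measure_mono hsub).trans ((measure_union_le _ _).trans ?_)
    apply add_le_add
    · exact (le_iSup₂ (f := fun t (_ : t ∈ Icc (0:ℝ) T) =>
        P {ω | 1 / ((k:ℝ) + 1) ≤ |sint W (H k) t ω - Mk k t ω|}) t ht).trans (hb k)
    · exact le_iSup₂ (f := fun t (_ : t ∈ Icc (0:ℝ) T) =>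
        P {ω | ε / 2 ≤ |Mk k t ω - M t ω|}) t ht

end Pool.Agent.Helper807.BS
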