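import Pool.Agent.Helper807.BS.Defs
import Pool.Agent.Helper807.BS.DSt
import Pool.Agent.Helper807.BS.LPhi1
import Pool.Agent.Helper807.BS.LPhi2
import Pool.Agent.Helper807.BS.LG1

set_option autoImplicit false

namespace Pool.Agent.Helper807.BS

open MeasureTheory ProbabilityTheory Set Filter
open scoped NNReal ENNReal Topology

universe u

variable {Ω : Type u} [mΩ : MeasurableSpace Ω]

theorem st_cS (b : ℝ) (q : ℝ × ℝ) : ContinuousAt (fun q : ℝ × ℝ => √(b - q.1)) q :=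
  (Real.continuous_sqrt.comp (continuous_const.sub continuous_fst)).continuousAt

theorem st_cR (b : ℝ) (q : ℝ × ℝ) (hq : q.1 < b) :
    ContinuousAt (fun q : ℝ × ℝ => q.2 / √(b - q.1)) q :=
  continuous_snd.continuousAt.div (st_cS b q) (Real.sqrt_pos.2 (sub_pos.2 hq)).ne'

theorem st_cPhi (b : ℝ) (q : ℝ × ℝ) (hq : q.1 < b) :
    ContinuousAt (fun q : ℝ × ℝ => Phi (q.2 / √(b - q.1))) q :=
  ContinuousAt.comp (f := fun q : ℝ × ℝ => q.2 / √(b - q.1)) (g := Phi)
    (hasDerivAt_Phi _).continuousAt (st_cR b q hq)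

theorem st_cphi (b : ℝ) (q : ℝ × ℝ) (hq : q.1 < b) :
    ContinuousAt (fun q : ℝ × ℝ => phi (q.2 / √(b - q.1))) q :=
  ContinuousAt.comp (f := fun q : ℝ × ℝ => q.2 / √(b - q.1)) (g := phi)
    (hasDerivAt_phi _).continuousAt (st_cR b q hq)

theorem st_cG (l y v b : ℝ) (q : ℝ × ℝ) (hq : q.1 < b) :
    ContinuousAt (fun q : ℝ × ℝ => Gd l y v (Phi (q.2 / √(b - q.1)))) q :=
  ContinuousAt.comp (f := fun q : ℝ × ℝ => Phi (q.2 / √(b - q.1))) (g := Gd l y v)
    (hasDerivAt_Gd l y v _ (Ioo_subset_Icc_self (Phi_mem _))).continuousAt (st_cPhi b q hq)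

theorem continuousOn_stu (l y v b : ℝ) :
    ContinuousOn (fun q : ℝ × ℝ => stu l y v b q.1 q.2) (Iio b ×ˢ (univ : Set ℝ)) := by
  rintro q ⟨hq, -⟩
  exact (ContinuousAt.comp (f := fun q : ℝ × ℝ => Phi (q.2 / √(b - q.1))) (g := Gf l y v)
    (hasDerivAt_Gf l y v _ (Ioo_subset_Icc_self (Phi_mem _))).continuousAt
    (st_cPhi b q hq)).continuousWithinAt

theorem continuousOn_stx (l y v b : ℝ) :
    ContinuousOn (fun q : ℝ × ℝ => stx l y v b q.1 q.2) (Iio b ×ˢ (univ : Set ℝ)) := by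
  rintro q ⟨hq, -⟩
  exact (((st_cG l y v b q hq).mul (st_cphi b q hq)).div (st_cS b q)
    (Real.sqrt_pos.2 (sub_pos.2 hq)).ne').continuousWithinAt

theorem continuousOn_stt (l y v b : ℝ) :
    ContinuousOn (fun q : ℝ × ℝ => stt l y v b q.1 q.2) (Iio b ×ˢ (univ : Set ℝ)) := by
  rintro q ⟨hq, -⟩
  have hb : ContinuousAt (fun q : ℝ × ℝ => 2 * (b - q.1)) q := by fun_prop
  have hq' : q.1 < b := hq
  exact (((st_cG l y v b q hq).mul ((st_cR b q hq).mul (st_cphi b q hq))).div hb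
    (by show 2 * (b - q.1) ≠ 0
        have : 0 < 2 * (b - q.1) := by linarith
        exact this.ne')).continuousWithinAt

theorem continuousOn_stxx (l y v b : ℝ) :
    ContinuousOn (fun q : ℝ × ℝ => stxx l y v b q.1 q.2) (Iio b ×ˢ (univ : Set ℝ)) := by
  rintro q ⟨hq, -⟩
  have hb : ContinuousAt (fun q : ℝ × ℝ => b - q.1) q := by fun_prop
  have hq' : q.1 < b := hq
  have hc : ContinuousAt (fun _ : ℝ × ℝ => -l) q := continuousAt_const
  exact ((((hc.mul ((st_cG l y v b q hq).pow 2)).mul ((st_cphi b q hq).pow 2)).sub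
    ((st_cG l y v b q hq).mul ((st_cR b q hq).mul (st_cphi b q hq)))).div hb
    (by show b - q.1 ≠ 0
        have : 0 < b - q.1 := by linarith
        exact this.ne')).continuousWithinAt

end Pool.Agent.Helper807.BS
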