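import Pool.Agent.Helper807.BS.Defs
import Pool.Agent.Helper807.BS.DSt
import Pool.Agent.Helper807.BS.LPhi1
import Pool.Agent.Helper807.BS.LPhi2
import Pool.Agent.Helper807.BS.LG1

set_option autoImplicit false

namespace Pool.Agent.Helper807.BS

open MeasureTheory ProbabilityTheory Set Filter
open scoped NNReal ENNReal Topology

universe u

variable {Ω : Type u} [mΩ : MeasurableSpace Ω]

theorem sqrt_inv_atTop (b : ℝ) :
    Tendsto (fun t => (√(b - t))⁻¹) (𝓝[<] b) atTop := by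
  refine tendsto_inv_nhdsGT_zero.comp ?_
  rw [tendsto_nhdsWithin_iff]
  constructor
  · have h : ContinuousAt (fun t : ℝ => √(b - t)) b := by fun_prop
    have h2 : Tendsto (fun t : ℝ => √(b - t)) (𝓝 b) (𝓝 0) := by
      have := h.tendsto
      simpa using this
    exact h2.mono_left nhdsWithin_le_nhds
  · filter_upwards [self_mem_nhdsWithin] with t ht
    have ht' : t < b := ht
    exact Real.sqrt_pos.mpr (by linarith)

theorem tendsto_z_pos (b : ℝ) (x : ℝ → ℝ) (hx : ContinuousAt x b) (h0 : 0 < x b) :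
    Tendsto (fun t => x t / √(b - t)) (𝓝[<] b) atTop := by
  have h1 : Tendsto x (𝓝[<] b) (𝓝 (x b)) := hx.tendsto.mono_left nhdsWithin_le_nhds
  simpa [div_eq_mul_inv] using h1.pos_mul_atTop h0 (sqrt_inv_atTop b)

theorem tendsto_z_neg (b : ℝ) (x : ℝ → ℝ) (hx : ContinuousAt x b) (h0 : x b < 0) :
    Tendsto (fun t => x t / √(b - t)) (𝓝[<] b) atBot := by
  have h1 : Tendsto x (𝓝[<] b) (𝓝 (x b)) := hx.tendsto.mono_left nhdsWithin_le_nhds
  simpa [div_eq_mul_inv] using h1.neg_mul_atTop h0 (sqrt_inv_atTop b)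

theorem tendsto_stu (l y v b : ℝ) (x : ℝ → ℝ) (hx : ContinuousAt x b) (h0 : x b ≠ 0) :
    Tendsto (fun t => stu l y v b t (x t)) (𝓝[<] b) (𝓝 (if 0 < x b then y else v)) := by
  unfold stu
  split_ifs with h
  · have h1 := tendsto_Phi_top.comp (tendsto_z_pos b x hx h)
    have h2 : Tendsto (Gf l y v) (𝓝 1) (𝓝 (Gf l y v 1)) :=
      (hasDerivAt_Gf l y v 1 ⟨zero_le_one, le_rfl⟩).continuousAt
    rw [Gf_one] at h2
    exact h2.comp h1
  · have h' : x b < 0 := lt_of_le_of_ne (not_lt.mp h) h0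
    have h1 := tendsto_Phi_bot.comp (tendsto_z_neg b x hx h')
    have h2 : Tendsto (Gf l y v) (𝓝 0) (𝓝 (Gf l y v 0)) :=
      (hasDerivAt_Gf l y v 0 ⟨le_rfl, zero_le_one⟩).continuousAt
    rw [Gf_zero] at h2
    exact h2.comp h1

theorem tendsto_stx (l y v b : ℝ) (x : ℝ → ℝ) (hx : ContinuousAt x b) (h0 : x b ≠ 0) :
    Tendsto (fun t => stx l y v b t (x t)) (𝓝[<] b) (𝓝 0) := by
  obtain ⟨C, hC, hCb⟩ := abs_Gd_le l y v
  have hx1 : Tendsto x (𝓝[<] b) (𝓝 (x b)) := hx.tendsto.mono_left nhdsWithin_le_nhds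
  have hz : Tendsto (fun t => (x t / √(b - t)) * phi (x t / √(b - t))) (𝓝[<] b) (𝓝 0) := by
    rcases lt_or_gt_of_ne h0 with h | h
    · exact tendsto_mul_phi_bot.comp (tendsto_z_neg b x hx h)
    · exact tendsto_mul_phi_top.comp (tendsto_z_pos b x hx h)
  have hlim : Tendsto (fun t => C * |((x t / √(b - t)) * phi (x t / √(b - t))) / x t|)
      (𝓝[<] b) (𝓝 0) := by
    have h1 := ((hz.div hx1 h0).abs).const_mul C
    simpa using h1
  refine squeeze_zero_norm' ?_ hlim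
  have hne : ∀ᶠ t in 𝓝[<] b, x t ≠ 0 := hx1.eventually_ne h0
  filter_upwards [hne, self_mem_nhdsWithin] with t htx htb
  have ht' : t < b := htb
  have hs : 0 < √(b - t) := Real.sqrt_pos.mpr (by linarith)
  have he : stx l y v b t (x t) = Gd l y v (Phi (x t / √(b - t))) *
      (((x t / √(b - t)) * phi (x t / √(b - t))) / x t) := by
    unfold stx
    field_simp
  rw [he, Real.norm_eq_abs, abs_mul]
  exact mul_le_mul_of_nonneg_right (hCb _ (Ioo_subset_Icc_self (Phi_mem _))) (abs_nonneg _)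

end Pool.Agent.Helper807.BS
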