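import Pool.Agent.Helper807.BS.Defs
import Pool.Agent.Helper807.BS.DPath
import Pool.Agent.Helper807.BS.LSt2
import Pool.Agent.Helper807.BS.LSt3
import Pool.Agent.Helper807.BS.LSt4

set_option autoImplicit false

namespace Pool.Agent.Helper807.BS

open MeasureTheory ProbabilityTheory Set Filter
open scoped NNReal ENNReal Topology

universe u

variable {Ω : Type u} [mΩ : MeasurableSpace Ω]

theorem glue_aux (b c : ℝ) (S : ℝ → ℝ) (hS : ContinuousOn S (Iio b))
    (hlim : Tendsto S (𝓝[<] b) (𝓝 c)) : Continuous (fun t => if t < b then S t else c) := by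
  rw [continuous_iff_continuousAt]
  intro t
  rcases lt_trichotomy t b with h | h | h
  · have h1 : ContinuousAt S t := hS.continuousAt (Iio_mem_nhds h)
    apply h1.congr
    filter_upwards [Iio_mem_nhds h] with s hs
    have hs' : s < b := hs
    rw [if_pos hs']
  · subst h
    rw [continuousAt_iff_continuous_left'_right']
    constructor
    · show Tendsto _ (𝓝[<] t) (𝓝 (if t < t then S t else c))
      rw [if_neg (lt_irrefl t)]
      apply hlim.congr'
      filter_upwards [self_mem_nhdsWithin] with s hs
      have hs' : s < t := hs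
      rw [if_pos hs']
    · show Tendsto _ (𝓝[>] t) (𝓝 (if t < t then S t else c))
      rw [if_neg (lt_irrefl t)]
      apply (tendsto_const_nhds (x := c)).congr'
      filter_upwards [self_mem_nhdsWithin] with s hs
      rw [if_neg (not_lt.mpr (le_of_lt hs))]
  · apply (continuousAt_const (y := c)).congr
    filter_upwards [Ioi_mem_nhds h] with s hs
    rw [if_neg (not_lt.mpr (le_of_lt hs))]

theorem contS_aux (l y v a b : ℝ) (w : ℝ → ℝ) (hw : Continuous w) :
    ContinuousOn (fun t => stu l y v b t (w t - w a)) (Iio b) :=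
  (continuousOn_stu l y v b).comp (f := fun t : ℝ => (t, w t - w a)) (by fun_prop)
    (fun t ht => ⟨ht, mem_univ _⟩)

theorem contX_aux (l y v a b : ℝ) (w : ℝ → ℝ) (hw : Continuous w) :
    ContinuousOn (fun t => stx l y v b t (w t - w a)) (Iio b) :=
  (continuousOn_stx l y v b).comp (f := fun t : ℝ => (t, w t - w a)) (by fun_prop)
    (fun t ht => ⟨ht, mem_univ _⟩)

theorem continuous_ust (l y0 y v a b : ℝ) (hab : a < b) (w : ℝ → ℝ) (hw : Continuous w)
    (h0 : y0 = Gf l y v (1 / 2)) (hne : w b - w a ≠ 0) :
    Continuous (ust l y0 y v a b w) := by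
  have h1 := glue_aux b (if 0 < w b - w a then y else v)
    (fun t => stu l y v b t (w t - w a)) (contS_aux l y v a b w hw)
    (tendsto_stu l y v b (fun t => w t - w a) (by fun_prop) hne)
  have h2 : Continuous (fun t => if t ≤ a then y0 else
      (if t < b then stu l y v b t (w t - w a) else (if 0 < w b - w a then y else v))) := by
    refine Continuous.if_le continuous_const h1 continuous_id continuous_const ?_
    intro t ht
    have ht' : t = a := ht
    subst ht'
    rw [if_pos hab, sub_self, stu_start, h0]
  exact h2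

theorem measurable_zst (l y v a b : ℝ) (w : ℝ → ℝ) (hw : Continuous w) :
    Measurable (zst l y v a b w) := by
  classical
  have h1 : ContinuousOn (fun t => stx l y v b t (w t - w a)) (Ioo a b) :=
    (contX_aux l y v a b w hw).mono (fun t ht => ht.2)
  have h2 := h1.measurable_piecewise (g := fun _ => (0 : ℝ)) continuousOn_const measurableSet_Ioo
  convert h2 using 1
  funext t
  by_cases h : t ∈ Ioo a b
  · rw [Set.piecewise_eq_of_mem _ _ _ h]
    have h' : a < t ∧ t < b := h
    simp only [zst]
    rw [if_pos h']
  · rw [Set.piecewise_eq_of_notMem _ _ _ h]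
    have h' : ¬ (a < t ∧ t < b) := h
    simp only [zst]
    rw [if_neg h']

theorem bounded_zst (l y v a b : ℝ) (hab : a < b) (w : ℝ → ℝ) (hw : Continuous w)
    (hne : w b - w a ≠ 0) : ∃ C : ℝ, ∀ t, |zst l y v a b w t| ≤ C := by
  have h1 := glue_aux b 0 (fun t => stx l y v b t (w t - w a)) (contX_aux l y v a b w hw)
    (tendsto_stx l y v b (fun t => w t - w a) (by fun_prop) hne)
  obtain ⟨C, hC⟩ := (isCompact_Icc (a := a) (b := b)).exists_bound_of_continuousOn h1.continuousOn
  refine ⟨max C 0, fun t => ?_⟩
  unfold zst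
  split_ifs with h
  · have := hC t ⟨h.1.le, h.2.le⟩
    rw [if_pos h.2, Real.norm_eq_abs] at this
    exact this.trans (le_max_left _ _)
  · rw [abs_zero]
    exact le_max_right _ _

theorem integrable_zst_sq (l y v a b : ℝ) (hab : a < b) (w : ℝ → ℝ) (hw : Continuous w)
    (hne : w b - w a ≠ 0) : Integrable (fun s => (zst l y v a b w s) ^ 2) := by
  obtain ⟨C, hC⟩ := bounded_zst l y v a b hab w hw hne
  have hsupp : Function.support (fun s => (zst l y v a b w s) ^ 2) ⊆ Ioo a b := by
    intro s hs
    by_contra h
    apply hs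
    have : zst l y v a b w s = 0 := by
      unfold zst
      have h' : ¬ (a < s ∧ s < b) := h
      rw [if_neg h']
    simp only [this]
    norm_num
  rw [← integrableOn_iff_integrable_of_support_subset hsupp]
  refine Measure.integrableOn_of_bounded (M := C ^ 2) (by simp)
    ((measurable_zst l y v a b w hw).pow_const 2).aestronglyMeasurable ?_
  refine Filter.Eventually.of_forall (fun s => ?_)
  rw [Real.norm_eq_abs, abs_pow]
  exact pow_le_pow_left₀ (abs_nonneg _) (hC s) 2

end Pool.Agent.Helper807.BS
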