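import Pool.Agent.Helper807.BS.Defs
import Pool.Agent.Helper807.BS.DProc
import Pool.Agent.Helper807.BS.LAl1
import Pool.Agent.Helper807.BS.LTt
import Pool.Agent.Helper807.BS.LAl2
import Pool.Agent.Helper807.BS.LPath
import Pool.Agent.Helper807.BS.LFin

set_option autoImplicit false

namespace Pool.Agent.Helper807.BS

open MeasureTheory ProbabilityTheory Set Filter
open scoped NNReal ENNReal Topology

universe u

variable {Ω : Type u} [mΩ : MeasurableSpace Ω]

theorem aux_int_zero (f : ℝ → ℝ) (a b : ℝ) (hab : a ≤ b) (h : ∀ s, a ≤ s → s ≤ b → f s = 0) :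
    ∫ s in a..b, f s = 0 := by
  have : ∫ s in a..b, f s = ∫ s in a..b, (0 : ℝ) := by
    apply intervalIntegral.integral_congr
    intro s hs
    rw [Set.uIcc_of_le hab] at hs
    exact h s hs.1 hs.2
  rw [this]
  simp

theorem aux_clamp (f : ℝ → ℝ) (hf : Integrable f) (a b t : ℝ) (ha : 0 ≤ a) (hab : a < b)
    (ht : 0 ≤ t) (h0 : ∀ s, ¬ (a < s ∧ s < b) → f s = 0) :
    ∫ s in (0 : ℝ)..t, f s = ∫ s in a..clamp a b t, f s := by
  have hI : ∀ p q : ℝ, IntervalIntegrable f volume p q := fun p q => hf.intervalIntegrable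
  unfold clamp
  rcases le_or_gt t a with h1 | h1
  · rw [min_eq_left (by linarith), max_eq_left h1, intervalIntegral.integral_same]
    apply aux_int_zero f 0 t ht
    intro s _ hs
    apply h0
    rintro ⟨h2, _⟩
    linarith
  · have hza : ∫ s in (0 : ℝ)..a, f s = 0 := by
      apply aux_int_zero f 0 a ha
      intro s _ hs
      apply h0
      rintro ⟨h2, _⟩
      linarith
    rcases le_or_gt t b with h3 | h3
    · rw [min_eq_left h3, max_eq_right h1.le]
      rw [← intervalIntegral.integral_add_adjacent_intervals (hI 0 a) (hI a t), hza, zero_add]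
    · rw [min_eq_right h3.le, max_eq_right hab.le]
      have hbt : ∫ s in b..t, f s = 0 := by
        apply aux_int_zero f b t h3.le
        intro s hs _
        apply h0
        rintro ⟨_, h2⟩
        linarith
      rw [← intervalIntegral.integral_add_adjacent_intervals (hI 0 a) (hI a t), hza, zero_add,
        ← intervalIntegral.integral_add_adjacent_intervals (hI a b) (hI b t), hbt, add_zero]

theorem aux_sq_sum (k : ℕ) (f : ℕ → ℝ) (h : ∀ m n, m < n → f m * f n = 0) :
    (∑ n ∈ Finset.range k, f n) ^ 2 = ∑ n ∈ Finset.range k, (f n) ^ 2 := by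
  induction k with
  | zero => simp
  | succ k ih =>
    rw [Finset.sum_range_succ, Finset.sum_range_succ, add_sq, ih]
    have : (∑ n ∈ Finset.range k, f n) * f k = 0 := by
      rw [Finset.sum_mul]
      apply Finset.sum_eq_zero
      intro n hn
      exact h n k (Finset.mem_range.mp hn)
    have h2 : 2 * (∑ n ∈ Finset.range k, f n) * f k = 0 := by
      rw [mul_assoc, this, mul_zero]
    rw [h2]
    ring

theorem aux_Zn_zero (T : ℝ) (W : Fin 2 → ℝ → Ω → ℝ) (idx : ℕ → Fin 2)
    (lam : Fin 2 → ℝ) (v y : ℕ → ℝ) (n : ℕ) (i : Fin 2) (s : ℝ) (ω : Ω)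
    (h : ¬ (tt T n < s ∧ s < tt T (n + 1))) : Zn T W idx lam v y n i s ω = 0 := by
  unfold Zn
  split_ifs with h1
  · unfold Set.indicator
    split_ifs with h2
    · unfold zst
      simp only [if_neg h]
    · rfl
  · rfl

theorem aux_cross (T : ℝ) (hT : 0 < T) (W : Fin 2 → ℝ → Ω → ℝ) (idx : ℕ → Fin 2)
    (lam : Fin 2 → ℝ) (v y : ℕ → ℝ) (m n : ℕ) (hmn : m < n) (i : Fin 2) (s : ℝ) (ω : Ω) :
    Zn T W idx lam v y m i s ω * Zn T W idx lam v y n i s ω = 0 := by
  by_cases h : tt T m < s ∧ s < tt T (m + 1)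
  · have h2 : Zn T W idx lam v y n i s ω = 0 := by
      apply aux_Zn_zero
      rintro ⟨h3, _⟩
      have := tt_mono T hT (show m + 1 ≤ n from hmn)
      linarith [h.2]
    rw [h2, mul_zero]
  · rw [aux_Zn_zero T W idx lam v y m i s ω h, zero_mul]

/-- the integrand of stage n -/
noncomputable def auxg (T : ℝ) (W : Fin 2 → ℝ → Ω → ℝ) (idx : ℕ → Fin 2) (lam : Fin 2 → ℝ)
    (v y : ℕ → ℝ) (n : ℕ) (ω : Ω) (s : ℝ) : ℝ := 
  lam (idx n) / 2 *
      (zst (lam (idx n)) (y (n + 1)) (v n) (tt T n) (tt T (n + 1))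
        (fun s => W (idx n) s ω) s) ^ 2

open Classical in
theorem aux_pointwise (T : ℝ) (hT : 0 < T) (W : Fin 2 → ℝ → Ω → ℝ) (idx : ℕ → Fin 2)
    (lam : Fin 2 → ℝ) (v y : ℕ → ℝ) (k : ℕ) (ω : Ω) (hk : ω ∉ Al T W idx k) (s : ℝ) :
    ∑ i, lam i / 2 * (Zp T W idx lam v y i s ω) ^ 2 = 
      ∑ n ∈ Finset.range k, (if ω ∈ Al T W idx n then auxg T W idx lam v y n ω s else 0) := by
  have h1 : ∀ i, (Zp T W idx lam v y i s ω) ^ 2 = 
      ∑ n ∈ Finset.range k, (Zn T W idx lam v y n i s ω) ^ 2 := by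
    intro i
    rw [Zp_eq T W idx lam v y k ω hk i s]
    exact aux_sq_sum k (fun n => Zn T W idx lam v y n i s ω) 
      (fun m n hmn => aux_cross T hT W idx lam v y m n hmn i s ω)
  simp_rw [h1, Finset.mul_sum]
  rw [Finset.sum_comm]
  apply Finset.sum_congr rfl
  intro n _
  rw [Finset.sum_eq_single (idx n)]
  · unfold Zn Set.indicator auxg
    rw [if_pos rfl]
    split_ifs with h2
    · rfl
    · simp
  · intro i _ hi
    unfold Zn
    rw [if_neg hi]
    simp
  · intro h
    exact absurd (Finset.mem_univ _) h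

/-- the equation -/
theorem eqn_M (P : Measure Ω) [IsProbabilityMeasure P] (F : ℝ → MeasurableSpace Ω)
    (W : Fin 2 → ℝ → Ω → ℝ) (hW : CBM P F W) (T : ℝ) (hT : 0 < T) (idx : ℕ → Fin 2)
    (lam : Fin 2 → ℝ) (v y : ℕ → ℝ) :
    ∀ᵐ ω ∂P, ∀ t ∈ Icc (0 : ℝ) T, Mp T W idx lam v y t ω =
      Yp T W idx lam v y t ω - y 0 +
        ∫ s in (0 : ℝ)..t, ∑ i, lam i / 2 * (Zp T W idx lam v y i s ω) ^ 2 := by
  classical
  have hae : ∀ᵐ ω ∂P, ∀ n, W (idx n) (tt T (n + 1)) ω - W (idx n) (tt T n) ω ≠ 0 := by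
    rw [ae_all_iff]
    intro n
    exact increment_ne_zero P F W hW (idx n) (tt T n) (tt T (n + 1)) (tt_nonneg T hT n)
      (tt_lt_succ T hT n)
  filter_upwards [hae] with ω hω t ht
  obtain ⟨k, hk⟩ := exists_not_mem_Al T W idx ω
  have hint : ∀ n, Integrable (auxg T W idx lam v y n ω) := by
    intro n
    have := integrable_zst_sq (lam (idx n)) (y (n + 1)) (v n) (tt T n) (tt T (n + 1))
      (tt_lt_succ T hT n) (fun s => W (idx n) s ω) (hW.cont (idx n) ω) (hω n)
    exact this.const_mul (lam (idx n) / 2)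
  have hzero : ∀ n s, ¬ (tt T n < s ∧ s < tt T (n + 1)) → auxg T W idx lam v y n ω s = 0 := by
    intro n s hs
    unfold auxg zst
    rw [if_neg hs]
    simp
  have hcl : ∀ n, ∫ s in (0 : ℝ)..t, auxg T W idx lam v y n ω s = 
      ∫ s in tt T n..clamp (tt T n) (tt T (n + 1)) t, auxg T W idx lam v y n ω s := by
    intro n
    exact aux_clamp _ (hint n) (tt T n) (tt T (n + 1)) t (tt_nonneg T hT n) (tt_lt_succ T hT n)
      ht.1 (hzero n)
  have hrhs : ∫ s in (0 : ℝ)..t, ∑ i, lam i / 2 * (Zp T W idx lam v y i s ω) ^ 2 = 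
      ∑ n ∈ Finset.range k, (if ω ∈ Al T W idx n then 
        ∫ s in tt T n..clamp (tt T n) (tt T (n + 1)) t, auxg T W idx lam v y n ω s else 0) := by
    have e1 : ∀ s, ∑ i, lam i / 2 * (Zp T W idx lam v y i s ω) ^ 2 = 
      ∑ n ∈ Finset.range k, (if ω ∈ Al T W idx n then auxg T W idx lam v y n ω s else 0) := 
      fun s => aux_pointwise T hT W idx lam v y k ω hk s
    simp_rw [e1]
    rw [intervalIntegral.integral_finset_sum]
    · apply Finset.sum_congr rfl
      intro n _
      split_ifs with h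
      · exact hcl n
      · simp
    · intro n _
      split_ifs with h
      · exact (hint n).intervalIntegrable
      · simp
  rw [hrhs, Mp_eq T W idx lam v y k ω hk t, Yp_eq T W idx lam v y k ω hk t, add_sub_cancel_left,
    ← Finset.sum_add_distrib]
  apply Finset.sum_congr rfl
  intro n _
  unfold Mn Yn Set.indicator auxg
  split_ifs with h
  · rfl
  · simp

end Pool.Agent.Helper807.BS
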