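import Pool.Agent.Helper807.BS.Defs
import Pool.Agent.Helper807.BS.DProc
import Pool.Agent.Helper807.BS.LAl1
import Pool.Agent.Helper807.BS.LTt
import Pool.Agent.Helper807.BS.LAl2
import Pool.Agent.Helper807.BS.LPath
import Pool.Agent.Helper807.BS.LFin

set_option autoImplicit false

namespace Pool.Agent.Helper807.BS

open MeasureTheory ProbabilityTheory Set Filter
open scoped NNReal ENNReal Topology

universe u

variable {Ω : Type u} [mΩ : MeasurableSpace Ω]

/-- path properties of `Y`, `Z` and `M` -/
theorem path_facts_of (P : Measure Ω) [IsProbabilityMeasure P] (F : ℝ → MeasurableSpace Ω)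
    (W : Fin 2 → ℝ → Ω → ℝ) (hW : CBM P F W) (T : ℝ) (hT : 0 < T) (idx : ℕ → Fin 2)
    (lam : Fin 2 → ℝ) (v y : ℕ → ℝ)
    (hstep : ∀ n, y n = Gf (lam (idx n)) (y (n + 1)) (v n) (1 / 2)) (ω : Ω)
    (hω : ∀ n, W (idx n) (tt T (n + 1)) ω - W (idx n) (tt T n) ω ≠ 0) :
    Continuous (fun t => Yp T W idx lam v y t ω) ∧
      Continuous (fun t => Mp T W idx lam v y t ω) ∧
      (∀ i, Measurable (fun t => Zp T W idx lam v y i t ω)) ∧
      (∀ i, ∃ C : ℝ, ∀ t, |Zp T W idx lam v y i t ω| ≤ C) := by
  obtain ⟨k, hk⟩ := exists_not_mem_Al T W idx ω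
  have hu : ∀ n, Continuous (fun t => ust (lam (idx n)) (y n) (y (n + 1)) (v n) (tt T n)
      (tt T (n + 1)) (fun s => W (idx n) s ω) t) := fun n =>
    continuous_ust _ _ _ _ _ _ (tt_lt_succ T hT n) _ (hW.cont _ ω) (hstep n) (hω n)
  have hz : ∀ n, Integrable (fun s => (zst (lam (idx n)) (y (n + 1)) (v n) (tt T n) (tt T (n + 1))
      (fun s => W (idx n) s ω) s) ^ 2) := fun n =>
    integrable_zst_sq _ _ _ _ _ (tt_lt_succ T hT n) _ (hW.cont _ ω) (hω n)
  have hclamp : ∀ a c : ℝ, Continuous (clamp a c) := by
    intro a c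
    unfold clamp
    exact continuous_const.max (continuous_id.min continuous_const)
  refine ⟨?_, ?_, fun i => ?_, fun i => ?_⟩
  · have h1 : (fun t => Yp T W idx lam v y t ω) = fun t => y 0 +
        ∑ n ∈ Finset.range k, Yn T W idx lam v y n t ω := by
      funext t; exact Yp_eq T W idx lam v y k ω hk t
    rw [h1]
    refine continuous_const.add (continuous_finsetSum _ fun n _ => ?_)
    by_cases hn : ω ∈ Al T W idx n
    · have h2 : (fun t => Yn T W idx lam v y n t ω) = fun t =>
          ust (lam (idx n)) (y n) (y (n + 1)) (v n) (tt T n)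
            (tt T (n + 1)) (fun s => W (idx n) s ω) t - y n := by
        funext t; unfold Yn; rw [Set.indicator_of_mem hn]
      rw [h2]
      exact (hu n).sub continuous_const
    · have h2 : (fun t => Yn T W idx lam v y n t ω) = fun t => (0 : ℝ) := by
        funext t; unfold Yn; rw [Set.indicator_of_notMem hn]
      rw [h2]
      exact continuous_const
  · have h1 : (fun t => Mp T W idx lam v y t ω) = fun t =>
        ∑ n ∈ Finset.range k, Mn T W idx lam v y n t ω := by
      funext t; exact Mp_eq T W idx lam v y k ω hk t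
    rw [h1]
    refine continuous_finsetSum _ fun n _ => ?_
    by_cases hn : ω ∈ Al T W idx n
    · have h2 : (fun t => Mn T W idx lam v y n t ω) = fun t =>
          ust (lam (idx n)) (y n) (y (n + 1)) (v n) (tt T n)
            (tt T (n + 1)) (fun s => W (idx n) s ω) t - y n +
          ∫ s in tt T n..clamp (tt T n) (tt T (n + 1)) t, lam (idx n) / 2 *
            (zst (lam (idx n)) (y (n + 1)) (v n) (tt T n) (tt T (n + 1))
              (fun s => W (idx n) s ω) s) ^ 2 := by
        funext t; unfold Mn; rw [Set.indicator_of_mem hn]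
      rw [h2]
      refine ((hu n).sub continuous_const).add ?_
      have h3 := intervalIntegral.continuous_primitive
        (fun a b => ((hz n).const_mul (lam (idx n) / 2)).intervalIntegrable (a := a) (b := b))
        (tt T n)
      exact h3.comp (hclamp _ _)
    · have h2 : (fun t => Mn T W idx lam v y n t ω) = fun t => (0 : ℝ) := by
        funext t; unfold Mn; rw [Set.indicator_of_notMem hn]
      rw [h2]
      exact continuous_const
  · have h1 : (fun t => Zp T W idx lam v y i t ω) = fun t =>
        ∑ n ∈ Finset.range k, Zn T W idx lam v y n i t ω := by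
      funext t; exact Zp_eq T W idx lam v y k ω hk i t
    rw [h1]
    refine Finset.measurable_fun_sum _ fun n _ => ?_
    by_cases hi : i = idx n
    · by_cases hn : ω ∈ Al T W idx n
      · have h2 : (fun t => Zn T W idx lam v y n i t ω) = fun t =>
            zst (lam (idx n)) (y (n + 1)) (v n) (tt T n) (tt T (n + 1))
              (fun s => W (idx n) s ω) t := by
          funext t; unfold Zn; rw [if_pos hi, Set.indicator_of_mem hn]
        rw [h2]
        exact measurable_zst _ _ _ _ _ _ (hW.cont _ ω)
      · have h2 : (fun t => Zn T W idx lam v y n i t ω) = fun t => (0 : ℝ) := by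
          funext t; unfold Zn; rw [if_pos hi, Set.indicator_of_notMem hn]
        rw [h2]
        exact measurable_const
    · have h2 : (fun t => Zn T W idx lam v y n i t ω) = fun t => (0 : ℝ) := by
        funext t; unfold Zn; rw [if_neg hi]
      rw [h2]
      exact measurable_const
  · have h0 : ∀ n, ∃ C : ℝ, ∀ t, |Zn T W idx lam v y n i t ω| ≤ C := by
      intro n
      by_cases hi : i = idx n
      · by_cases hn : ω ∈ Al T W idx n
        · obtain ⟨C, hC⟩ := bounded_zst (lam (idx n)) (y (n + 1)) (v n) (tt T n) (tt T (n + 1))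
            (tt_lt_succ T hT n) (fun s => W (idx n) s ω) (hW.cont _ ω) (hω n)
          refine ⟨C, fun t => ?_⟩
          unfold Zn
          rw [if_pos hi, Set.indicator_of_mem hn]
          exact hC t
        · refine ⟨0, fun t => ?_⟩
          unfold Zn
          rw [if_pos hi, Set.indicator_of_notMem hn, abs_zero]
      · refine ⟨0, fun t => ?_⟩
        unfold Zn
        rw [if_neg hi, abs_zero]
    choose C hC using h0
    refine ⟨∑ n ∈ Finset.range k, C n, fun t => ?_⟩
    rw [Zp_eq T W idx lam v y k ω hk i t]
    exact (Finset.abs_sum_le_sum_abs _ _).trans (Finset.sum_le_sum fun n _ => hC n t)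

end Pool.Agent.Helper807.BS
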