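import Pool.Agent.Helper807.BS.Defs

set_option autoImplicit false

namespace Pool.Agent.Helper807.BS

open MeasureTheory ProbabilityTheory Set Filter
open scoped NNReal ENNReal Topology

universe u

variable {Ω : Type u} [mΩ : MeasurableSpace Ω]

theorem prog_W (P : Measure Ω) (F : ℝ → MeasurableSpace Ω) (W : Fin 2 → ℝ → Ω → ℝ)
    (hW : CBM P F W) (T : ℝ) (i : Fin 2) : Prog T F (W i) := by
  intro t ht
  have hc : ∀ ω : Ω, Continuous fun s : Icc (0 : ℝ) t => W i s ω := fun ω =>
    (hW.cont i ω).comp continuous_subtype_val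
  have hm : ∀ s : Icc (0 : ℝ) t, Measurable[F t, borel ℝ] (W i s) := fun s =>
    (hW.adapted i s s.2.1).mono (hW.mono _ _ s.2.2) le_rfl
  exact measurable_uncurry_of_continuous_of_measurable (m := F t)
    (u := fun (s : Icc (0 : ℝ) t) ω => W i s ω) hc hm

end Pool.Agent.Helper807.BS
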