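import Pool.Agent.Helper807.BS.Defs
import Pool.Agent.Helper807.BS.DPath
import Pool.Agent.Helper807.BS.LSt2
import Pool.Agent.Helper807.BS.LProgw

set_option autoImplicit false

namespace Pool.Agent.Helper807.BS

open MeasureTheory ProbabilityTheory Set Filter
open scoped NNReal ENNReal Topology

universe u

variable {Ω : Type u} [mΩ : MeasurableSpace Ω]

theorem meas_cut (b : ℝ) (f : ℝ → ℝ → ℝ)
    (hf : ContinuousOn (fun q : ℝ × ℝ => f q.1 q.2) (Iio b ×ˢ (univ : Set ℝ))) :
    Measurable (fun q : ℝ × ℝ => if q.1 < b then f q.1 q.2 else 0) := by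
  classical
  have h1 : MeasurableSet (Iio b ×ˢ (univ : Set ℝ)) := measurableSet_Iio.prod MeasurableSet.univ
  have h2 := ContinuousOn.measurable_piecewise (g := fun _ : ℝ × ℝ => (0 : ℝ)) hf
    continuousOn_const h1
  have h3 : (fun q : ℝ × ℝ => if q.1 < b then f q.1 q.2 else 0) =
      (Iio b ×ˢ (univ : Set ℝ)).piecewise (fun q : ℝ × ℝ => f q.1 q.2) (fun _ => 0) := by
    funext q
    by_cases hq : q.1 < b
    · rw [if_pos hq, Set.piecewise_eq_of_mem]
      exact ⟨hq, mem_univ _⟩
    · rw [if_neg hq, Set.piecewise_eq_of_notMem]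
      exact fun h => hq h.1
  rw [h3]
  exact h2

theorem meas_aux {Ω' : Type u} [MeasurableSpace Ω'] (t a b c : ℝ) (w : ℝ → Ω' → ℝ)
    (hw : Measurable (fun q : Icc (0 : ℝ) t × Ω' => w q.1 q.2)) (hwa : Measurable (w a))
    (hwb : b ≤ t → Measurable (w b)) (A : Set Ω') (hA : MeasurableSet A)
    (f : ℝ → ℝ → ℝ) (g : ℝ → ℝ) (hg : Measurable g)
    (hf : ContinuousOn (fun q : ℝ × ℝ => f q.1 q.2) (Iio b ×ˢ (univ : Set ℝ))) :
    Measurable (fun q : Icc (0 : ℝ) t × Ω' => A.indicator (fun ω =>
      if (q.1 : ℝ) ≤ a then c else if (q.1 : ℝ) < b then f q.1 (w q.1 ω - w a ω)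
        else g (w b ω - w a ω)) q.2) := by
  classical
  have hm := meas_cut b f hf
  have h1 : Measurable (fun q : Icc (0 : ℝ) t × Ω' => (q.1 : ℝ)) :=
    measurable_subtype_coe.comp measurable_fst
  have h2 : Measurable (fun q : Icc (0 : ℝ) t × Ω' => w a q.2) := hwa.comp measurable_snd
  have h3 := hm.comp (h1.prodMk (hw.sub h2))
  have h4 : Measurable (fun q : Icc (0 : ℝ) t × Ω' =>
      g ((if b ≤ t then w b q.2 else 0) - w a q.2)) := by
    refine hg.comp (Measurable.sub ?_ h2)
    by_cases hbt : b ≤ t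
    · simp only [if_pos hbt]
      exact (hwb hbt).comp measurable_snd
    · simp only [if_neg hbt]
      exact measurable_const
  have h5 : Measurable (fun q : Icc (0 : ℝ) t × Ω' =>
      if q.2 ∈ A then (if (q.1 : ℝ) ≤ a then c else if (q.1 : ℝ) < b then
        (if (q.1 : ℝ) < b then f q.1 (w q.1 q.2 - w a q.2) else 0)
        else g ((if b ≤ t then w b q.2 else 0) - w a q.2)) else 0) := by
    refine Measurable.ite (measurable_snd hA) ?_ measurable_const
    refine Measurable.ite (measurableSet_le h1 measurable_const) measurable_const ?_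
    exact Measurable.ite (measurableSet_lt h1 measurable_const) h3 h4
  have h6 : (fun q : Icc (0 : ℝ) t × Ω' => A.indicator (fun ω =>
      if (q.1 : ℝ) ≤ a then c else if (q.1 : ℝ) < b then f q.1 (w q.1 ω - w a ω)
        else g (w b ω - w a ω)) q.2) = (fun q : Icc (0 : ℝ) t × Ω' =>
      if q.2 ∈ A then (if (q.1 : ℝ) ≤ a then c else if (q.1 : ℝ) < b then
        (if (q.1 : ℝ) < b then f q.1 (w q.1 q.2 - w a q.2) else 0)
        else g ((if b ≤ t then w b q.2 else 0) - w a q.2)) else 0) := by
    funext q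
    rw [Set.indicator_apply]
    by_cases hqA : q.2 ∈ A
    · rw [if_pos hqA, if_pos hqA]
      by_cases hqa : (q.1 : ℝ) ≤ a
      · rw [if_pos hqa, if_pos hqa]
      · rw [if_neg hqa, if_neg hqa]
        by_cases hqb : (q.1 : ℝ) < b
        · rw [if_pos hqb, if_pos hqb, if_pos hqb]
        · rw [if_neg hqb, if_neg hqb]
          have : b ≤ t := (not_lt.1 hqb).trans q.1.2.2
          rw [if_pos this]
    · rw [if_neg hqA, if_neg hqA]
  rw [h6]
  exact h5

theorem prog_ust (P : Measure Ω) (F : ℝ → MeasurableSpace Ω) (W : Fin 2 → ℝ → Ω → ℝ)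
    (hW : CBM P F W) (T a b : ℝ) (ha : 0 ≤ a) (hab : a < b) (j : Fin 2) (A : Set Ω)
    (hA : MeasurableSet[F a] A) (l y0 y v : ℝ) :
    Prog T F (fun t ω => A.indicator (fun ω =>
      ust l y0 y v a b (fun s => W j s ω) t - y0) ω) := by
  intro t ht
  by_cases hta : t ≤ a
  · have h0 : (fun q : Icc (0 : ℝ) t × Ω => A.indicator (fun ω =>
        ust l y0 y v a b (fun s => W j s ω) q.1 - y0) q.2) = fun _ => 0 := by
      funext q
      have hq : (q.1 : ℝ) ≤ a := q.1.2.2.trans hta
      simp only [ust, if_pos hq, sub_self, Set.indicator_zero]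
    rw [h0]
    exact measurable_const
  · have hat : a ≤ t := (not_le.1 hta).le
    have h1 := @meas_aux Ω (F t) t a b 0 (W j) (prog_W P F W hW T j t ht)
      ((hW.adapted j a ha).mono (hW.mono a t hat) le_rfl)
      (fun hbt => (hW.adapted j b (ha.trans hab.le)).mono (hW.mono b t hbt) le_rfl)
      A (hW.mono a t hat A hA) (fun s x => stu l y v b s x - y0)
      (fun x => (if 0 < x then y else v) - y0)
      ((Measurable.ite measurableSet_Ioi measurable_const measurable_const).sub measurable_const)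
      ((continuousOn_stu l y v b).sub continuousOn_const)
    have h0 : (fun q : Icc (0 : ℝ) t × Ω => A.indicator (fun ω =>
        ust l y0 y v a b (fun s => W j s ω) q.1 - y0) q.2) =
        (fun q : Icc (0 : ℝ) t × Ω => A.indicator (fun ω =>
          if (q.1 : ℝ) ≤ a then 0 else if (q.1 : ℝ) < b then
            stu l y v b q.1 (W j q.1 ω - W j a ω) - y0
          else (if 0 < W j b ω - W j a ω then y else v) - y0) q.2) := by
      funext q
      congr 1
      funext ω
      unfold ust
      by_cases hqa : (q.1 : ℝ) ≤ a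
      · rw [if_pos hqa, if_pos hqa, sub_self]
      · rw [if_neg hqa, if_neg hqa]
        by_cases hqb : (q.1 : ℝ) < b
        · rw [if_pos hqb, if_pos hqb]
        · rw [if_neg hqb, if_neg hqb]
    rw [h0]
    exact h1

theorem prog_zst (P : Measure Ω) (F : ℝ → MeasurableSpace Ω) (W : Fin 2 → ℝ → Ω → ℝ)
    (hW : CBM P F W) (T a b : ℝ) (ha : 0 ≤ a) (hab : a < b) (j : Fin 2) (A : Set Ω)
    (hA : MeasurableSet[F a] A) (l y v : ℝ) :
    Prog T F (fun t ω => A.indicator (fun ω => zst l y v a b (fun s => W j s ω) t) ω) := by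
  intro t ht
  by_cases hta : t ≤ a
  · have h0 : (fun q : Icc (0 : ℝ) t × Ω => A.indicator (fun ω =>
        zst l y v a b (fun s => W j s ω) q.1) q.2) = fun _ => 0 := by
      funext q
      have hq : ¬ (a < (q.1 : ℝ) ∧ (q.1 : ℝ) < b) := fun h =>
        absurd (q.1.2.2.trans hta) (not_le.2 h.1)
      simp only [zst, if_neg hq, Set.indicator_zero]
    rw [h0]
    exact measurable_const
  · have hat : a ≤ t := (not_le.1 hta).le
    have h1 := @meas_aux Ω (F t) t a b 0 (W j) (prog_W P F W hW T j t ht)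
      ((hW.adapted j a ha).mono (hW.mono a t hat) le_rfl)
      (fun hbt => (hW.adapted j b (ha.trans hab.le)).mono (hW.mono b t hbt) le_rfl)
      A (hW.mono a t hat A hA) (fun s x => stx l y v b s x)
      (fun _ => 0) measurable_const (continuousOn_stx l y v b)
    have h0 : (fun q : Icc (0 : ℝ) t × Ω => A.indicator (fun ω =>
        zst l y v a b (fun s => W j s ω) q.1) q.2) =
        (fun q : Icc (0 : ℝ) t × Ω => A.indicator (fun ω =>
          if (q.1 : ℝ) ≤ a then 0 else if (q.1 : ℝ) < b then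
            stx l y v b q.1 (W j q.1 ω - W j a ω)
          else 0) q.2) := by
      funext q
      congr 1
      funext ω
      unfold zst
      by_cases hqa : (q.1 : ℝ) ≤ a
      · rw [if_pos hqa, if_neg (fun h => absurd h.1 (not_lt.2 hqa))]
      · rw [if_neg hqa]
        by_cases hqb : (q.1 : ℝ) < b
        · rw [if_pos hqb, if_pos ⟨not_le.1 hqa, hqb⟩]
        · rw [if_neg hqb, if_neg (fun h => hqb h.2)]
    rw [h0]
    exact h1

end Pool.Agent.Helper807.BS
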