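import Pool.Agent.Helper807.BS.Defs

set_option autoImplicit false

namespace Pool.Agent.Helper807.BS

open MeasureTheory ProbabilityTheory Set Filter
open scoped NNReal ENNReal Topology

universe u

variable {Ω : Type u} [mΩ : MeasurableSpace Ω]

/-- a pointwise (eventually constant) sum of progressive processes is progressive -/
theorem prog_tsum (F : ℝ → MeasurableSpace Ω) (T : ℝ) (X : ℕ → ℝ → Ω → ℝ)
    (hX : ∀ n, Prog T F (X n)) (hfin : ∀ ω, ∃ k, ∀ n, k ≤ n → ∀ t, X n t ω = 0) (c : ℝ) :
    Prog T F (fun t ω => c + ∑' n, X n t ω) := by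
  intro t ht
  have hb : (borel ℝ) = (inferInstance : MeasurableSpace ℝ) :=
    (BorelSpace.measurable_eq (α := ℝ)).symm
  rw [hb]
  letI mF : MeasurableSpace Ω := F t
  have h1 : ∀ n, Measurable (fun q : Icc (0 : ℝ) t × Ω => X n q.1 q.2) := by
    intro n
    have := hX n t ht
    rw [hb] at this
    exact this
  have h2 : ∀ k : ℕ, Measurable (fun q : Icc (0 : ℝ) t × Ω =>
      c + ∑ n ∈ Finset.range k, X n q.1 q.2) := by
    intro k
    exact measurable_const.add (Finset.measurable_fun_sum _ fun n _ => h1 n)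
  refine measurable_of_tendsto_metrizable h2 ?_
  rw [tendsto_pi_nhds]
  intro q
  obtain ⟨k, hk⟩ := hfin q.2
  have h3 : HasSum (fun n => X n q.1 q.2) (∑ n ∈ Finset.range k, X n q.1 q.2) := by
    apply hasSum_sum_of_ne_finset_zero
    intro n hn
    exact hk n (by simpa using hn) _
  have h4 := h3.tendsto_sum_nat
  rw [← h3.tsum_eq] at h4
  exact h4.const_add c

end Pool.Agent.Helper807.BS
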