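import Pool.Agent.Helper807.BS.Defs
import Pool.Agent.Helper807.BS.DProc
import Pool.Agent.Helper807.BS.LAl1
import Pool.Agent.Helper807.BS.LTt
import Pool.Agent.Helper807.BS.LAl3

set_option autoImplicit false

namespace Pool.Agent.Helper807.BS

open MeasureTheory ProbabilityTheory Set Filter
open scoped NNReal ENNReal Topology

universe u

variable {Ω : Type u} [mΩ : MeasurableSpace Ω]

/-- the dominating variable is integrable -/
theorem integrable_dom (P : Measure Ω) [IsProbabilityMeasure P] (F : ℝ → MeasurableSpace Ω)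
    (W : Fin 2 → ℝ → Ω → ℝ) (hW : CBM P F W) (T : ℝ) (hT : 0 < T) (idx : ℕ → Fin 2)
    (K : ℕ → ℝ) (c : ℝ) (hK : ∀ n, 0 ≤ K n) (hs : Summable (fun n => (1 / 2 : ℝ) ^ n * K n)) :
    Integrable (fun ω => c + ∑' n, (Al T W idx n).indicator (fun _ => K n) ω) P := by
  classical
  obtain ⟨hA1, hA2, hA3⟩ := Al_facts P F W hW T hT idx
  have hAm : ∀ n, MeasurableSet (Al T W idx n) := fun n => hW.le _ _ (hA1 n)
  apply (integrable_const c).add
  have hsum : ∀ ω, Summable (fun n => (Al T W idx n).indicator (fun _ => K n) ω) := by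
    intro ω
    obtain ⟨k, hk⟩ := exists_not_mem_Al T W idx ω
    apply summable_of_ne_finset_zero (s := Finset.range k)
    intro n hn
    have hn' : k ≤ n := by simpa using hn
    exact Set.indicator_of_notMem (fun h => hk (Al_anti T W idx hn' h)) _
  have hterm : ∀ n, Measurable (fun ω => (Al T W idx n).indicator (fun _ => K n) ω) :=
    fun n => (measurable_const (a := K n)).indicator (hAm n)
  have hnn : ∀ n ω, 0 ≤ (Al T W idx n).indicator (fun _ => K n) ω :=
    fun n ω => Set.indicator_nonneg (fun _ _ => hK n) ω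
  have hmeas : Measurable (fun ω => ∑' n, (Al T W idx n).indicator (fun _ => K n) ω) := by
    refine measurable_of_tendsto_metrizable (f := fun (N : ℕ) (ω : Ω) =>
      ∑ n ∈ Finset.range N, (Al T W idx n).indicator (fun _ => K n) ω) (fun N =>
      Finset.measurable_fun_sum _ (fun n _ => hterm n)) ?_
    rw [tendsto_pi_nhds]
    intro ω
    exact (hsum ω).hasSum.tendsto_sum_nat
  refine ⟨hmeas.aestronglyMeasurable, ?_⟩
  rw [hasFiniteIntegral_iff_ofReal
    (Filter.Eventually.of_forall (fun ω => tsum_nonneg (fun n => hnn n ω)))]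
  have h1 : ∀ ω, ENNReal.ofReal (∑' n, (Al T W idx n).indicator (fun _ => K n) ω) =
      ∑' n, (Al T W idx n).indicator (fun _ => ENNReal.ofReal (K n)) ω := by
    intro ω
    rw [ENNReal.ofReal_tsum_of_nonneg (fun n => hnn n ω) (hsum ω)]
    congr 1
    funext n
    by_cases h : ω ∈ Al T W idx n
    · rw [Set.indicator_of_mem h, Set.indicator_of_mem h]
    · rw [Set.indicator_of_notMem h, Set.indicator_of_notMem h, ENNReal.ofReal_zero]
  simp only [h1]
  rw [lintegral_tsum (fun n => ((measurable_const).indicator (hAm n)).aemeasurable)]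
  have h2 : ∀ n, ∫⁻ ω, (Al T W idx n).indicator (fun _ => ENNReal.ofReal (K n)) ω ∂P ≤
      ENNReal.ofReal ((1 / 2 : ℝ) ^ n * K n) := by
    intro n
    rw [lintegral_indicator (hAm n), setLIntegral_const,
      ENNReal.ofReal_mul (by positivity), mul_comm]
    gcongr
    refine (hA2 n).trans (le_of_eq ?_)
    rw [ENNReal.ofReal_pow (by norm_num)]
    congr 1
    rw [ENNReal.ofReal_div_of_pos (by norm_num)]
    simp
  refine (ENNReal.tsum_le_tsum h2).trans_lt ?_
  rw [← ENNReal.ofReal_tsum_of_nonneg (fun n => mul_nonneg (by positivity) (hK n)) hs]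
  exact ENNReal.ofReal_lt_top

end Pool.Agent.Helper807.BS
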