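import Pool.Agent.Helper807.BS.Defs
import Pool.Agent.Helper807.BS.DProc
import Pool.Agent.Helper807.BS.LAl1
import Pool.Agent.Helper807.BS.LTt
import Pool.Agent.Helper807.BS.LFin

set_option autoImplicit false

namespace Pool.Agent.Helper807.BS

open MeasureTheory ProbabilityTheory Set Filter
open scoped NNReal ENNReal Topology

universe u

variable {Ω : Type u} [mΩ : MeasurableSpace Ω]

theorem ust_T (T : ℝ) (hT : 0 < T) (l y0 y v : ℝ) (n : ℕ) (w : ℝ → ℝ) :
    ust l y0 y v (tt T n) (tt T (n + 1)) w T =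
      if 0 < w (tt T (n + 1)) - w (tt T n) then y else v := by
  unfold ust
  rw [if_neg (not_le.mpr (tt_lt T hT n)), if_neg (not_lt.mpr (tt_lt T hT (n + 1)).le)]

theorem Al_mem_mono (T : ℝ) (W : Fin 2 → ℝ → Ω → ℝ) (idx : ℕ → Fin 2) (ω : Ω) (m n : ℕ)
    (h : m ≤ n) (hn : ω ∈ Al T W idx n) : ω ∈ Al T W idx m := Al_anti T W idx h hn

/-- the terminal value of `Y` -/
theorem Yp_T (T : ℝ) (hT : 0 < T) (W : Fin 2 → ℝ → Ω → ℝ) (idx : ℕ → Fin 2)
    (lam : Fin 2 → ℝ) (v y : ℕ → ℝ) (ω : Ω) (h0 : ω ∈ Al T W idx 0) :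
    Yp T W idx lam v y T ω = xi T W idx v ω := by
  classical
  have hex := exists_not_mem_Al T W idx ω
  obtain ⟨N, hN, hN1⟩ : ∃ N, ω ∈ Al T W idx N ∧ ω ∉ Al T W idx (N + 1) := by
    have h1 := Nat.find_spec hex
    have h2 : Nat.find hex ≠ 0 := by
      intro h
      rw [h] at h1
      exact h1 h0
    obtain ⟨N, hN⟩ := Nat.exists_eq_succ_of_ne_zero h2
    refine ⟨N, ?_, ?_⟩
    · by_contra hc
      have := Nat.find_min' hex hc
      omega
    · rw [hN] at h1
      exact h1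
  rw [Yp_eq T W idx lam v y (N + 1) ω hN1 T, Finset.sum_range_succ]
  have hA : ∀ n < N, Yn T W idx lam v y n T ω = y (n + 1) - y n := by
    intro n hn
    have h1 : ω ∈ Al T W idx (n + 1) := Al_mem_mono T W idx ω (n + 1) N hn hN
    have h2 := (Al_succ_iff T W idx n ω).mp h1
    unfold Yn
    rw [Set.indicator_of_mem h2.1, ust_T T hT, if_pos h2.2]
  have hB : Yn T W idx lam v y N T ω = v N - y N := by
    unfold Yn
    rw [Set.indicator_of_mem hN, ust_T T hT, if_neg]
    intro h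
    exact hN1 ((Al_succ_iff T W idx N ω).mpr ⟨hN, h⟩)
  rw [Finset.sum_congr rfl (fun n hn => hA n (Finset.mem_range.mp hn)), hB,
    Finset.sum_range_sub]
  unfold xi
  rw [tsum_eq_single N]
  · rw [Set.indicator_of_mem (show ω ∈ Al T W idx N \ Al T W idx (N + 1) from ⟨hN, hN1⟩)]
    ring
  · intro n hn
    apply Set.indicator_of_notMem
    rintro ⟨h1, h2⟩
    rcases lt_or_gt_of_ne hn with h | h
    · exact h2 (Al_mem_mono T W idx ω (n + 1) N h hN)
    · exact hN1 (Al_mem_mono T W idx ω (N + 1) n h h1)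

end Pool.Agent.Helper807.BS
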