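import Pool.Agent.Helper807.BS.Defs
import Pool.Agent.Helper807.BS.DProc
import Pool.Agent.Helper807.BS.LAl1
import Pool.Agent.Helper807.BS.LTt
import Pool.Agent.Helper807.BS.LAl3

set_option autoImplicit false

namespace Pool.Agent.Helper807.BS

open MeasureTheory ProbabilityTheory Set Filter
open scoped NNReal ENNReal Topology

universe u

variable {Ω : Type u} [mΩ : MeasurableSpace Ω]

/-- the terminal value is measurable -/
theorem measurable_xi (P : Measure Ω) [IsProbabilityMeasure P] (F : ℝ → MeasurableSpace Ω)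
    (W : Fin 2 → ℝ → Ω → ℝ) (hW : CBM P F W) (T : ℝ) (hT : 0 < T) (idx : ℕ → Fin 2)
    (v : ℕ → ℝ) : Measurable[F T, borel ℝ] (xi T W idx v) := by
  classical
  have hAm : ∀ n, MeasurableSet[F T] (Al T W idx n) := fun n =>
    hW.mono _ _ (tt_lt T hT n).le _ ((Al_facts P F W hW T hT idx).1 n)
  have hterm : ∀ n, Measurable[F T, borel ℝ]
      (fun ω => (Al T W idx n \ Al T W idx (n + 1)).indicator (fun _ => v n) ω) := by
    intro n
    exact (measurable_const (a := v n)).indicator ((hAm n).diff (hAm (n + 1)))
  have hlim : Tendsto (fun (N : ℕ) (ω : Ω) => ∑ n ∈ Finset.range N,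
      (Al T W idx n \ Al T W idx (n + 1)).indicator (fun _ => v n) ω) atTop
      (𝓝 (xi T W idx v)) := by
    rw [tendsto_pi_nhds]
    intro ω
    obtain ⟨k, hk⟩ := exists_not_mem_Al T W idx ω
    have hz : ∀ n, n ∉ Finset.range k →
        (Al T W idx n \ Al T W idx (n + 1)).indicator (fun _ => v n) ω = 0 := by
      intro n hn
      have hn' : k ≤ n := by simpa using hn
      apply Set.indicator_of_notMem
      rintro ⟨h1, h2⟩
      exact hk (Al_anti T W idx hn' h1)
    have hs : Summable (fun n => (Al T W idx n \ Al T W idx (n + 1)).indicator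
        (fun _ => v n) ω) := summable_of_ne_finset_zero (s := Finset.range k) hz
    exact hs.hasSum.tendsto_sum_nat
  refine @measurable_of_tendsto_metrizable Ω ℝ (F T) _ _ _ _ _ _ (fun N => ?_) hlim
  exact Finset.measurable_fun_sum _ (fun n _ => hterm n)

end Pool.Agent.Helper807.BS
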