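import Pool.Agent.Helper807.BS.Defs
import Pool.Agent.Helper807.BS.DProc
import Pool.Agent.Helper807.BS.LAl1
import Pool.Agent.Helper807.BS.LTt
import Pool.Agent.Helper807.BS.LAl2
import Pool.Agent.Helper807.BS.LAl3
import Pool.Agent.Helper807.BS.LFin
import Pool.Agent.Helper807.BS.LBnd
import Pool.Agent.Helper807.BS.LXi
import Pool.Agent.Helper807.BS.LXim
import Pool.Agent.Helper807.BS.LSint
import Pool.Agent.Helper807.BS.LPathall
import Pool.Agent.Helper807.BS.LEqn
import Pool.Agent.Helper807.BS.LItop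
import Pool.Agent.Helper807.BS.LProgst
import Pool.Agent.Helper807.BS.LProgsum
import Pool.Agent.Helper807.BS.LClassd
import Pool.Agent.Helper807.BS.LCbmgood
import Pool.Agent.Helper807.BS.LCongr

set_option autoImplicit false

namespace Pool.Agent.Helper807.BS

open MeasureTheory ProbabilityTheory Set Filter
open scoped NNReal ENNReal Topology

universe u

variable {Ω : Type u} [mΩ : MeasurableSpace Ω]

theorem engine_fin (T : ℝ) (W : Fin 2 → ℝ → Ω → ℝ) (idx : ℕ → Fin 2) (ω : Ω) :
    ∃ k, ∀ n, k ≤ n → ω ∉ Al T W idx n := by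
  obtain ⟨k, hk⟩ := exists_not_mem_Al T W idx ω
  exact ⟨k, fun n hn h => hk (Al_anti T W idx hn h)⟩

theorem engine_progY (P : Measure Ω) [IsProbabilityMeasure P] (F : ℝ → MeasurableSpace Ω)
    (W : Fin 2 → ℝ → Ω → ℝ) (hW : CBM P F W) (T : ℝ) (hT : 0 < T) (idx : ℕ → Fin 2)
    (lam : Fin 2 → ℝ) (v y : ℕ → ℝ) : Prog T F (Yp T W idx lam v y) := by
  refine prog_tsum F T (fun n => Yn T W idx lam v y n) ?_ ?_ (y 0)
  · intro n
    exact prog_ust P F W hW T (tt T n) (tt T (n + 1)) (tt_nonneg T hT n) (tt_lt_succ T hT n) (idx n)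
      (Al T W idx n) ((Al_facts P F W hW T hT idx).1 n) (lam (idx n)) (y n) (y (n + 1)) (v n)
  · intro ω
    obtain ⟨k, hk⟩ := engine_fin T W idx ω
    refine ⟨k, fun n hn t => ?_⟩
    unfold Yn
    exact Set.indicator_of_notMem (hk n hn) _

theorem engine_progZ (P : Measure Ω) [IsProbabilityMeasure P] (F : ℝ → MeasurableSpace Ω)
    (W : Fin 2 → ℝ → Ω → ℝ) (hW : CBM P F W) (T : ℝ) (hT : 0 < T) (idx : ℕ → Fin 2)
    (lam : Fin 2 → ℝ) (v y : ℕ → ℝ) (i : Fin 2) : Prog T F (Zp T W idx lam v y i) := by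
  have h := prog_tsum F T (fun n => Zn T W idx lam v y n i) (by
    intro n
    by_cases hi : i = idx n
    · have h1 := prog_zst P F W hW T (tt T n) (tt T (n + 1)) (tt_nonneg T hT n) (tt_lt_succ T hT n)
        (idx n) (Al T W idx n) ((Al_facts P F W hW T hT idx).1 n) (lam (idx n)) (y (n + 1)) (v n)
      have h2 : Zn T W idx lam v y n i = fun t ω => (Al T W idx n).indicator (fun ω =>
          zst (lam (idx n)) (y (n + 1)) (v n) (tt T n) (tt T (n + 1))
            (fun s => W (idx n) s ω) t) ω := by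
        funext t ω
        unfold Zn
        rw [if_pos hi]
      rw [h2]
      exact h1
    · have h2 : Zn T W idx lam v y n i = fun _ _ => 0 := by
        funext t ω
        unfold Zn
        rw [if_neg hi]
      rw [h2]
      intro t _
      exact measurable_const) (by
    intro ω
    obtain ⟨k, hk⟩ := engine_fin T W idx ω
    refine ⟨k, fun n hn t => ?_⟩
    unfold Zn
    split
    · exact Set.indicator_of_notMem (hk n hn) _
    · rfl) 0
  have h3 : (fun t ω => (0 : ℝ) + ∑' n, Zn T W idx lam v y n i t ω) = Zp T W idx lam v y i := by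
    funext t ω
    rw [zero_add]; rfl
  rwa [h3] at h

/-- The common engine: for any parameters there is a terminal value `ξ` such that every
admissible sequence `y` gives a solution started at `y 0`. -/
theorem engine (P : Measure Ω) [IsProbabilityMeasure P] (B : Fin 2 → ℝ≥0 → Ω → ℝ)
    (hB : IsBM2 B P) (T : ℝ) (hT : 0 < T) (idx : ℕ → Fin 2) (lam : Fin 2 → ℝ) (v : ℕ → ℝ) :
    ∃ ξ : Ω → ℝ, Measurable[Fil B P T, borel ℝ] ξ ∧
      ∀ y : ℕ → ℝ, (∀ n, y n = Gf (lam (idx n)) (y (n + 1)) (v n) (1 / 2)) →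
        ∃ (Y : ℝ → Ω → ℝ) (Z : Fin 2 → ℝ → Ω → ℝ),
          IsSol T P B (fun z => ∑ i, lam i / 2 * (z i) ^ 2) ξ Y Z ∧
          (∀ ω, Y 0 ω = y 0) ∧
          ∀ m : ℝ, 0 < m → Summable (fun n => (1 / 2 : ℝ) ^ n *
              Real.exp (m * max (max |y n| |y (n + 1)|) |v n|)) →
            ClassD T P (Fil B P) (fun t ω => Real.exp (m * |Y t ω|)) ∧
            Integrable (fun ω => Real.exp (m * |ξ ω|)) P := by
  obtain ⟨W, hW, hWB, hgood⟩ := exists_cbm_good P B hB T hT idx
  refine ⟨xi T W idx v, measurable_xi P (Fil B P) W hW T hT idx v, ?_⟩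
  intro y hy
  have hal := (Al_facts P (Fil B P) W hW T hT idx).2.2
  have hpa := fun ω => path_facts_of P (Fil B P) W hW T hT idx lam v y hy ω (hgood ω)
  have hpf := Filter.Eventually.of_forall (f := ae P) hpa
  have hprogY := engine_progY P (Fil B P) W hW T hT idx lam v y
  refine ⟨Yp T W idx lam v y, Zp T W idx lam v y, ?_, fun ω => Yp_zero T hT W idx lam v y ω, ?_⟩
  · refine ⟨hprogY, fun i => engine_progZ P (Fil B P) W hW T hT idx lam v y i, ?_, ?_,
      Mp T W idx lam v y, ?_, ?_, ?_⟩
    · exact fun ω => (hpa ω).1.continuousOn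
    · filter_upwards [hpf] with ω hω
      obtain ⟨-, -, -, hb⟩ := hω
      choose C hC using hb
      have hle : ∀ s, ENNReal.ofReal (∑ i, (Zp T W idx lam v y i s ω) ^ 2) ≤
          ENNReal.ofReal (∑ i, (C i) ^ 2) := by
        intro s
        apply ENNReal.ofReal_le_ofReal
        apply Finset.sum_le_sum
        intro i _
        rw [← sq_abs]
        exact pow_le_pow_left₀ (abs_nonneg _) (hC i s) 2
      calc ∫⁻ s in Icc (0 : ℝ) T, ENNReal.ofReal (∑ i, (Zp T W idx lam v y i s ω) ^ 2)
          ≤ ∫⁻ _ in Icc (0 : ℝ) T, ENNReal.ofReal (∑ i, (C i) ^ 2) := lintegral_mono hle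
        _ = ENNReal.ofReal (∑ i, (C i) ^ 2) * volume (Icc (0 : ℝ) T) := by
            rw [setLIntegral_const]
        _ < ∞ := by
            rw [Real.volume_Icc]
            exact ENNReal.mul_lt_top ENNReal.ofReal_lt_top ENNReal.ofReal_lt_top
    · exact isIto_congr_W T P (Fil B P) W (bt B) _ _ hT.le (fun i t _ => hWB i t)
        (isIto_Mp P (Fil B P) W hW T hT idx lam v y hy)
    · filter_upwards [hpf] with ω hω
      exact hω.2.1.continuousOn
    · filter_upwards [hpf, hal, eqn_M P (Fil B P) W hW T hT idx lam v y] with ω hω h0 hM t ht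
      obtain ⟨-, -, hmeas, hb⟩ := hω
      choose C hC using hb
      have hYT := Yp_T T hT W idx lam v y ω h0
      have hint : ∀ a b : ℝ, IntervalIntegrable
          (fun s => ∑ i, lam i / 2 * (Zp T W idx lam v y i s ω) ^ 2) volume a b := by
        intro a b
        rw [intervalIntegrable_iff]
        refine Measure.integrableOn_of_bounded (M := ∑ i, |lam i / 2| * (C i) ^ 2) ?_ ?_ ?_
        · rw [Set.uIoc, Real.volume_Ioc]
          exact ENNReal.ofReal_ne_top
        · apply Measurable.aestronglyMeasurable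
          exact Finset.measurable_fun_sum _ (fun i _ => ((hmeas i).pow_const 2).const_mul _)
        · refine Filter.Eventually.of_forall (fun s => ?_)
          rw [Real.norm_eq_abs]
          refine (Finset.abs_sum_le_sum_abs _ _).trans (Finset.sum_le_sum fun i _ => ?_)
          rw [abs_mul]
          apply mul_le_mul_of_nonneg_left _ (abs_nonneg _)
          rw [abs_of_nonneg (sq_nonneg _), ← sq_abs]
          exact pow_le_pow_left₀ (abs_nonneg _) (hC i s) 2
      have h1 := hM t ht
      have h2 := hM T ⟨hT.le, le_rfl⟩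
      have h3 := intervalIntegral.integral_interval_sub_left (hint 0 T) (hint 0 t)
      rw [← hYT]
      have h4 : (∫ s in t..T, (fun z : Fin 2 → ℝ => ∑ i, lam i / 2 * (z i) ^ 2)
          (fun i => Zp T W idx lam v y i s ω)) =
          ∫ s in t..T, ∑ i, lam i / 2 * (Zp T W idx lam v y i s ω) ^ 2 := rfl
      rw [h4, ← h3, h1, h2]
      ring
  · intro m hm hs
    set S : Ω → ℝ := fun ω => Real.exp (m * |y 0|) +
      ∑' n, (Al T W idx n).indicator
        (fun _ => Real.exp (m * max (max |y n| |y (n + 1)|) |v n|)) ω with hS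
    have hSi : Integrable S P := integrable_dom P (Fil B P) W hW T hT idx
      (fun n => Real.exp (m * max (max |y n| |y (n + 1)|) |v n|)) (Real.exp (m * |y 0|))
      (fun n => (Real.exp_pos _).le) hs
    have hcont : Continuous (fun x : ℝ => Real.exp (m * |x|)) := by fun_prop
    constructor
    · refine classD_of_dominated P (Fil B P) hW.le hW.mono T hT.le _ ?_ S hSi ?_
      · intro t ht
        exact hcont.measurable.comp (hprogY t ht)
      · intro t _ ω
        rw [abs_of_pos (Real.exp_pos _)]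
        exact Yp_bound T hT W idx lam v y m hm.le t ω
    · have hxm : Measurable (xi T W idx v) :=
        (measurable_xi P (Fil B P) W hW T hT idx v).mono (hW.le T) le_rfl
      refine Integrable.mono' hSi (hcont.measurable.comp hxm).aestronglyMeasurable ?_
      filter_upwards [hal] with ω h0
      rw [Real.norm_eq_abs, abs_of_pos (Real.exp_pos _), ← Yp_T T hT W idx lam v y ω h0]
      exact Yp_bound T hT W idx lam v y m hm.le T ω

end Pool.Agent.Helper807.BS
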