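import Pool.Agent.Helper807.BS.Defs
import Pool.Agent.Helper807.BS.DProc
import Pool.Agent.Helper807.BS.LAl1
import Pool.Agent.Helper807.BS.LTt
import Pool.Agent.Helper807.BS.LAl2
import Pool.Agent.Helper807.BS.LAl3
import Pool.Agent.Helper807.BS.LPath
import Pool.Agent.Helper807.BS.LFin
import Pool.Agent.Helper807.BS.LAdd
import Pool.Agent.Helper807.BS.LDiag
import Pool.Agent.Helper41.BS.Stage

set_option autoImplicit false

namespace Pool.Agent.Helper807.BS

open MeasureTheory ProbabilityTheory Set Filter
open scoped NNReal ENNReal Topology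

universe u

variable {Ω : Type u} [mΩ : MeasurableSpace Ω]

/-- `Mp` is the Ito integral of `Zp` -/
theorem isIto_Mp (P : Measure Ω) [IsProbabilityMeasure P] (F : ℝ → MeasurableSpace Ω)
    (W : Fin 2 → ℝ → Ω → ℝ) (hW : CBM P F W) (T : ℝ) (hT : 0 < T) (idx : ℕ → Fin 2)
    (lam : Fin 2 → ℝ) (v y : ℕ → ℝ)
    (hstep : ∀ n, y n = Gf (lam (idx n)) (y (n + 1)) (v n) (1 / 2)) :
    IsIto T P F W (Zp T W idx lam v y) (Mp T W idx lam v y) := by
  obtain ⟨hAm, hAP, -⟩ := Al_facts P F W hW T hT idx
  have hZm : ∀ n i ω, Measurable (fun s => Zn T W idx lam v y n i s ω) := by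
    intro n i ω
    have hm := measurable_zst (lam (idx n)) (y (n + 1)) (v n) (tt T n) (tt T (n + 1))
      (fun s => W (idx n) s ω) (hW.cont (idx n) ω)
    unfold Zn
    by_cases hi : i = idx n
    · simp only [hi, if_true]
      by_cases hω : ω ∈ Al T W idx n
      · simp only [Set.indicator_of_mem hω]
        exact hm
      · simp only [Set.indicator_of_notMem hω]
        exact measurable_const
    · simp only [hi, if_false]
      exact measurable_const
  have hmeas : ∀ (k : ℕ) (i : Fin 2) (ω : Ω),
      Measurable (fun s => ∑ n ∈ Finset.range k, Zn T W idx lam v y n i s ω) := by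
    intro k i ω
    exact Finset.measurable_fun_sum _ fun n _ => hZm n i ω
  have hstage : ∀ n, IsIto T P F W (Zn T W idx lam v y n) (Mn T W idx lam v y n) := by
    intro n
    exact ito_stage P F W hW T (tt T n) (tt T (n + 1)) (tt_nonneg T hT n) (tt_lt_succ T hT n)
      (tt_lt T hT (n + 1)).le (idx n) (Al T W idx n) (hAm n) (lam (idx n)) (y n) (y (n + 1)) (v n)
      (hstep n) (increment_ne_zero P F W hW (idx n) _ _ (tt_nonneg T hT n) (tt_lt_succ T hT n))
  have hito : ∀ k, IsIto T P F W (fun i t ω => ∑ n ∈ Finset.range k, Zn T W idx lam v y n i t ω)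
      (fun t ω => ∑ n ∈ Finset.range k, Mn T W idx lam v y n t ω) := by
    intro k
    induction k with
    | zero =>
      simp only [Finset.range_zero, Finset.sum_empty]
      exact isIto_zero T P F W
    | succ k ih =>
      simp only [Finset.sum_range_succ]
      exact isIto_add T P F W _ _ _ _ (fun i ω => hmeas k i ω) ih (hstage k)
  have hlim : Tendsto (fun k : ℕ => ((1 / 2 : ℝ≥0∞)) ^ k) atTop (𝓝 0) := by
    refine ENNReal.tendsto_pow_atTop_nhds_zero_of_lt_one ?_
    rw [one_div]
    exact ENNReal.inv_lt_one.2 (by norm_num)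
  refine isIto_diag T P F W _ _ _ _ hmeas hito ?_ ?_
  · intro ε hε
    refine tendsto_of_tendsto_of_tendsto_of_le_of_le tendsto_const_nhds hlim (fun _ => zero_le)
      (fun k => ?_)
    refine (measure_mono ?_).trans (hAP k)
    intro ω hω
    by_contra hn
    have h0 : ∀ (i : Fin 2) (s : ℝ), (∑ n ∈ Finset.range k, Zn T W idx lam v y n i s ω) -
        Zp T W idx lam v y i s ω = 0 := fun i s => by
      rw [Zp_eq T W idx lam v y k ω hn i s, sub_self]
    simp only [Set.mem_ofPred_eq, h0] at hω
    simp at hω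
    linarith
  · intro ε hε
    refine tendsto_of_tendsto_of_tendsto_of_le_of_le tendsto_const_nhds hlim (fun _ => zero_le)
      (fun k => ?_)
    refine iSup₂_le fun t _ => ?_
    refine (measure_mono ?_).trans (hAP k)
    intro ω hω
    by_contra hn
    have h0 : (∑ n ∈ Finset.range k, Mn T W idx lam v y n t ω) -
        Mp T W idx lam v y t ω = 0 := by
      rw [Mp_eq T W idx lam v y k ω hn t, sub_self]
    simp only [Set.mem_ofPred_eq, h0, abs_zero] at hω
    linarith

end Pool.Agent.Helper807.BS
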