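import Pool.Agent.Helper807.BS.Defs
import Pool.Agent.Helper807.BS.DG

set_option autoImplicit false

namespace Pool.Agent.Helper807.BS

open MeasureTheory ProbabilityTheory Set Filter
open scoped NNReal ENNReal Topology

universe u

variable {Ω : Type u} [mΩ : MeasurableSpace Ω]

/-- the constants -/
noncomputable def c10094 (k : ℕ) : ℝ := 1 / (64 * ((k : ℝ) + 1) * ((k : ℝ) + 2))

theorem c_pos10094 (k : ℕ) : 0 < c10094 k := by
  unfold c10094; positivity

theorem c_le10094 (k : ℕ) : c10094 k ≤ 1 / 128 := by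
  unfold c10094
  apply one_div_le_one_div_of_le (by norm_num)
  have : (0 : ℝ) ≤ k := Nat.cast_nonneg k
  nlinarith

theorem c_tel10094 (k : ℕ) : c10094 k = (1 / 64) * (1 / ((k : ℝ) + 1) - 1 / ((k : ℝ) + 2)) := by
  unfold c10094
  have h1 : ((k : ℝ) + 1) ≠ 0 := by positivity
  have h2 : ((k : ℝ) + 2) ≠ 0 := by positivity
  field_simp
  ring

/-- the values at even times -/
noncomputable def xs10094 (x0 : ℝ) : ℕ → ℝ
  | 0 => x0
  | k + 1 => (xs10094 x0 k - c10094 k / 2) / (1 - c10094 k * (xs10094 x0 k - c10094 k / 2))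

theorem xs_bound10094 (x0 : ℝ) (h2 : 2 ≤ x0) (h3 : x0 ≤ 3) (k : ℕ) :
    |xs10094 x0 k - x0| ≤ (1 / 4) * (1 - 1 / ((k : ℝ) + 1)) := by
  induction k with
  | zero => simp [xs10094]
  | succ k ih =>
    have hk : (0 : ℝ) < 1 / ((k : ℝ) + 1) := by positivity
    have hc0 := c_pos10094 k
    have hc1 := c_le10094 k
    have hct := c_tel10094 k
    rw [abs_le] at ih
    rw [xs10094]
    set x := xs10094 x0 k with hx
    set c := c10094 k with hc
    have hx1 : x ≤ 13 / 4 := by linarith [ih.2]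
    have hx2 : 7 / 4 ≤ x := by linarith [ih.1]
    have ha1 : x - c / 2 ≤ 13 / 4 := by linarith
    have ha2 : 1 ≤ x - c / 2 := by linarith
    set a := x - c / 2 with ha
    have hca : c * a ≤ 13 / 512 := by nlinarith
    have hca0 : 0 < c * a := by positivity
    have hd : 0 < 1 - c * a := by linarith
    have hlow : a ≤ a / (1 - c * a) := by
      rw [le_div_iff₀ hd]
      nlinarith
    have hupp : a / (1 - c * a) ≤ a + 16 * c := by
      rw [div_le_iff₀ hd]
      have : 0 ≤ c * (16 - a ^ 2 - 16 * (c * a)) := by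
        apply mul_nonneg hc0.le
        nlinarith
      nlinarith
    have e : 16 * c = (1 / 4) * (1 / ((k : ℝ) + 1) - 1 / ((k : ℝ) + 2)) := by
      rw [hct]; ring
    have e2 : ((k + 1 : ℕ) : ℝ) + 1 = (k : ℝ) + 2 := by push_cast; ring
    rw [e2, abs_le]
    constructor
    · linarith [ih.1]
    · linarith [ih.2]

theorem xs_range10094 (x0 : ℝ) (h2 : 2 ≤ x0) (h3 : x0 ≤ 3) (k : ℕ) :
    7 / 4 ≤ xs10094 x0 k ∧ xs10094 x0 k ≤ 13 / 4 := by
  have h := xs_bound10094 x0 h2 h3 k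
  have hk : (0 : ℝ) < 1 / ((k : ℝ) + 1) := by positivity
  rw [abs_le] at h
  constructor
  · linarith [h.1]
  · linarith [h.2]

/-- the values of `exp (2 y)` -/
noncomputable def X10094 (x0 : ℝ) (n : ℕ) : ℝ :=
  if n % 2 = 0 then xs10094 x0 (n / 2) else 2 * xs10094 x0 (n / 2) - c10094 (n / 2)

/-- the sequence `y` -/
noncomputable def Y10094 (x0 : ℝ) (n : ℕ) : ℝ := 1 / 2 * Real.log (X10094 x0 n)

/-- the sequence `v` -/
noncomputable def V10094 (n : ℕ) : ℝ :=
  if n % 2 = 0 then 1 / 2 * Real.log (c10094 (n / 2)) else -(1 / 2 * Real.log (c10094 (n / 2)))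

theorem X_range10094 (x0 : ℝ) (h2 : 2 ≤ x0) (h3 : x0 ≤ 3) (n : ℕ) :
    1 ≤ X10094 x0 n ∧ X10094 x0 n ≤ 13 / 2 := by
  obtain ⟨h4, h5⟩ := xs_range10094 x0 h2 h3 (n / 2)
  have h6 := c_pos10094 (n / 2)
  have h7 := c_le10094 (n / 2)
  unfold X10094
  split_ifs
  · constructor <;> linarith
  · constructor <;> linarith

theorem exp_half10094 (t : ℝ) (ht : 0 < t) : Real.exp (2 * (1 / 2 * Real.log t)) = t := by
  rw [show 2 * (1 / 2 * Real.log t) = Real.log t by ring, Real.exp_log ht]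

theorem Y_eq10094 (x0 : ℝ) (h2 : 2 ≤ x0) (h3 : x0 ≤ 3) (n : ℕ) :
    Y10094 x0 n = Gf ((![2, -2] : Fin 2 → ℝ) (if n % 2 = 0 then 0 else 1)) (Y10094 x0 (n + 1))
      (V10094 n) (1 / 2) := by
  have hc0 := c_pos10094 (n / 2)
  have hc1 := c_le10094 (n / 2)
  obtain ⟨h4, h5⟩ := xs_range10094 x0 h2 h3 (n / 2)
  have hXp : 0 < X10094 x0 (n + 1) := lt_of_lt_of_le one_pos (X_range10094 x0 h2 h3 (n + 1)).1
  by_cases hn : n % 2 = 0
  · rw [if_pos hn]
    have e1 : (n + 1) % 2 = 1 := by omega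
    have e2 : (n + 1) / 2 = n / 2 := by omega
    show _ = Gf 2 _ _ _
    unfold Gf
    rw [if_neg (by norm_num)]
    unfold Y10094
    rw [exp_half10094 _ hXp]
    unfold X10094 V10094
    rw [if_pos hn, if_pos hn, if_neg (by omega), e2, exp_half10094 _ hc0]
    rw [show (1 - 1 / 2 : ℝ) * c10094 (n / 2) + 1 / 2 * (2 * xs10094 x0 (n / 2) - c10094 (n / 2)) =
      xs10094 x0 (n / 2) by ring]
    ring
  · rw [if_neg hn]
    have e1 : (n + 1) % 2 = 0 := by omega
    have e2 : (n + 1) / 2 = n / 2 + 1 := by omega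
    show _ = Gf (-2) _ _ _
    unfold Gf
    rw [if_neg (by norm_num)]
    have e3 : Real.exp (-2 * Y10094 x0 (n + 1)) = (X10094 x0 (n + 1))⁻¹ := by
      unfold Y10094
      rw [show -2 * (1 / 2 * Real.log (X10094 x0 (n + 1))) =
        -(2 * (1 / 2 * Real.log (X10094 x0 (n + 1)))) by ring, Real.exp_neg, exp_half10094 _ hXp]
    have e4 : Real.exp (-2 * V10094 n) = c10094 (n / 2) := by
      unfold V10094
      rw [if_neg hn, show -2 * -(1 / 2 * Real.log (c10094 (n / 2))) =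
        2 * (1 / 2 * Real.log (c10094 (n / 2))) by ring, exp_half10094 _ hc0]
    rw [e3, e4]
    unfold Y10094 X10094
    rw [if_pos e1, if_neg hn, e2, xs10094]
    set x := xs10094 x0 (n / 2) with hx
    set c := c10094 (n / 2) with hc
    have ha1 : x - c / 2 ≤ 13 / 4 := by linarith
    have ha2 : 1 ≤ x - c / 2 := by linarith
    have hca : c * (x - c / 2) ≤ 13 / 512 := by nlinarith
    have hd : 0 < 1 - c * (x - c / 2) := by linarith
    have e5 : (1 - 1 / 2 : ℝ) * c + 1 / 2 * ((x - c / 2) / (1 - c * (x - c / 2)))⁻¹ =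
        (2 * x - c)⁻¹ := by
      have h6 : x - c / 2 ≠ 0 := by linarith
      have h7 : 2 * x - c ≠ 0 := by
        intro h; apply h6; linarith
      rw [inv_div]
      rw [show (2 * x - c) = 2 * (x - c / 2) by ring]
      field_simp
      ring
    rw [e5, Real.log_inv]
    ring

theorem Y_bound10094 (x0 : ℝ) (h2 : 2 ≤ x0) (h3 : x0 ≤ 3) (n : ℕ) : |Y10094 x0 n| ≤ 1 := by
  obtain ⟨h4, h5⟩ := X_range10094 x0 h2 h3 n
  have h6 : 0 ≤ Real.log (X10094 x0 n) := Real.log_nonneg h4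
  have h7 : Real.log (X10094 x0 n) ≤ 2 := by
    rw [Real.log_le_iff_le_exp (by linarith)]
    have h8 : Real.exp 2 = Real.exp 1 * Real.exp 1 := by rw [← Real.exp_add]; norm_num
    have h9 := Real.exp_one_gt_d9
    rw [h8]
    nlinarith
  unfold Y10094
  rw [abs_of_nonneg (by positivity)]
  linarith

theorem V_bound10094 (n : ℕ) : |V10094 n| ≤ Real.log (8 * ((n : ℝ) + 2)) := by
  have h1 : |V10094 n| = 1 / 2 * Real.log (64 * (((n / 2 : ℕ) : ℝ) + 1) * (((n / 2 : ℕ) : ℝ) + 2)) := by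
    have h2 : 0 ≤ Real.log (64 * (((n / 2 : ℕ) : ℝ) + 1) * (((n / 2 : ℕ) : ℝ) + 2)) := by
      apply Real.log_nonneg
      have : (0 : ℝ) ≤ ((n / 2 : ℕ) : ℝ) := Nat.cast_nonneg _
      nlinarith
    unfold V10094 c10094
    simp only [one_div, Real.log_inv]
    split_ifs
    · rw [mul_neg, abs_neg, abs_of_nonneg (by positivity)]
    · rw [mul_neg, neg_neg, abs_of_nonneg (by positivity)]
  rw [h1]
  have h3 : (((n / 2 : ℕ) : ℝ)) ≤ n := by exact_mod_cast Nat.div_le_self n 2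
  have h4 : (0 : ℝ) ≤ ((n / 2 : ℕ) : ℝ) := Nat.cast_nonneg _
  have h5 : 64 * (((n / 2 : ℕ) : ℝ) + 1) * (((n / 2 : ℕ) : ℝ) + 2) ≤ (8 * ((n : ℝ) + 2)) ^ 2 := by
    nlinarith
  have h6 := Real.log_le_log (by positivity) h5
  rw [Real.log_pow] at h6
  push_cast at h6
  linarith

theorem sum_bound10094 (m : ℝ) (hm : 0 < m) (y : ℕ → ℝ) (hy : ∀ n, |y n| ≤ 1) :
    Summable (fun n => (1 / 2 : ℝ) ^ n *
      Real.exp (m * max (max |y n| |y (n + 1)|) |V10094 n|)) := by
  obtain ⟨M, hM⟩ := exists_nat_ge m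
  have hs : Summable (fun n : ℕ => ((n : ℝ)) ^ M * (1 / 2 : ℝ) ^ n) :=
    summable_pow_mul_geometric_of_norm_lt_one M (by norm_num)
  have hs2 : Summable (fun n : ℕ => (((n + 2 : ℕ) : ℝ)) ^ M * (1 / 2 : ℝ) ^ (n + 2)) :=
    (summable_nat_add_iff 2).2 hs
  refine Summable.of_nonneg_of_le (fun n => by positivity) (fun n => ?_)
    (hs2.mul_left (8 ^ M * 4))
  have hn0 : (0 : ℝ) ≤ n := Nat.cast_nonneg n
  have hlog1 : 1 ≤ Real.log (8 * ((n : ℝ) + 2)) := by
    rw [Real.le_log_iff_exp_le (by positivity)]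
    have := Real.exp_one_lt_d9
    linarith
  have h1 : max (max |y n| |y (n + 1)|) |V10094 n| ≤ Real.log (8 * ((n : ℝ) + 2)) :=
    max_le (max_le ((hy n).trans hlog1) ((hy (n + 1)).trans hlog1)) (V_bound10094 n)
  have h2 : m * max (max |y n| |y (n + 1)|) |V10094 n| ≤ M * Real.log (8 * ((n : ℝ) + 2)) := by
    calc m * max (max |y n| |y (n + 1)|) |V10094 n| ≤ m * Real.log (8 * ((n : ℝ) + 2)) :=
          mul_le_mul_of_nonneg_left h1 hm.le
      _ ≤ M * Real.log (8 * ((n : ℝ) + 2)) := mul_le_mul_of_nonneg_right hM (by linarith)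
  have h3 : Real.exp (m * max (max |y n| |y (n + 1)|) |V10094 n|) ≤ (8 * ((n : ℝ) + 2)) ^ M := by
    refine (Real.exp_le_exp.2 h2).trans ?_
    rw [← Real.log_pow, Real.exp_log (by positivity)]
  calc (1 / 2 : ℝ) ^ n * Real.exp (m * max (max |y n| |y (n + 1)|) |V10094 n|)
      ≤ (1 / 2 : ℝ) ^ n * (8 * ((n : ℝ) + 2)) ^ M := mul_le_mul_of_nonneg_left h3 (by positivity)
    _ = 8 ^ M * 4 * ((((n + 2 : ℕ) : ℝ)) ^ M * (1 / 2 : ℝ) ^ (n + 2)) := by
        rw [mul_pow, pow_add]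
        push_cast
        ring

/-- sequences for the indefinite generator `z₁² - z₂²` -/
theorem seq_indefinite : ∃ (idx : ℕ → Fin 2) (v y y' : ℕ → ℝ), y 0 ≠ y' 0 ∧
    (∀ n, y n = Gf ((![2, -2] : Fin 2 → ℝ) (idx n)) (y (n + 1)) (v n) (1 / 2)) ∧
    (∀ n, y' n = Gf ((![2, -2] : Fin 2 → ℝ) (idx n)) (y' (n + 1)) (v n) (1 / 2)) ∧
    (∀ m : ℝ, 0 < m → Summable (fun n => (1 / 2 : ℝ) ^ n *
      Real.exp (m * max (max |y n| |y (n + 1)|) |v n|))) ∧
    (∀ m : ℝ, 0 < m → Summable (fun n => (1 / 2 : ℝ) ^ n *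
      Real.exp (m * max (max |y' n| |y' (n + 1)|) |v n|))) := by
  refine ⟨fun n => if n % 2 = 0 then 0 else 1, V10094, Y10094 3, Y10094 2, ?_, ?_, ?_, ?_, ?_⟩
  · intro h
    unfold Y10094 X10094 at h
    simp only [Nat.zero_mod, if_true, Nat.zero_div, xs10094] at h
    have h1 : Real.log 3 = Real.log 2 := by linarith
    have h2 := Real.log_lt_log (by norm_num : (0 : ℝ) < 2) (by norm_num : (2 : ℝ) < 3)
    linarith
  · intro n
    exact Y_eq10094 3 (by norm_num) le_rfl n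
  · intro n
    exact Y_eq10094 2 le_rfl (by norm_num) n
  · intro m hm
    exact sum_bound10094 m hm _ (Y_bound10094 3 (by norm_num) le_rfl)
  · intro m hm
    exact sum_bound10094 m hm _ (Y_bound10094 2 le_rfl (by norm_num))

end Pool.Agent.Helper807.BS
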