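import Pool.Agent.Helper807.BS.Defs
import Pool.Agent.Helper807.BS.DG

set_option autoImplicit false

namespace Pool.Agent.Helper807.BS

open MeasureTheory ProbabilityTheory Set Filter
open scoped NNReal ENNReal Topology

universe u

variable {Ω : Type u} [mΩ : MeasurableSpace Ω]

noncomputable def sqStep (z : ℝ × ℝ) : ℝ × ℝ :=
  if z.2 < (z.1 - z.2) + Real.log 2 + Real.log 20 then
    (Real.log (2 * Real.exp z.1 - (1 / 20) * Real.exp z.2), z.2 + Real.log (39 / 20))
  else (z.1 - Real.log 2, z.2 - (z.1 - z.2) - Real.log 2)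

noncomputable def sqV (z : ℝ × ℝ) : ℝ :=
  if z.2 < (z.1 - z.2) + Real.log 2 + Real.log 20 then z.2 - Real.log 20
  else z.1 + Real.log 2

open Classical in
noncomputable def sqI (z : ℝ × ℝ) : Fin 2 :=
  if z.2 < (z.1 - z.2) + Real.log 2 + Real.log 20 then 0 else 1

noncomputable def sqW (z : ℝ × ℝ) : ℝ :=
  10 * ((z.1 - z.2) + 1) + 4 * max 0 ((z.1 - z.2) + Real.log 2 + Real.log 20 + 1 - z.2)

theorem sq_log20 : 0 ≤ Real.log 20 := Real.log_nonneg (by norm_num)

theorem sq_log3940 : Real.log (39 / 20) = Real.log 2 + Real.log (39 / 40) := by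
  rw [← Real.log_mul (by norm_num) (by norm_num)]
  norm_num

theorem sq_l1 : -(1 / 39 : ℝ) ≤ Real.log (39 / 40) := by
  have := Real.one_sub_inv_le_log_of_pos (show (0:ℝ) < 39 / 40 by norm_num)
  norm_num at this ⊢
  linarith

theorem sq_l2 : Real.log (39 / 40) ≤ 0 := Real.log_nonpos (by norm_num) (by norm_num)

theorem sq_facts (z : ℝ × ℝ) (h1 : z.2 ≤ z.1) (h2 : Real.log 20 ≤ z.2) :
    (sqStep z).2 ≤ (sqStep z).1 ∧ Real.log 20 ≤ (sqStep z).2 ∧
    z.1 = Gf ((![1, 0] : Fin 2 → ℝ) (sqI z)) (sqStep z).1 (sqV z) (1 / 2) ∧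
    z.2 = Gf ((![1, 0] : Fin 2 → ℝ) (sqI z)) (sqStep z).2 (sqV z) (1 / 2) ∧
    (sqStep z).1 ≤ z.1 + Real.log 2 ∧ 0 ≤ sqV z ∧ sqV z ≤ z.1 + Real.log 2 ∧
    Real.exp (sqStep z).1 / 2 * sqW (sqStep z) + 2 * Real.exp z.1 ≤ Real.exp z.1 * sqW z := by
  have hl2 : 0.6931471803 < Real.log 2 := Real.log_two_gt_d9
  have hl2' : Real.log 2 < 0.6931471808 := Real.log_two_lt_d9
  have h20 := sq_log20
  have hL := sq_log3940
  have hL1 := sq_l1
  have hL2 := sq_l2
  obtain ⟨y, y'⟩ := z
  simp only at h1 h2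
  have hee : Real.exp y' ≤ Real.exp y := Real.exp_le_exp.2 h1
  have hp := Real.exp_pos y
  have hp' := Real.exp_pos y'
  by_cases hc : y' < (y - y') + Real.log 2 + Real.log 20
  · have hstep : sqStep (y, y') =
        (Real.log (2 * Real.exp y - (1 / 20) * Real.exp y'), y' + Real.log (39 / 20)) := by
      unfold sqStep
      rw [if_pos hc]
    have hv : sqV (y, y') = y' - Real.log 20 := by
      unfold sqV
      rw [if_pos hc]
    have hi : sqI (y, y') = 0 := by
      unfold sqI
      rw [if_pos hc]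
    rw [hstep, hv, hi]
    have hpos : 0 < 2 * Real.exp y - (1 / 20) * Real.exp y' := by linarith
    set yn := Real.log (2 * Real.exp y - (1 / 20) * Real.exp y') with hyn
    have hE : Real.exp yn = 2 * Real.exp y - (1 / 20) * Real.exp y' := Real.exp_log hpos
    have hE' : Real.exp (y' + Real.log (39 / 20)) = (39 / 20) * Real.exp y' := by
      rw [Real.exp_add, Real.exp_log (by norm_num)]
      ring
    have hv2 : Real.exp (y' - Real.log 20) = Real.exp y' / 20 := by
      rw [Real.exp_sub, Real.exp_log (by norm_num)]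
    have ha : y' + Real.log (39 / 20) ≤ yn := by
      rw [← Real.exp_le_exp, hE, hE']
      linarith
    have hb : yn ≤ y + Real.log 2 := by
      rw [← Real.exp_le_exp, hE, Real.exp_add, Real.exp_log (by norm_num)]
      linarith
    refine ⟨ha, by simp only; linarith, ?_, ?_, hb, by linarith, by linarith, ?_⟩
    · unfold Gf
      simp only [Matrix.cons_val_zero, one_ne_zero, if_false, one_mul, div_one]
      rw [hE, hv2]
      have : (1 - 1 / 2 : ℝ) * (Real.exp y' / 20) + 1 / 2 * (2 * Real.exp y - 1 / 20 * Real.exp y')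
          = Real.exp y := by ring
      rw [this, Real.log_exp]
    · unfold Gf
      simp only [Matrix.cons_val_zero, one_ne_zero, if_false, one_mul, div_one]
      rw [hE', hv2]
      have : (1 - 1 / 2 : ℝ) * (Real.exp y' / 20) + 1 / 2 * ((39 / 20) * Real.exp y')
          = Real.exp y' := by ring
      rw [this, Real.log_exp]
    · have hW : sqW (yn, y' + Real.log (39 / 20)) ≤ sqW (y, y') - 2 := by
        unfold sqW
        simp only
        have hm : max 0 ((y - y') + Real.log 2 + Real.log 20 + 1 - y')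
            = (y - y') + Real.log 2 + Real.log 20 + 1 - y' := max_eq_right (by linarith)
        rw [hm]
        have hm2 : max 0 ((yn - (y' + Real.log (39 / 20))) + Real.log 2 + Real.log 20 + 1
            - (y' + Real.log (39 / 20)))
            ≤ (y - y') + Real.log 2 + Real.log 20 + 1 - y' - (0.6 : ℝ) := by
          apply max_le
          · linarith
          · rw [hL]
            linarith
        rw [hL] at *
        linarith
      have hW0 : 0 ≤ sqW (yn, y' + Real.log (39 / 20)) := by
        unfold sqW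
        simp only
        have := le_max_left 0 ((yn - (y' + Real.log (39 / 20))) + Real.log 2 + Real.log 20 + 1
            - (y' + Real.log (39 / 20)))
        linarith
      have hEn : Real.exp yn / 2 ≤ Real.exp y := by
        rw [hE]
        linarith
      have := mul_le_mul hEn hW hW0 hp.le
      simp only
      nlinarith [this]
  · have hstep : sqStep (y, y') = (y - Real.log 2, y' - (y - y') - Real.log 2) := by
      unfold sqStep
      rw [if_neg hc]
    have hv : sqV (y, y') = y + Real.log 2 := by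
      unfold sqV
      rw [if_neg hc]
    have hi : sqI (y, y') = 1 := by
      unfold sqI
      rw [if_neg hc]
    rw [hstep, hv, hi]
    push Not at hc
    refine ⟨by simp only; linarith, by simp only; linarith, ?_, ?_, by simp only; linarith,
      by linarith, by linarith, ?_⟩
    · unfold Gf
      simp
      ring
    · unfold Gf
      simp
      ring
    · have hE : Real.exp (y - Real.log 2) = Real.exp y / 2 := by
        rw [Real.exp_sub, Real.exp_log (by norm_num)]
      simp only
      rw [hE]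
      have hW : sqW (y - Real.log 2, y' - (y - y') - Real.log 2) ≤ 28 * (y - y') + 17 := by
        unfold sqW
        simp only
        have hm2 : max 0 ((y - Real.log 2 - (y' - (y - y') - Real.log 2)) + Real.log 2
            + Real.log 20 + 1 - (y' - (y - y') - Real.log 2))
            ≤ 2 * (y - y') + Real.log 2 + 1 := by
          apply max_le
          · linarith
          · linarith
        linarith
      have hW2 : 10 * ((y - y') + 1) ≤ sqW (y, y') := by
        unfold sqW
        simp only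
        have := le_max_left 0 ((y - y') + Real.log 2 + Real.log 20 + 1 - y')
        linarith
      have h3 : Real.exp y / 2 / 2 * sqW (y - Real.log 2, y' - (y - y') - Real.log 2)
          ≤ Real.exp y / 2 / 2 * (28 * (y - y') + 17) :=
        mul_le_mul_of_nonneg_left hW (by positivity)
      have h4 : Real.exp y * (10 * ((y - y') + 1)) ≤ Real.exp y * sqW (y, y') :=
        mul_le_mul_of_nonneg_left hW2 hp.le
      have h5 : 0 ≤ Real.exp y * (y - y') := mul_nonneg hp.le (by linarith)
      nlinarith [h3, h4, h5]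

noncomputable def sqS : ℕ → ℝ × ℝ
  | 0 => (Real.log 20 + 1, Real.log 20)
  | n + 1 => sqStep (sqS n)

theorem sqS_inv (n : ℕ) : (sqS n).2 ≤ (sqS n).1 ∧ Real.log 20 ≤ (sqS n).2 := by
  induction n with
  | zero =>
    constructor
    · change Real.log 20 ≤ Real.log 20 + 1
      linarith
    · exact le_refl _
  | succ n ih =>
    have h := sq_facts (sqS n) ih.1 ih.2
    exact ⟨h.1, h.2.1⟩

theorem sqS_summable : Summable (fun n => (1 / 2 : ℝ) ^ n * Real.exp (sqS n).1) := by
  have hW0 : ∀ n, 0 ≤ sqW (sqS n) := by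
    intro n
    unfold sqW
    have := le_max_left 0 (((sqS n).1 - (sqS n).2) + Real.log 2 + Real.log 20 + 1 - (sqS n).2)
    linarith [(sqS_inv n).1]
  have key : ∀ n, ∑ i ∈ Finset.range n, 2 * ((1 / 2 : ℝ) ^ i * Real.exp (sqS i).1)
      + (1 / 2 : ℝ) ^ n * (Real.exp (sqS n).1 * sqW (sqS n))
      ≤ Real.exp (sqS 0).1 * sqW (sqS 0) := by
    intro n
    induction n with
    | zero => simp
    | succ n ih =>
      rw [Finset.sum_range_succ]
      have h := (sq_facts (sqS n) (sqS_inv n).1 (sqS_inv n).2).2.2.2.2.2.2.2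
      have hp : (0:ℝ) < (1 / 2 : ℝ) ^ n := by positivity
      have h' := mul_le_mul_of_nonneg_left h hp.le
      have e : sqS (n + 1) = sqStep (sqS n) := rfl
      rw [e, pow_succ]
      nlinarith [h', ih]
  apply summable_of_sum_range_le (c := Real.exp (sqS 0).1 * sqW (sqS 0) / 2)
  · intro n
    positivity
  · intro n
    have h := key n
    rw [← Finset.mul_sum] at h
    have h0 : 0 ≤ (1 / 2 : ℝ) ^ n * (Real.exp (sqS n).1 * sqW (sqS n)) :=
      mul_nonneg (by positivity) (mul_nonneg (Real.exp_pos _).le (hW0 n))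
    linarith

/-- sequences for the degenerate generator `z₁² / 2` -/
theorem seq_degenerate : ∃ (idx : ℕ → Fin 2) (v y y' : ℕ → ℝ), y 0 ≠ y' 0 ∧
    (∀ n, y n = Gf ((![1, 0] : Fin 2 → ℝ) (idx n)) (y (n + 1)) (v n) (1 / 2)) ∧
    (∀ n, y' n = Gf ((![1, 0] : Fin 2 → ℝ) (idx n)) (y' (n + 1)) (v n) (1 / 2)) ∧
    Summable (fun n => (1 / 2 : ℝ) ^ n * Real.exp (max (max |y n| |y (n + 1)|) |v n|)) ∧
    Summable (fun n => (1 / 2 : ℝ) ^ n * Real.exp (max (max |y' n| |y' (n + 1)|) |v n|)) := by
  refine ⟨fun n => sqI (sqS n), fun n => sqV (sqS n), fun n => (sqS n).1, fun n => (sqS n).2,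
    ?_, ?_, ?_, ?_, ?_⟩
  · change Real.log 20 + 1 ≠ Real.log 20
    intro h
    linarith
  · intro n
    exact (sq_facts (sqS n) (sqS_inv n).1 (sqS_inv n).2).2.2.1
  · intro n
    exact (sq_facts (sqS n) (sqS_inv n).1 (sqS_inv n).2).2.2.2.1
  · apply Summable.of_nonneg_of_le (fun n => by positivity) _ (sqS_summable.mul_left 2)
    intro n
    have hl2 : 0.6931471803 < Real.log 2 := Real.log_two_gt_d9
    have h20 := sq_log20
    obtain ⟨i1, i2⟩ := sqS_inv n
    obtain ⟨j1, j2⟩ := sqS_inv (n + 1)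
    obtain ⟨_, _, _, _, f5, f6, f7, _⟩ := sq_facts (sqS n) i1 i2
    have e : sqS (n + 1) = sqStep (sqS n) := rfl
    rw [← e] at f5
    have hm : max (max |(sqS n).1| |(sqS (n + 1)).1|) |sqV (sqS n)| ≤ (sqS n).1 + Real.log 2 := by
      rw [abs_of_nonneg (by linarith : 0 ≤ (sqS n).1), abs_of_nonneg (by linarith : 0 ≤ (sqS (n+1)).1),
        abs_of_nonneg f6]
      exact max_le (max_le (by linarith) f5) f7
    have hx : Real.exp (max (max |(sqS n).1| |(sqS (n + 1)).1|) |sqV (sqS n)|)
        ≤ 2 * Real.exp (sqS n).1 := by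
      refine (Real.exp_le_exp.2 hm).trans (le_of_eq ?_)
      rw [Real.exp_add, Real.exp_log (by norm_num)]
      ring
    have hp : (0:ℝ) ≤ (1 / 2 : ℝ) ^ n := by positivity
    calc (1 / 2 : ℝ) ^ n * Real.exp (max (max |(sqS n).1| |(sqS (n + 1)).1|) |sqV (sqS n)|)
        ≤ (1 / 2 : ℝ) ^ n * (2 * Real.exp (sqS n).1) := mul_le_mul_of_nonneg_left hx hp
      _ = 2 * ((1 / 2 : ℝ) ^ n * Real.exp (sqS n).1) := by ring
  · apply Summable.of_nonneg_of_le (fun n => by positivity) _ (sqS_summable.mul_left 2)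
    intro n
    have hl2 : 0.6931471803 < Real.log 2 := Real.log_two_gt_d9
    have h20 := sq_log20
    obtain ⟨i1, i2⟩ := sqS_inv n
    obtain ⟨j1, j2⟩ := sqS_inv (n + 1)
    obtain ⟨_, _, _, _, f5, f6, f7, _⟩ := sq_facts (sqS n) i1 i2
    have e : sqS (n + 1) = sqStep (sqS n) := rfl
    rw [← e] at f5
    have hm : max (max |(sqS n).2| |(sqS (n + 1)).2|) |sqV (sqS n)| ≤ (sqS n).1 + Real.log 2 := by
      rw [abs_of_nonneg (by linarith : 0 ≤ (sqS n).2), abs_of_nonneg (by linarith : 0 ≤ (sqS (n+1)).2),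
        abs_of_nonneg f6]
      exact max_le (max_le (by linarith) (by linarith)) f7
    have hx : Real.exp (max (max |(sqS n).2| |(sqS (n + 1)).2|) |sqV (sqS n)|)
        ≤ 2 * Real.exp (sqS n).1 := by
      refine (Real.exp_le_exp.2 hm).trans (le_of_eq ?_)
      rw [Real.exp_add, Real.exp_log (by norm_num)]
      ring
    have hp : (0:ℝ) ≤ (1 / 2 : ℝ) ^ n := by positivity
    calc (1 / 2 : ℝ) ^ n * Real.exp (max (max |(sqS n).2| |(sqS (n + 1)).2|) |sqV (sqS n)|)
        ≤ (1 / 2 : ℝ) ^ n * (2 * Real.exp (sqS n).1) := mul_le_mul_of_nonneg_left hx hp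
      _ = 2 * ((1 / 2 : ℝ) ^ n * Real.exp (sqS n).1) := by ring

end Pool.Agent.Helper807.BS
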