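import Pool.Agent.Helper807.BS.Defs
import Pool.Agent.Helper807.BS.DSt
import Pool.Agent.Helper807.BS.LPhi1
import Pool.Agent.Helper807.BS.LPhi2
import Pool.Agent.Helper807.BS.LG1

set_option autoImplicit false

namespace Pool.Agent.Helper807.BS

open MeasureTheory ProbabilityTheory Set Filter
open scoped NNReal ENNReal Topology

universe u

variable {Ω : Type u} [mΩ : MeasurableSpace Ω]

theorem hasDerivAt_stu_x (l y v b t : ℝ) (ht : t < b) (x : ℝ) :
    HasDerivAt (fun z => stu l y v b t z) (stx l y v b t x) x := by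
  have _ := ht
  have h1 : HasDerivAt (fun z : ℝ => z / √(b - t)) (1 / √(b - t)) x :=
    (hasDerivAt_id x).div_const _
  have h2 := HasDerivAt.comp (h₂ := Phi) x (hasDerivAt_Phi (x / √(b - t))) h1
  have h3 := HasDerivAt.comp (h₂ := Gf l y v) x
    (hasDerivAt_Gf l y v (Phi (x / √(b - t))) ⟨(Phi_mem _).1.le, (Phi_mem _).2.le⟩) h2
  have h4 : HasDerivAt (fun z => stu l y v b t z) _ x := h3
  refine h4.congr_deriv ?_
  unfold stx
  ring

theorem hasDerivAt_stx_x (l y v b t : ℝ) (ht : t < b) (x : ℝ) :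
    HasDerivAt (fun z => stx l y v b t z) (stxx l y v b t x) x := by
  have hw : (√(b - t)) ^ 2 = b - t := Real.sq_sqrt (by linarith)
  have hw0 : 0 < √(b - t) := Real.sqrt_pos.2 (by linarith)
  have h1 : HasDerivAt (fun z : ℝ => z / √(b - t)) (1 / √(b - t)) x :=
    (hasDerivAt_id x).div_const _
  have h2 := HasDerivAt.comp (h₂ := Phi) x (hasDerivAt_Phi (x / √(b - t))) h1
  have h3 := HasDerivAt.comp (h₂ := phi) x (hasDerivAt_phi (x / √(b - t))) h1
  have h4 := HasDerivAt.comp (h₂ := Gd l y v) x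
    (hasDerivAt_Gd l y v (Phi (x / √(b - t))) ⟨(Phi_mem _).1.le, (Phi_mem _).2.le⟩) h2
  have h5 : HasDerivAt (fun z => stx l y v b t z) _ x := (h4.mul h3).div_const (√(b - t))
  refine h5.congr_deriv ?_
  unfold stxx
  simp only [Function.comp]
  generalize Gd l y v (Phi (x / √(b - t))) = G
  generalize phi (x / √(b - t)) = p
  have hw1 : √(b - t) ≠ 0 := hw0.ne'
  have hb : b - t ≠ 0 := by linarith
  field_simp
  rw [hw]
  ring

theorem hasDerivAt_stu_t (l y v b t : ℝ) (ht : t < b) (x : ℝ) :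
    HasDerivAt (fun s => stu l y v b s x) (stt l y v b t x) t := by
  have hw : (√(b - t)) ^ 2 = b - t := Real.sq_sqrt (by linarith)
  have hw0 : 0 < √(b - t) := Real.sqrt_pos.2 (by linarith)
  have h0 : HasDerivAt (fun s : ℝ => b - s) (-1) t := by
    simpa using (hasDerivAt_id t).const_sub b
  have h1 : HasDerivAt (fun s : ℝ => √(b - s)) (-1 / (2 * √(b - t))) t :=
    h0.sqrt (by linarith)
  have h1' : HasDerivAt (fun s : ℝ => x / √(b - s))
      ((0 * √(b - t) - x * (-1 / (2 * √(b - t)))) / (√(b - t)) ^ 2) t :=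
    (hasDerivAt_const t x).div h1 hw0.ne'
  have h2 := HasDerivAt.comp (h₂ := Phi) t (hasDerivAt_Phi (x / √(b - t))) h1'
  have h3 := HasDerivAt.comp (h₂ := Gf l y v) t
    (hasDerivAt_Gf l y v (Phi (x / √(b - t))) ⟨(Phi_mem _).1.le, (Phi_mem _).2.le⟩) h2
  have h4 : HasDerivAt (fun s => stu l y v b s x) _ t := h3
  refine h4.congr_deriv ?_
  unfold stt
  generalize Gd l y v (Phi (x / √(b - t))) = G
  generalize phi (x / √(b - t)) = p
  have hw1 : √(b - t) ≠ 0 := hw0.ne'
  have hb : b - t ≠ 0 := by linarith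
  field_simp
  rw [hw]
  ring

theorem st_pde (l y v b t : ℝ) (ht : t < b) (x : ℝ) :
    stt l y v b t x + stxx l y v b t x / 2 = -(l / 2) * (stx l y v b t x) ^ 2 := by
  have hw : (√(b - t)) ^ 2 = b - t := Real.sq_sqrt (by linarith)
  have hw0 : 0 < √(b - t) := Real.sqrt_pos.2 (by linarith)
  unfold stt stxx stx
  generalize Gd l y v (Phi (x / √(b - t))) = G
  generalize phi (x / √(b - t)) = p
  have hw1 : √(b - t) ≠ 0 := hw0.ne'
  have hb : b - t ≠ 0 := by linarith
  field_simp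
  linear_combination (-(G ^ 2 * p ^ 2 * l)) * hw

end Pool.Agent.Helper807.BS
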